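import Pool.Agent.KS6_3.Asd.Defs

/-!
The traces of Frobenius at `2`, `3`, `5`, up to sign, in terms of `j` modulo `p`.
-/

set_option autoImplicit false

namespace Pool.Agent.KS6_3.Asd

open Finset

/-- `∑_{i < n} f i` -/
def sumN (n : ℕ) (f : ℕ → ℕ) : ℕ := Nat.rec (motive := fun _ => ℕ) 0 (fun i ih => Nat.add ih (f i)) n

lemma sumN_eq (n : ℕ) (f : ℕ → ℕ) : sumN n f = ∑ i ∈ range n, f i := by
  induction n with
  | zero => rfl
  | succ n ih =>
    change sumN n f + f n = _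
    rw [ih, sum_range_succ]

/-- number of affine solutions modulo `p` -/
def cnt (p a1 a2 a3 a4 a6 : ℕ) : ℕ :=
  sumN p fun x => sumN p fun y =>
    bif Nat.beq ((y ^ 2 + a1 * x * y + a3 * y) % p) ((x ^ 3 + a2 * x ^ 2 + a4 * x + a6) % p) then 1 else 0

/-- `-x` modulo `p` -/
def dl (p a1 a2 a3 a4 a6 : ℕ) : ℕ :=
  let m := p - 1
  let b2 := a1 ^ 2 + 4 * a2
  let b4 := 2 * a4 + a1 * a3
  let b6 := a3 ^ 2 + 4 * a6
  let b8 := a1 ^ 2 * a6 + 4 * a2 * a6 + m * (a1 * a3 * a4) + a2 * a3 ^ 2 + m * a4 ^ 2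
  m * (b2 ^ 2 * b8) + m * (8 * b4 ^ 3) + m * (27 * b6 ^ 2) + 9 * b2 * b4 * b6

/-- `c₄` modulo `p` -/
def cf (p a1 a2 a3 a4 : ℕ) : ℕ := (a1 ^ 2 + 4 * a2) ^ 2 + (p - 1) * (24 * (2 * a4 + a1 * a3))

/-- for all curves with invariant `j` modulo `p`: `a_p ∈ {a, -a}` -/
def chkAp (p j a : ℕ) : Bool :=
  (List.range p).all fun a1 => (List.range p).all fun a2 => (List.range p).all fun a3 =>
    (List.range p).all fun a4 => (List.range p).all fun a6 =>
      Nat.beq (dl p a1 a2 a3 a4 a6 % p) 0 ||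
      !(Nat.beq (cf p a1 a2 a3 a4 ^ 3 % p) (j * dl p a1 a2 a3 a4 a6 % p)) ||
      Nat.beq (cnt p a1 a2 a3 a4 a6) (p + a) || Nat.beq (cnt p a1 a2 a3 a4 a6 + a) p

theorem chkAp_2_1 : chkAp 2 1 1 = true := by decide +kernel
theorem chkAp_3_1 : chkAp 3 1 1 = true := by decide +kernel
theorem chkAp_3_2 : chkAp 3 2 2 = true := by decide +kernel
theorem chkAp_5_1 : chkAp 5 1 2 = true := by decide +kernel
theorem chkAp_5_2 : chkAp 5 2 3 = true := by decide +kernel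
theorem chkAp_5_4 : chkAp 5 4 1 = true := by decide +kernel

lemma chkAp_spec {p j a : ℕ} (h : chkAp p j a = true) {a1 a2 a3 a4 a6 : ℕ} (h1 : a1 < p) (h2 : a2 < p) (h3 : a3 < p)
    (h4 : a4 < p) (h6 : a6 < p) (hd : dl p a1 a2 a3 a4 a6 % p ≠ 0)
    (hj : cf p a1 a2 a3 a4 ^ 3 % p = j * dl p a1 a2 a3 a4 a6 % p) :
    cnt p a1 a2 a3 a4 a6 = p + a ∨ cnt p a1 a2 a3 a4 a6 + a = p := by
  unfold chkAp at h
  simp only [List.all_eq_true, List.mem_range] at h
  have h7 := h a1 h1 a2 h2 a3 h3 a4 h4 a6 h6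
  simp only [Bool.or_eq_true, Bool.not_eq_true', Nat.beq_eq] at h7
  rcases h7 with ((h7 | h7) | h7) | h7
  · exact absurd h7 hd
  · rw [Bool.eq_false_iff, Ne, Nat.beq_eq] at h7
    exact absurd hj h7
  · exact Or.inl h7
  · exact Or.inr h7

/-- points of a Weierstrass curve as pairs of coordinates and the point at infinity -/
def ptEquiv {R : Type} [CommRing R] (W : WeierstrassCurve.Affine R) :
    W.Point ≃ Option {xy : R × R // W.Nonsingular xy.1 xy.2} where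
  toFun
    | .zero => none
    | .some x y h => some ⟨(x, y), h⟩
  invFun
    | none => .zero
    | some ⟨(x, y), h⟩ => .some x y h
  left_inv P := by
    cases P <;> rfl
  right_inv P := by
    rcases P with _ | ⟨⟨x, y⟩, h⟩ <;> rfl

lemma card_point {p : ℕ} [Fact p.Prime] (V : WeierstrassCurve (ZMod p)) (hΔ : V.Δ ≠ 0) :
    Nat.card V.toAffine.Point = cnt p V.a₁.val V.a₂.val V.a₃.val V.a₄.val V.a₆.val + 1 := by
  have hp : 0 < p := (Fact.out : p.Prime).pos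
  have : NeZero p := ⟨hp.ne'⟩
  have e1 : ∀ xy : ZMod p × ZMod p, V.toAffine.Nonsingular xy.1 xy.2 ↔
      xy.2 ^ 2 + V.a₁ * xy.1 * xy.2 + V.a₃ * xy.2 = xy.1 ^ 3 + V.a₂ * xy.1 ^ 2 + V.a₄ * xy.1 + V.a₆ := by
    intro xy
    rw [← WeierstrassCurve.Affine.equation_iff_nonsingular_of_Δ_ne_zero hΔ, WeierstrassCurve.Affine.equation_iff]
  rw [Nat.card_congr (ptEquiv _), Finite.card_option,
    Nat.card_congr (Equiv.subtypeEquivRight e1), Nat.card_eq_fintype_card, Fintype.card_subtype]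
  congr 1
  rw [cnt, sumN_eq]
  simp only [sumN_eq]
  rw [← sum_product' (range p) (range p) (fun x y => bif Nat.beq ((y ^ 2 + V.a₁.val * x * y + V.a₃.val * y) % p)
    ((x ^ 3 + V.a₂.val * x ^ 2 + V.a₄.val * x + V.a₆.val) % p) then 1 else 0), card_filter]
  refine sum_nbij' (fun xy => (xy.1.val, xy.2.val)) (fun xy => ((xy.1 : ZMod p), (xy.2 : ZMod p))) ?_ ?_ ?_ ?_ ?_
  · intro xy _
    rw [mem_product, mem_range, mem_range]
    exact ⟨ZMod.val_lt _, ZMod.val_lt _⟩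
  · intro xy _
    exact mem_univ _
  · intro xy _
    simp
  · intro xy hxy
    rw [mem_product, mem_range, mem_range] at hxy
    ext
    · simp only [ZMod.val_natCast]
      exact Nat.mod_eq_of_lt hxy.1
    · simp only [ZMod.val_natCast]
      exact Nat.mod_eq_of_lt hxy.2
  · intro xy _
    have h1 : (((xy.2.val ^ 2 + V.a₁.val * xy.1.val * xy.2.val + V.a₃.val * xy.2.val : ℕ)) : ZMod p) =
        xy.2 ^ 2 + V.a₁ * xy.1 * xy.2 + V.a₃ * xy.2 := by
      push_cast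
      simp only [ZMod.natCast_zmod_val]
    have h2 : (((xy.1.val ^ 3 + V.a₂.val * xy.1.val ^ 2 + V.a₄.val * xy.1.val + V.a₆.val : ℕ)) : ZMod p) =
        xy.1 ^ 3 + V.a₂ * xy.1 ^ 2 + V.a₄ * xy.1 + V.a₆ := by
      push_cast
      simp only [ZMod.natCast_zmod_val]
    split_ifs with h
    · rw [← h1, ← h2, ZMod.natCast_eq_natCast_iff] at h
      have h3 : Nat.beq ((xy.2.val ^ 2 + V.a₁.val * xy.1.val * xy.2.val + V.a₃.val * xy.2.val) % p)
          ((xy.1.val ^ 3 + V.a₂.val * xy.1.val ^ 2 + V.a₄.val * xy.1.val + V.a₆.val) % p) = true := by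
        rw [Nat.beq_eq]; exact h
      simp only [h3, cond_true]
    · have h3 : Nat.beq ((xy.2.val ^ 2 + V.a₁.val * xy.1.val * xy.2.val + V.a₃.val * xy.2.val) % p)
          ((xy.1.val ^ 3 + V.a₂.val * xy.1.val ^ 2 + V.a₄.val * xy.1.val + V.a₆.val) % p) = false := by
        rw [Bool.eq_false_iff, Ne, Nat.beq_eq]
        intro h4
        exact h (by rw [← h1, ← h2]; exact (ZMod.natCast_eq_natCast_iff _ _ _).2 h4)
      simp only [h3, cond_false]

theorem ap_sq {W : WeierstrassCurve ℤ} {p j a : ℕ} [Fact p.Prime] (h : chkAp p j a = true) (hg : ¬ (p : ℤ) ∣ W.Δ)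
    (hj : (p : ℤ) ∣ W.c₄ ^ 3 - j * W.Δ) : (ap W p) ^ 2 = (a : ℤ) ^ 2 := by
  have hp : 0 < p := (Fact.out : p.Prime).pos
  have : NeZero p := ⟨hp.ne'⟩
  set V := W.map (Int.castRingHom (ZMod p)) with hV
  have hΔ : V.Δ ≠ 0 := by
    rw [hV, WeierstrassCurve.map_Δ, eq_intCast]
    intro h1
    exact hg ((ZMod.intCast_zmod_eq_zero_iff_dvd _ _).1 h1)
  have hj' : V.c₄ ^ 3 = (j : ZMod p) * V.Δ := by
    rw [hV, WeierstrassCurve.map_Δ, WeierstrassCurve.map_c₄, eq_intCast, eq_intCast]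
    have h1 := (ZMod.intCast_zmod_eq_zero_iff_dvd _ _).2 hj
    push_cast at h1
    exact sub_eq_zero.1 h1
  have hm : ((p - 1 : ℕ) : ZMod p) = -1 := by
    rw [Nat.cast_sub hp, ZMod.natCast_self]
    simp
  have hd : ((dl p V.a₁.val V.a₂.val V.a₃.val V.a₄.val V.a₆.val : ℕ) : ZMod p) = V.Δ := by
    simp only [dl]
    push_cast
    simp only [ZMod.natCast_zmod_val, hm]
    rw [WeierstrassCurve.Δ, WeierstrassCurve.b₂, WeierstrassCurve.b₄, WeierstrassCurve.b₆, WeierstrassCurve.b₈]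
    ring
  have hc : ((cf p V.a₁.val V.a₂.val V.a₃.val V.a₄.val : ℕ) : ZMod p) = V.c₄ := by
    simp only [cf]
    push_cast
    simp only [ZMod.natCast_zmod_val, hm]
    rw [WeierstrassCurve.c₄, WeierstrassCurve.b₂, WeierstrassCurve.b₄]
    ring
  have h1 := chkAp_spec h (ZMod.val_lt V.a₁) (ZMod.val_lt V.a₂) (ZMod.val_lt V.a₃) (ZMod.val_lt V.a₄)
    (ZMod.val_lt V.a₆) (by
      intro h2
      apply hΔ
      rw [← hd]
      exact (ZMod.natCast_eq_zero_iff _ _).2 (Nat.dvd_of_mod_eq_zero h2)) (by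
      have h3 : ((cf p V.a₁.val V.a₂.val V.a₃.val V.a₄.val ^ 3 : ℕ) : ZMod p) =
          ((j * dl p V.a₁.val V.a₂.val V.a₃.val V.a₄.val V.a₆.val : ℕ) : ZMod p) := by
        push_cast
        rw [hd, hc, hj']
      exact (ZMod.natCast_eq_natCast_iff _ _ _).1 h3)
  have h2 : ap W p = (p : ℤ) - (cnt p V.a₁.val V.a₂.val V.a₃.val V.a₄.val V.a₆.val : ℤ) := by
    rw [ap, ← hV, card_point V hΔ]
    push_cast
    ring
  rw [h2]
  rcases h1 with h3 | h3
  · rw [h3]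
    push_cast
    ring
  · have h4 : (p : ℤ) = (cnt p V.a₁.val V.a₂.val V.a₃.val V.a₄.val V.a₆.val : ℤ) + a := by exact_mod_cast h3.symm
    rw [h4]
    ring

end Pool.Agent.KS6_3.Asd
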