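import Mathlib

/-!
The objects of MP_fb382b_nt.
-/

set_option autoImplicit false

namespace Pool.Agent.KS6_3.Asd

open Finset

/-- the `q`-expansion `E_k = 1 - (2k / B_k) ∑ σ_{k-1}(n) qⁿ` -/
noncomputable def eis (k : ℕ) : PowerSeries ℚ :=
  1 - PowerSeries.C (2 * (k : ℚ) / bernoulli k) *
    PowerSeries.mk (fun n => ((ArithmeticFunction.sigma (k - 1) n : ℕ) : ℚ))

/-- `Δ = (E₄³ - E₆²) / 1728` -/
noncomputable def discr : PowerSeries ℚ :=
  PowerSeries.C (1 / 1728) * (eis 4 ^ 3 - eis 6 ^ 2)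

/-- the `q`-expansion of `j = E₄³ / Δ` -/
noncomputable def jq : LaurentSeries ℚ :=
  (HahnSeries.ofPowerSeries ℤ ℚ (eis 4)) ^ 3 / HahnSeries.ofPowerSeries ℤ ℚ discr

/-- the `q`-expansion of `F = E_k / (j - j₀)ʳ` -/
noncomputable def F (k r : ℕ) (j₀ : ℚ) : LaurentSeries ℚ :=
  HahnSeries.ofPowerSeries ℤ ℚ (eis k) / (jq - HahnSeries.C j₀) ^ r

/-- the coefficient `a_m(F)`, which is `0` when `m` is not an integer -/
noncomputable def a (k r : ℕ) (j₀ m : ℚ) : ℚ :=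
  if m.den = 1 then (F k r j₀).coeff m.num else 0

/-- the `j`-invariant `c₄³ / Δ` of an integral Weierstrass model -/
def jInv (W : WeierstrassCurve ℤ) : ℚ := (W.c₄ : ℚ) ^ 3 / (W.Δ : ℚ)

/-- `a_p = p + 1 - #W(𝔽_p)` -/
noncomputable def ap (W : WeierstrassCurve ℤ) (p : ℕ) : ℤ :=
  (p : ℤ) + 1 - (Nat.card (W.map (Int.castRingHom (ZMod p))).toAffine.Point : ℤ)

/-- `x ≡ 0 (mod p ^ e)`, that is `v_p(x) ≥ e`, for rational `x` and an integer `e` -/
def CongZero (p : ℕ) (e : ℤ) (x : ℚ) : Prop := x = 0 ∨ e ≤ padicValRat p x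

/-- the hypotheses of the question on the curve and the prime: `p` is a prime of good reduction of the elliptic
curve, the `j`-invariant is not `0` or `1728`, and `v_p(j) = 0 = v_p(j - 1728)` -/
structure Applies (W : WeierstrassCurve ℤ) (p : ℕ) : Prop where
  prime : p.Prime
  good : ¬ (p : ℤ) ∣ W.Δ
  ne_zero : jInv W ≠ 0
  ne_1728 : jInv W ≠ 1728
  val : padicValRat p (jInv W) = 0
  val_1728 : padicValRat p (jInv W - 1728) = 0

/-- `x` is the left side `∑_{i=0}^{k-1} c_{p,i} a_{n p^(l-i)}` of the congruence -/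
def IsLhs (W : WeierstrassCurve ℤ) (p k r n l : ℕ) (x : ℚ) : Prop :=
  ∃ (α β : ℂ) (c : ℕ → ℤ), α + β = (ap W p : ℂ) ∧ α * β = (p : ℂ) ∧
    (∏ i ∈ range (k - 1), (Polynomial.X - Polynomial.C (α ^ (k - 2 - i) * β ^ i))) =
      ∑ i ∈ range k, Polynomial.C (c i : ℂ) * Polynomial.X ^ (k - 1 - i) ∧
    x = ∑ i ∈ range k, (c i : ℚ) * a k r (jInv W) ((n : ℚ) * (p : ℚ) ^ ((l : ℤ) - (i : ℤ)))

/-- the exponent `(k-1) l - (k-3) k / 2 - r` -/
def expo (k r l : ℕ) : ℤ := ((k : ℤ) - 1) * l - ((k : ℤ) - 3) * k / 2 - r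

/-- the congruence of the question -/
def Congr (W : WeierstrassCurve ℤ) (p k r n l : ℕ) : Prop :=
  ∀ x, IsLhs W p k r n l x → CongZero p (expo k r l) x

/-- Q1 -/
def Q1 : Prop :=
  ∀ (W : WeierstrassCurve ℤ) (p : ℕ), Applies W p → ∀ k ∈ ({4, 6, 8, 10, 14} : Finset ℕ), ∀ r, 1 ≤ r → r ≤ k - 1 →
    ∀ n l : ℕ, 1 ≤ n → 1 ≤ l → Congr W p k r n l

/-- the left side of the congruence is a well-defined nonzero rational number of valuation exactly `v` -/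
def LhsVal (W : WeierstrassCurve ℤ) (p k r n l : ℕ) (v : ℤ) : Prop :=
  ∃ x : ℚ, (∀ y, IsLhs W p k r n l y ↔ y = x) ∧ x ≠ 0 ∧ padicValRat p x = v

end Pool.Agent.KS6_3.Asd
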