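import Pool.Agent.KS6_3.Asd.Inst

/-!
More parameters.
-/

set_option autoImplicit false
set_option maxRecDepth 100000

namespace Pool.Agent.KS6_3.Asd

open Finset

lemma D_2_14_3 [Fact (Nat.Prime 2)] {W : WeierstrassCurve ℤ} (hW : Applies W 2) (hj : CongZero 2 1 (jInv W - (1 : ℕ))) :
    Out W 2 14 3 12 76 1 9 (fun _ y => not (cZ 2 76 y)) :=
  main (p := 2) (k := 14) (r := 2) (l := 12) (m := 6) (a := 1) (e := 91) (e' := 76) (h := 9) (lm := 13)
    (cs := [1, 1, 75557863725914323419046, 75557863725914323410856, 242880, 75557863725914257355776, 75557863725913055002624, 81178656768, 17318113443840, 75557863465123909206016, 36415825111941120, 1621295865853378560, 75484076749619485212672])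
    hW (by decide) (by norm_num) chkAp_2_1 hj (by norm_num) isTab_2_14_1 (by norm_num) (by norm_num)
    (by norm_num) (by norm_num) (by decide) (by decide) (by decide) (by decide) (by decide) (by decide +kernel)
    (by decide +kernel)

lemma D_2_14_4 [Fact (Nat.Prime 2)] {W : WeierstrassCurve ℤ} (hW : Applies W 2) (hj : CongZero 2 1 (jInv W - (1 : ℕ))) :
    Out W 2 14 4 12 75 1 8 (fun _ y => not (cZ 2 75 y)) :=
  main (p := 2) (k := 14) (r := 3) (l := 12) (m := 6) (a := 1) (e := 91) (e' := 75) (h := 8) (lm := 13)
    (cs := [1, 1, 37778931862957161709478, 37778931862957161701288, 242880, 37778931862957095646208, 37778931862955893293056, 81178656768, 17318113443840, 37778931602166747496448, 36415825111941120, 1621295865853378560, 37705144886662323503104])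
    hW (by decide) (by norm_num) chkAp_2_1 hj (by norm_num) isTab_2_14_1 (by norm_num) (by norm_num)
    (by norm_num) (by norm_num) (by decide) (by decide) (by decide) (by decide) (by decide) (by decide +kernel)
    (by decide +kernel)

lemma D_2_14_5 [Fact (Nat.Prime 2)] {W : WeierstrassCurve ℤ} (hW : Applies W 2) (hj : CongZero 2 1 (jInv W - (1 : ℕ))) :
    Out W 2 14 5 12 74 1 10 (fun _ y => not (cZ 2 74 y)) :=
  main (p := 2) (k := 14) (r := 4) (l := 12) (m := 6) (a := 1) (e := 91) (e' := 74) (h := 10) (lm := 13)
    (cs := [1, 1, 18889465931478580854694, 18889465931478580846504, 242880, 18889465931478514791424, 18889465931477312438272, 81178656768, 17318113443840, 18889465670688166641664, 36415825111941120, 1621295865853378560, 18815678955183742648320])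
    hW (by decide) (by norm_num) chkAp_2_1 hj (by norm_num) isTab_2_14_1 (by norm_num) (by norm_num)
    (by norm_num) (by norm_num) (by decide) (by decide) (by decide) (by decide) (by decide) (by decide +kernel)
    (by decide +kernel)

lemma D_2_14_6 [Fact (Nat.Prime 2)] {W : WeierstrassCurve ℤ} (hW : Applies W 2) (hj : CongZero 2 1 (jInv W - (1 : ℕ))) :
    Out W 2 14 6 11 60 1 7 (fun _ y => not (cZ 2 60 y)) :=
  main (p := 2) (k := 14) (r := 5) (l := 11) (m := 6) (a := 1) (e := 91) (e' := 60) (h := 7) (lm := 13)
    (cs := [1, 1, 1152921504606846886, 1152921504606838696, 242880, 1152921504540783616, 1152921503338430464, 81178656768, 17318113443840, 1152660714192633856, 36415825111941120, 468374361246531584])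
    hW (by decide) (by norm_num) chkAp_2_1 hj (by norm_num) isTab_2_14_1 (by norm_num) (by norm_num)
    (by norm_num) (by norm_num) (by decide) (by decide) (by decide) (by decide) (by decide) (by decide +kernel)
    (by decide +kernel)

lemma D_2_14_7 [Fact (Nat.Prime 2)] {W : WeierstrassCurve ℤ} (hW : Applies W 2) (hj : CongZero 2 1 (jInv W - (1 : ℕ))) :
    Out W 2 14 7 12 72 1 9 (fun _ y => not (cZ 2 72 y)) :=
  main (p := 2) (k := 14) (r := 6) (l := 12) (m := 6) (a := 1) (e := 91) (e' := 72) (h := 9) (lm := 13)
    (cs := [1, 1, 4722366482869645213606, 4722366482869645205416, 242880, 4722366482869579150336, 4722366482868376797184, 81178656768, 17318113443840, 4722366222079231000576, 36415825111941120, 1621295865853378560, 4648579506574807007232])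
    hW (by decide) (by norm_num) chkAp_2_1 hj (by norm_num) isTab_2_14_1 (by norm_num) (by norm_num)
    (by norm_num) (by norm_num) (by decide) (by decide) (by decide) (by decide) (by decide) (by decide +kernel)
    (by decide +kernel)

lemma D_2_14_8 [Fact (Nat.Prime 2)] {W : WeierstrassCurve ℤ} (hW : Applies W 2) (hj : CongZero 2 1 (jInv W - (1 : ℕ))) :
    Out W 2 14 8 12 71 1 8 (fun _ y => not (cZ 2 71 y)) :=
  main (p := 2) (k := 14) (r := 7) (l := 12) (m := 6) (a := 1) (e := 91) (e' := 71) (h := 8) (lm := 13)
    (cs := [1, 1, 2361183241434822606758, 2361183241434822598568, 242880, 2361183241434756543488, 2361183241433554190336, 81178656768, 17318113443840, 2361182980644408393728, 36415825111941120, 1621295865853378560, 2287396265139984400384])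
    hW (by decide) (by norm_num) chkAp_2_1 hj (by norm_num) isTab_2_14_1 (by norm_num) (by norm_num)
    (by norm_num) (by norm_num) (by decide) (by decide) (by decide) (by decide) (by decide) (by decide +kernel)
    (by decide +kernel)

lemma D_2_14_9 [Fact (Nat.Prime 2)] {W : WeierstrassCurve ℤ} (hW : Applies W 2) (hj : CongZero 2 1 (jInv W - (1 : ℕ))) :
    Out W 2 14 9 12 70 1 10 (fun _ y => not (cZ 2 70 y)) :=
  main (p := 2) (k := 14) (r := 8) (l := 12) (m := 6) (a := 1) (e := 91) (e' := 70) (h := 10) (lm := 13)
    (cs := [1, 1, 1180591620717411303334, 1180591620717411295144, 242880, 1180591620717345240064, 1180591620716142886912, 81178656768, 17318113443840, 1180591359926997090304, 36415825111941120, 1621295865853378560, 1106804644422573096960])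
    hW (by decide) (by norm_num) chkAp_2_1 hj (by norm_num) isTab_2_14_1 (by norm_num) (by norm_num)
    (by norm_num) (by norm_num) (by decide) (by decide) (by decide) (by decide) (by decide) (by decide +kernel)
    (by decide +kernel)

lemma D_2_14_10 [Fact (Nat.Prime 2)] {W : WeierstrassCurve ℤ} (hW : Applies W 2) (hj : CongZero 2 1 (jInv W - (1 : ℕ))) :
    Out W 2 14 10 12 69 1 8 (fun _ y => not (cZ 2 69 y)) :=
  main (p := 2) (k := 14) (r := 9) (l := 12) (m := 6) (a := 1) (e := 91) (e' := 69) (h := 8) (lm := 13)
    (cs := [1, 1, 590295810358705651622, 590295810358705643432, 242880, 590295810358639588352, 590295810357437235200, 81178656768, 17318113443840, 590295549568291438592, 36415825111941120, 1621295865853378560, 516508834063867445248])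
    hW (by decide) (by norm_num) chkAp_2_1 hj (by norm_num) isTab_2_14_1 (by norm_num) (by norm_num)
    (by norm_num) (by norm_num) (by decide) (by decide) (by decide) (by decide) (by decide) (by decide +kernel)
    (by decide +kernel)

lemma D_2_14_11 [Fact (Nat.Prime 2)] {W : WeierstrassCurve ℤ} (hW : Applies W 2) (hj : CongZero 2 1 (jInv W - (1 : ℕ))) :
    Out W 2 14 11 12 68 1 9 (fun _ y => not (cZ 2 68 y)) :=
  main (p := 2) (k := 14) (r := 10) (l := 12) (m := 6) (a := 1) (e := 91) (e' := 68) (h := 9) (lm := 13)
    (cs := [1, 1, 295147905179352825766, 295147905179352817576, 242880, 295147905179286762496, 295147905178084409344, 81178656768, 17318113443840, 295147644388938612736, 36415825111941120, 1621295865853378560, 221360928884514619392])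
    hW (by decide) (by norm_num) chkAp_2_1 hj (by norm_num) isTab_2_14_1 (by norm_num) (by norm_num)
    (by norm_num) (by norm_num) (by decide) (by decide) (by decide) (by decide) (by decide) (by decide +kernel)
    (by decide +kernel)

lemma D_2_14_12 [Fact (Nat.Prime 2)] {W : WeierstrassCurve ℤ} (hW : Applies W 2) (hj : CongZero 2 1 (jInv W - (1 : ℕ))) :
    Out W 2 14 12 12 67 1 8 (fun _ y => not (cZ 2 67 y)) :=
  main (p := 2) (k := 14) (r := 11) (l := 12) (m := 6) (a := 1) (e := 91) (e' := 67) (h := 8) (lm := 13)
    (cs := [1, 1, 147573952589676412838, 147573952589676404648, 242880, 147573952589610349568, 147573952588407996416, 81178656768, 17318113443840, 147573691799262199808, 36415825111941120, 1621295865853378560, 73786976294838206464])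
    hW (by decide) (by norm_num) chkAp_2_1 hj (by norm_num) isTab_2_14_1 (by norm_num) (by norm_num)
    (by norm_num) (by norm_num) (by decide) (by decide) (by decide) (by decide) (by decide) (by decide +kernel)
    (by decide +kernel)

lemma E_2_14 [Fact (Nat.Prime 2)] {W : WeierstrassCurve ℤ} (hW : Applies W 2) (hj : CongZero 2 1 (jInv W - (1 : ℕ))) :
    Out W 2 14 2 12 77 1 8 (fun u y => bif Nat.beq (Nat.mod u 2) 0 then cZ 2 77 y else cE 2 70 y) :=
  main (p := 2) (k := 14) (r := 1) (l := 12) (m := 6) (a := 1) (e := 91) (e' := 77) (h := 8) (lm := 13)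
    (cs := [1, 1, 151115727451828646838182, 151115727451828646829992, 242880, 151115727451828580774912, 151115727451827378421760, 81178656768, 17318113443840, 151115727191038232625152, 36415825111941120, 1621295865853378560, 151041940475533808631808])
    hW (by decide) (by norm_num) chkAp_2_1 hj (by norm_num) isTab_2_14_1 (by norm_num) (by norm_num)
    (by norm_num) (by norm_num) (by decide) (by decide) (by decide) (by decide) (by decide) (by decide +kernel)
    (by decide +kernel)

end Pool.Agent.KS6_3.Asd
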