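import Pool.Agent.KS6_3.Asd.InstB
import Pool.Agent.KS6_3.Asd.InstC

/-!
Consequences for the congruences.
-/

set_option autoImplicit false

namespace Pool.Agent.KS6_3.Asd

open Finset

section

variable {p : ℕ} [hpp : Fact p.Prime]

lemma cE_spec {p v y : ℕ} (h : cE p v y = true) : p ^ v ∣ y ∧ ¬ p ^ (v + 1) ∣ y := by
  change and (Nat.beq (y % p ^ v) 0) (not (Nat.beq (y % p ^ (v + 1)) 0)) = true at h
  rw [Bool.and_eq_true, Nat.beq_eq, Bool.not_eq_true', Bool.eq_false_iff, Ne, Nat.beq_eq] at h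
  exact ⟨Nat.dvd_of_mod_eq_zero h.1, fun h2 => h.2 (Nat.mod_eq_zero_of_dvd h2)⟩

lemma cZ_spec {p e y : ℕ} (h : cZ p e y = true) : p ^ e ∣ y := by
  change Nat.beq (y % p ^ e) 0 = true at h
  rw [Nat.beq_eq] at h
  exact Nat.dvd_of_mod_eq_zero h

omit hpp in
lemma val_of {X : ℚ} {v : ℕ} (h1 : CongZero p v X) (h2 : ¬ CongZero p ((v + 1 : ℕ) : ℤ) X) :
    X ≠ 0 ∧ padicValRat p X = v := by
  unfold CongZero at h1 h2
  push Not at h2
  refine ⟨h2.1, ?_⟩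
  rcases h1 with h1 | h1
  · exact absurd h1 h2.1
  · have := h2.2
    push_cast at this
    omega

lemma lhsVal_of {W : WeierstrassCurve ℤ} {k r l v : ℕ} {X : ℚ} {y : ℕ} {e' : ℕ}
    (hX : ∀ y', IsLhs W p k r 1 l y' ↔ y' = X) (h : ∀ m : ℕ, m ≤ e' → (CongZero p m X ↔ p ^ m ∣ y))
    (hv : v + 1 ≤ e') (hc : cE p v y = true) : LhsVal W p k r 1 l v := by
  have h1 := cE_spec hc
  have h2 := val_of (p := p) ((h v (by omega)).2 h1.1) (fun h3 => h1.2 ((h (v + 1) hv).1 h3))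
  exact ⟨X, hX, h2.1, h2.2⟩

omit hpp in
lemma not_congr_of {W : WeierstrassCurve ℤ} {k r l : ℕ} {v : ℤ} (h : LhsVal W p k r 1 l v) (hv : v < expo k r l) :
    ¬ Congr W p k r 1 l := by
  obtain ⟨X, hX, h0, h1⟩ := h
  intro h2
  rcases h2 X ((hX X).2 rfl) with h3 | h3
  · exact h0 h3
  · omega

omit hpp in
lemma congr_of {W : WeierstrassCurve ℤ} {k r l : ℕ} {X : ℚ} {y : ℕ} {e' e : ℕ}
    (hX : ∀ y', IsLhs W p k r 1 l y' ↔ y' = X) (h : ∀ m : ℕ, m ≤ e' → (CongZero p m X ↔ p ^ m ∣ y))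
    (he : e ≤ e') (hexp : expo k r l = e) (hc : cZ p e y = true) : Congr W p k r 1 l := by
  intro x hx
  rw [(hX x).1 hx, hexp]
  exact (h e he).2 (cZ_spec hc)

/-- the residue class of the invariant -/
lemma res_class {W : WeierstrassCurve ℤ} (hW : Applies W p) :
    ∃ j : ℕ, j < p ∧ j ≠ 0 ∧ ¬ (p : ℤ) ∣ (j : ℤ) - 1728 ∧ CongZero p 1 (jInv W - (j : ℕ)) := by
  have hp0 : 0 < p := hpp.out.pos
  have : NeZero (p ^ 1) := ⟨(pow_pos hp0 _).ne'⟩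
  obtain ⟨x', hx'⟩ := exists_zp (p := p) (x := jInv W) (le_of_eq hW.val.symm)
  set N : ℕ := (PadicInt.toZModPow 1 x').val with hN
  have hNx : ((N : ℕ) : ZMod (p ^ 1)) = PadicInt.toZModPow 1 x' := by rw [hN, ZMod.natCast_zmod_val]
  have hres : ∀ z : ℤ, CongZero p ((1 : ℕ) : ℤ) (jInv W - z) ↔ (p : ℤ) ∣ (N : ℤ) - z := by
    intro z
    have h1 : ((x' - (z : ℤ_[p]) : ℤ_[p]) : ℚ_[p]) = ((jInv W - z : ℚ) : ℚ_[p]) := by
      push_cast
      rw [hx']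
    have h2 := ZMod.intCast_zmod_eq_zero_iff_dvd ((N : ℤ) - z) (p ^ 1)
    rw [congZero_iff h1, map_sub, map_intCast, ← hNx]
    rw [pow_one] at h2 ⊢
    rw [← h2]
    push_cast
    rfl
  have hNlt : N < p := by
    calc N < p ^ 1 := ZMod.val_lt (PadicInt.toZModPow 1 x')
      _ = p := pow_one p
  have hu : ∀ q : ℚ, q ≠ 0 → padicValRat p q = 0 → ¬ CongZero p ((1 : ℕ) : ℤ) q := by
    intro q h0 h1 h2
    rcases h2 with h2 | h2
    · exact h0 h2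
    · rw [h1] at h2
      norm_num at h2
  refine ⟨N, hNlt, ?_, ?_, ?_⟩
  · intro h0
    refine hu _ hW.ne_zero hW.val ?_
    have := (hres 0).2 (by rw [h0]; simp)
    simpa using this
  · intro h0
    refine hu _ (sub_ne_zero.2 hW.ne_1728) hW.val_1728 ?_
    have := (hres 1728).2 h0
    simpa using this
  · have := (hres (N : ℤ)).2 (by simp)
    rw [Int.cast_natCast] at this
    exact_mod_cast this

end

instance f2 : Fact (Nat.Prime 2) := ⟨Nat.prime_two⟩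
instance f3 : Fact (Nat.Prime 3) := ⟨Nat.prime_three⟩
instance f5 : Fact (Nat.Prime 5) := ⟨Nat.prime_five⟩

lemma cl2 {W : WeierstrassCurve ℤ} (hW : Applies W 2) : CongZero 2 1 (jInv W - (1 : ℕ)) := by
  obtain ⟨j, h1, h2, _, h4⟩ := res_class hW
  have : j = 1 := by omega
  rwa [this] at h4

lemma cl3 {W : WeierstrassCurve ℤ} (hW : Applies W 3) :
    CongZero 3 1 (jInv W - (1 : ℕ)) ∨ CongZero 3 1 (jInv W - (2 : ℕ)) := by
  obtain ⟨j, h1, h2, _, h4⟩ := res_class hW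
  have : j = 1 ∨ j = 2 := by omega
  rcases this with rfl | rfl
  · exact Or.inl h4
  · exact Or.inr h4

lemma cl5 {W : WeierstrassCurve ℤ} (hW : Applies W 5) :
    CongZero 5 1 (jInv W - (1 : ℕ)) ∨ CongZero 5 1 (jInv W - (2 : ℕ)) ∨ CongZero 5 1 (jInv W - (4 : ℕ)) := by
  obtain ⟨j, h1, h2, h3, h4⟩ := res_class hW
  have : j = 1 ∨ j = 2 ∨ j = 4 := by
    have : j ≠ 3 := by
      rintro rfl
      exact h3 (by norm_num)
    omega
  rcases this with rfl | rfl | rfl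
  · exact Or.inl h4
  · exact Or.inr (Or.inl h4)
  · exact Or.inr (Or.inr h4)

/-! ### every curve -/

lemma out_val {W : WeierstrassCurve ℤ} {p k r l e' j₁ h v : ℕ} [Fact p.Prime]
    (ho : Out W p k r l e' j₁ h (fun _ y => cE p v y)) (hv : v + 1 ≤ e') : LhsVal W p k r 1 l v := by
  obtain ⟨X, N, y, h1, _, _, h4, h5⟩ := ho
  exact lhsVal_of h1 h5 hv h4

theorem all2 {W : WeierstrassCurve ℤ} (hW : Applies W 2) :
    LhsVal W 2 4 3 1 2 0 ∧ LhsVal W 2 6 5 1 4 3 ∧ LhsVal W 2 8 7 1 6 11 ∧ LhsVal W 2 10 9 1 8 21 ∧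
      LhsVal W 2 14 13 1 12 56 := by
  have hj := cl2 hW
  exact ⟨out_val (A_2_4 hW hj) (by norm_num), out_val (A_2_6 hW hj) (by norm_num),
    out_val (A_2_8 hW hj) (by norm_num), out_val (A_2_10 hW hj) (by norm_num), out_val (A_2_14 hW hj) (by norm_num)⟩

theorem all3 {W : WeierstrassCurve ℤ} (hW : Applies W 3) :
    LhsVal W 3 6 5 1 4 5 ∧ LhsVal W 3 8 7 1 6 13 ∧ LhsVal W 3 10 9 1 8 26 := by
  rcases cl3 hW with hj | hj
  · exact ⟨out_val (A_3_6_1 hW hj) (by norm_num), out_val (A_3_8_1 hW hj) (by norm_num),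
      out_val (A_3_10_1 hW hj) (by norm_num)⟩
  · exact ⟨out_val (A_3_6_2 hW hj) (by norm_num), out_val (A_3_8_2 hW hj) (by norm_num),
      out_val (A_3_10_2 hW hj) (by norm_num)⟩

theorem all5 {W : WeierstrassCurve ℤ} (hW : Applies W 5) : LhsVal W 5 8 7 1 6 14 := by
  rcases cl5 hW with hj | hj | hj
  · exact out_val (A_5_8_1 hW hj) (by norm_num)
  · exact out_val (A_5_8_2 hW hj) (by norm_num)
  · exact out_val (A_5_8_4 hW hj) (by norm_num)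

theorem all2' {W : WeierstrassCurve ℤ} (hW : Applies W 2) :
    ∃ v : ℕ, v ≤ 80 ∧ LhsVal W 2 14 11 1 13 v := by
  obtain ⟨X, N, y, h1, _, _, h4, h5⟩ := C_2_14 hW (cl2 hW)
  simp only [Bool.or_eq_true] at h4
  rcases h4 with h4 | h4 | h4
  · exact ⟨75, by norm_num, lhsVal_of h1 h5 (by norm_num) h4⟩
  · exact ⟨78, by norm_num, lhsVal_of h1 h5 (by norm_num) h4⟩
  · exact ⟨80, by norm_num, lhsVal_of h1 h5 (by norm_num) h4⟩

/-! ### poles of order one -/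

lemma cong4 {W : WeierstrassCurve ℤ} {N e : ℕ} (he2 : 2 ≤ e) (h3 : N % 2 = 1)
    (h2 : ∀ m : ℕ, m ≤ e → ∀ z : ℤ, (CongZero 2 m (jInv W - z) ↔ ((2 ^ m : ℕ) : ℤ) ∣ (N : ℤ) - z)) :
    CongZero 2 2 (jInv W - 1) ↔ N / 2 % 2 = 0 := by
  have h9 : CongZero 2 ((2 : ℕ) : ℤ) (jInv W - ((1 : ℤ) : ℚ)) ↔ CongZero 2 2 (jInv W - 1) := by
    rw [Int.cast_one]; rfl
  rw [← h9, h2 2 he2 1]
  constructor
  · intro h10
    obtain ⟨c, hc⟩ := h10
    push_cast at hc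
    omega
  · intro h10
    refine ⟨(N : ℤ) / 4, ?_⟩
    push_cast
    omega

lemma iff2 {W : WeierstrassCurve ℤ} {k r l e v : ℕ} {h : ℕ} (hh : 1 ≤ h)
    (ho : Out W 2 k r l e 1 h (fun u y => bif Nat.beq (Nat.mod u 2) 0 then cZ 2 e y else cE 2 v y))
    (he : expo k r l = e) (he2 : 2 ≤ e) (hv : v + 1 ≤ e) :
    (Congr W 2 k r 1 l ↔ CongZero 2 2 (jInv W - 1)) ∧ (¬ Congr W 2 k r 1 l → LhsVal W 2 k r 1 l v) := by
  obtain ⟨X, N, y, h1, h2, h3, h4, h5⟩ := ho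
  have h7 : N / 2 % 2 ^ h % 2 = N / 2 % 2 := Nat.mod_mod_of_dvd _ (dvd_pow_self 2 (by omega))
  have h8 := cong4 he2 h3 h2
  simp only at h4
  by_cases hc : N / 2 % 2 = 0
  · have h10 : Nat.beq (Nat.mod (N / 2 % 2 ^ h) 2) 0 = true := by
      rw [Nat.beq_eq]
      change N / 2 % 2 ^ h % 2 = 0
      rw [h7]; exact hc
    rw [h10, cond_true] at h4
    have h11 := congr_of h1 h5 le_rfl he h4
    exact ⟨⟨fun _ => h8.2 hc, fun _ => h11⟩, fun h12 => absurd h11 h12⟩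
  · have h10 : Nat.beq (Nat.mod (N / 2 % 2 ^ h) 2) 0 = false := by
      rw [Bool.eq_false_iff, Ne, Nat.beq_eq]
      change ¬ N / 2 % 2 ^ h % 2 = 0
      rw [h7]; exact hc
    rw [h10, cond_false] at h4
    have h11 := lhsVal_of h1 h5 hv h4
    have h12 : ¬ Congr W 2 k r 1 l := not_congr_of h11 (by rw [he]; exact_mod_cast hv)
    exact ⟨⟨fun h13 => absurd h13 h12, fun h13 => absurd (h8.1 h13) hc⟩, fun _ => h11⟩

theorem b2 {W : WeierstrassCurve ℤ} (hW : Applies W 2) {k : ℕ} (hk : k ∈ ({4, 6, 8, 10, 14} : Finset ℕ)) :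
    (Congr W 2 k 1 1 (k - 1) ↔ CongZero 2 2 (jInv W - 1)) ∧
      (¬ Congr W 2 k 1 1 (k - 1) → LhsVal W 2 k 1 1 (k - 1) (expo k 1 (k - 1) - (k - 2))) := by
  have hj := cl2 hW
  simp only [Finset.mem_insert, Finset.mem_singleton] at hk
  rcases hk with rfl | rfl | rfl | rfl | rfl
  · have h := iff2 (by norm_num) (B_2_4 hW hj) (by norm_num [expo]) (by norm_num) (by norm_num)
    refine ⟨h.1, fun h1 => ?_⟩
    have h2 := h.2 h1
    norm_num [expo] at h2 ⊢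
    exact h2
  · have h := iff2 (by norm_num) (B_2_6 hW hj) (by norm_num [expo]) (by norm_num) (by norm_num)
    refine ⟨h.1, fun h1 => ?_⟩
    have h2 := h.2 h1
    norm_num [expo] at h2 ⊢
    exact h2
  · have h := iff2 (by norm_num) (B_2_8 hW hj) (by norm_num [expo]) (by norm_num) (by norm_num)
    refine ⟨h.1, fun h1 => ?_⟩
    have h2 := h.2 h1
    norm_num [expo] at h2 ⊢
    exact h2
  · have h := iff2 (by norm_num) (B_2_10 hW hj) (by norm_num [expo]) (by norm_num) (by norm_num)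
    refine ⟨h.1, fun h1 => ?_⟩
    have h2 := h.2 h1
    norm_num [expo] at h2 ⊢
    exact h2
  · have h := iff2 (by norm_num) (B_2_14 hW hj) (by norm_num [expo]) (by norm_num) (by norm_num)
    refine ⟨h.1, fun h1 => ?_⟩
    have h2 := h.2 h1
    norm_num [expo] at h2 ⊢
    exact h2

lemma iff3 {W : WeierstrassCurve ℤ} {k r l e v j₁ : ℕ}
    (ho : Out W 3 k r l e j₁ 1 (fun u y => bif or (Nat.beq (Nat.mod (j₁ + 3 * u) 9) 1)
      (Nat.beq (Nat.mod (j₁ + 3 * u) 9) 8) then cZ 3 e y else cE 3 v y))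
    (he : expo k r l = e) (he2 : 2 ≤ e) (hv : v + 1 ≤ e) :
    (Congr W 3 k r 1 l ↔ CongZero 3 2 (jInv W - 1) ∨ CongZero 3 2 (jInv W + 1)) ∧
      (¬ Congr W 3 k r 1 l → LhsVal W 3 k r 1 l v) := by
  obtain ⟨X, N, y, h1, h2, h3, h4, h5⟩ := ho
  have h8 : CongZero 3 2 (jInv W - 1) ∨ CongZero 3 2 (jInv W + 1) ↔ N % 9 = 1 ∨ N % 9 = 8 := by
    have h9 : CongZero 3 ((2 : ℕ) : ℤ) (jInv W - ((1 : ℤ) : ℚ)) ↔ CongZero 3 2 (jInv W - 1) := by
      rw [Int.cast_one]; rfl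
    have h9' : CongZero 3 ((2 : ℕ) : ℤ) (jInv W - ((-1 : ℤ) : ℚ)) ↔ CongZero 3 2 (jInv W + 1) := by
      rw [Int.cast_neg, Int.cast_one, sub_neg_eq_add]; rfl
    rw [← h9, ← h9', h2 2 he2 1, h2 2 he2 (-1)]
    push_cast
    omega
  have h7 : (j₁ + 3 * (N / 3 % 3 ^ 1)) % 9 = N % 9 := by omega
  simp only at h4
  by_cases hc : N % 9 = 1 ∨ N % 9 = 8
  · have h10 : or (Nat.beq (Nat.mod (j₁ + 3 * (N / 3 % 3 ^ 1)) 9) 1)
        (Nat.beq (Nat.mod (j₁ + 3 * (N / 3 % 3 ^ 1)) 9) 8) = true := by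
      rw [Bool.or_eq_true, Nat.beq_eq, Nat.beq_eq]
      change (j₁ + 3 * (N / 3 % 3 ^ 1)) % 9 = 1 ∨ (j₁ + 3 * (N / 3 % 3 ^ 1)) % 9 = 8
      rw [h7]; exact hc
    rw [h10, cond_true] at h4
    have h11 := congr_of h1 h5 le_rfl he h4
    exact ⟨⟨fun _ => h8.2 hc, fun _ => h11⟩, fun h12 => absurd h11 h12⟩
  · have h10 : or (Nat.beq (Nat.mod (j₁ + 3 * (N / 3 % 3 ^ 1)) 9) 1)
        (Nat.beq (Nat.mod (j₁ + 3 * (N / 3 % 3 ^ 1)) 9) 8) = false := by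
      rw [Bool.eq_false_iff, Ne, Bool.or_eq_true, Nat.beq_eq, Nat.beq_eq]
      change ¬ ((j₁ + 3 * (N / 3 % 3 ^ 1)) % 9 = 1 ∨ (j₁ + 3 * (N / 3 % 3 ^ 1)) % 9 = 8)
      rw [h7]; exact hc
    rw [h10, cond_false] at h4
    have h11 := lhsVal_of h1 h5 hv h4
    have h12 : ¬ Congr W 3 k r 1 l := not_congr_of h11 (by rw [he]; exact_mod_cast hv)
    exact ⟨⟨fun h13 => absurd h13 h12, fun h13 => absurd (h8.1 h13) hc⟩, fun _ => h11⟩

theorem b3_4 {W : WeierstrassCurve ℤ} (hW : Applies W 3) :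
    (Congr W 3 4 1 1 3 ↔ CongZero 3 2 (jInv W - 1) ∨ CongZero 3 2 (jInv W + 1)) ∧
      (¬ Congr W 3 4 1 1 3 → LhsVal W 3 4 1 1 3 5) := by
  rcases cl3 hW with hj | hj
  · exact iff3 (B_3_4_1 hW hj) (by norm_num [expo]) (by norm_num) (by norm_num)
  · exact iff3 (B_3_4_2 hW hj) (by norm_num [expo]) (by norm_num) (by norm_num)

theorem b3_6 {W : WeierstrassCurve ℤ} (hW : Applies W 3) :
    (Congr W 3 6 1 1 6 ↔ CongZero 3 2 (jInv W - 1) ∨ CongZero 3 2 (jInv W + 1)) ∧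
      (¬ Congr W 3 6 1 1 6 → LhsVal W 3 6 1 1 6 19) := by
  rcases cl3 hW with hj | hj
  · exact iff3 (B_3_6_1 hW hj) (by norm_num [expo]) (by norm_num) (by norm_num)
  · exact iff3 (B_3_6_2 hW hj) (by norm_num [expo]) (by norm_num) (by norm_num)

lemma iff5 {W : WeierstrassCurve ℤ} {k l e v j₁ : ℕ}
    (ho : Out W 5 k 1 l e j₁ 1 (fun u y => bif or (Nat.beq (Nat.mod (j₁ + 5 * u) 25) 7)
      (or (Nat.beq (Nat.mod (j₁ + 5 * u) 25) 14) (Nat.beq (Nat.mod (j₁ + 5 * u) 25) 21)) then cZ 5 e y else cE 5 v y))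
    (he : expo k 1 l = e) (he2 : 2 ≤ e) (hv : v + 1 ≤ e) :
    (Congr W 5 k 1 1 l ↔ CongZero 5 2 (jInv W - 7) ∨ CongZero 5 2 (jInv W - 14) ∨ CongZero 5 2 (jInv W - 21)) ∧
      (¬ Congr W 5 k 1 1 l → LhsVal W 5 k 1 1 l v) := by
  obtain ⟨X, N, y, h1, h2, h3, h4, h5⟩ := ho
  have h8 : CongZero 5 2 (jInv W - 7) ∨ CongZero 5 2 (jInv W - 14) ∨ CongZero 5 2 (jInv W - 21) ↔
      N % 25 = 7 ∨ N % 25 = 14 ∨ N % 25 = 21 := by
    have h9 : CongZero 5 ((2 : ℕ) : ℤ) (jInv W - ((7 : ℤ) : ℚ)) ↔ CongZero 5 2 (jInv W - 7) := by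
      rw [Int.cast_ofNat]; rfl
    have h9' : CongZero 5 ((2 : ℕ) : ℤ) (jInv W - ((14 : ℤ) : ℚ)) ↔ CongZero 5 2 (jInv W - 14) := by
      rw [Int.cast_ofNat]; rfl
    have h9'' : CongZero 5 ((2 : ℕ) : ℤ) (jInv W - ((21 : ℤ) : ℚ)) ↔ CongZero 5 2 (jInv W - 21) := by
      rw [Int.cast_ofNat]; rfl
    rw [← h9, ← h9', ← h9'', h2 2 he2 7, h2 2 he2 14, h2 2 he2 21]
    push_cast
    omega
  have h7 : (j₁ + 5 * (N / 5 % 5 ^ 1)) % 25 = N % 25 := by omega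
  simp only at h4
  by_cases hc : N % 25 = 7 ∨ N % 25 = 14 ∨ N % 25 = 21
  · have h10 : or (Nat.beq (Nat.mod (j₁ + 5 * (N / 5 % 5 ^ 1)) 25) 7)
        (or (Nat.beq (Nat.mod (j₁ + 5 * (N / 5 % 5 ^ 1)) 25) 14)
          (Nat.beq (Nat.mod (j₁ + 5 * (N / 5 % 5 ^ 1)) 25) 21)) = true := by
      rw [Bool.or_eq_true, Bool.or_eq_true, Nat.beq_eq, Nat.beq_eq, Nat.beq_eq]
      change (j₁ + 5 * (N / 5 % 5 ^ 1)) % 25 = 7 ∨ (j₁ + 5 * (N / 5 % 5 ^ 1)) % 25 = 14 ∨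
        (j₁ + 5 * (N / 5 % 5 ^ 1)) % 25 = 21
      rw [h7]; exact hc
    rw [h10, cond_true] at h4
    have h11 := congr_of h1 h5 le_rfl he h4
    exact ⟨⟨fun _ => h8.2 hc, fun _ => h11⟩, fun h12 => absurd h11 h12⟩
  · have h10 : or (Nat.beq (Nat.mod (j₁ + 5 * (N / 5 % 5 ^ 1)) 25) 7)
        (or (Nat.beq (Nat.mod (j₁ + 5 * (N / 5 % 5 ^ 1)) 25) 14)
          (Nat.beq (Nat.mod (j₁ + 5 * (N / 5 % 5 ^ 1)) 25) 21)) = false := by
      rw [Bool.eq_false_iff, Ne, Bool.or_eq_true, Bool.or_eq_true, Nat.beq_eq, Nat.beq_eq, Nat.beq_eq]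
      change ¬ ((j₁ + 5 * (N / 5 % 5 ^ 1)) % 25 = 7 ∨ (j₁ + 5 * (N / 5 % 5 ^ 1)) % 25 = 14 ∨
        (j₁ + 5 * (N / 5 % 5 ^ 1)) % 25 = 21)
      rw [h7]; exact hc
    rw [h10, cond_false] at h4
    have h11 := lhsVal_of h1 h5 hv h4
    have h12 : ¬ Congr W 5 k 1 1 l := not_congr_of h11 (by rw [he]; exact_mod_cast hv)
    exact ⟨⟨fun h13 => absurd h13 h12, fun h13 => absurd (h8.1 h13) hc⟩, fun _ => h11⟩

theorem b5_6 {W : WeierstrassCurve ℤ} (hW : Applies W 5) :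
    (Congr W 5 6 1 1 5 ↔ CongZero 5 2 (jInv W - 7) ∨ CongZero 5 2 (jInv W - 14) ∨ CongZero 5 2 (jInv W - 21)) ∧
      (¬ Congr W 5 6 1 1 5 → LhsVal W 5 6 1 1 5 14) := by
  rcases cl5 hW with hj | hj | hj
  · exact iff5 (B_5_6_1 hW hj) (by norm_num [expo]) (by norm_num) (by norm_num)
  · exact iff5 (B_5_6_2 hW hj) (by norm_num [expo]) (by norm_num) (by norm_num)
  · exact iff5 (B_5_6_4 hW hj) (by norm_num [expo]) (by norm_num) (by norm_num)

/-! ### poles of order two -/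

theorem e2 {W : WeierstrassCurve ℤ} (hW : Applies W 2) :
    (Congr W 2 10 2 1 8 ↔ CongZero 2 2 (jInv W - 1)) ∧ (Congr W 2 14 2 1 12 ↔ CongZero 2 2 (jInv W - 1)) :=
  ⟨(iff2 (by norm_num) (E_2_10 hW (cl2 hW)) (by norm_num [expo]) (by norm_num) (by norm_num)).1,
    (iff2 (by norm_num) (E_2_14 hW (cl2 hW)) (by norm_num [expo]) (by norm_num) (by norm_num)).1⟩

theorem e3 {W : WeierstrassCurve ℤ} (hW : Applies W 3) :
    (Congr W 3 6 2 1 4 ↔ CongZero 3 2 (jInv W - 1) ∨ CongZero 3 2 (jInv W + 1)) ∧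
      (Congr W 3 8 2 1 6 ↔ CongZero 3 2 (jInv W - 1) ∨ CongZero 3 2 (jInv W + 1)) := by
  rcases cl3 hW with hj | hj
  · exact ⟨(iff3 (E_3_6_1 hW hj) (by norm_num [expo]) (by norm_num) (by norm_num)).1,
      (iff3 (E_3_8_1 hW hj) (by norm_num [expo]) (by norm_num) (by norm_num)).1⟩
  · exact ⟨(iff3 (E_3_6_2 hW hj) (by norm_num [expo]) (by norm_num) (by norm_num)).1,
      (iff3 (E_3_8_2 hW hj) (by norm_num [expo]) (by norm_num) (by norm_num)).1⟩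

/-! ### poles of order at least three -/

lemma not_cong_of_ndvd {p : ℕ} {W : WeierstrassCurve ℤ} {k r l : ℕ} {X : ℚ} {y : ℕ} {e : ℕ}
    (hX : ∀ y', IsLhs W p k r 1 l y' ↔ y' = X) (h : ∀ m : ℕ, m ≤ e → (CongZero p m X ↔ p ^ m ∣ y))
    (hexp : expo k r l = e) (hc : not (cZ p e y) = true) : ¬ Congr W p k r 1 l := by
  intro h1
  have h2 := h1 X ((hX X).2 rfl)
  rw [hexp] at h2
  have h3 := (h e le_rfl).1 h2
  rw [Bool.not_eq_true', Bool.eq_false_iff] at hc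
  apply hc
  change Nat.beq (y % p ^ e) 0 = true
  rw [Nat.beq_eq]
  exact Nat.mod_eq_zero_of_dvd h3

lemma out_not {W : WeierstrassCurve ℤ} {p k r l e j₁ h : ℕ}
    (ho : Out W p k r l e j₁ h (fun _ y => not (cZ p e y))) (hexp : expo k r l = e) : ¬ Congr W p k r 1 l := by
  obtain ⟨X, N, y, h1, _, _, h4, h5⟩ := ho
  exact not_cong_of_ndvd h1 h5 hexp h4

theorem d2_10_4 {W : WeierstrassCurve ℤ} (hW : Applies W 2) : ¬ Congr W 2 10 4 1 8 ∨ ¬ Congr W 2 10 4 1 9 := by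
  by_cases hc : CongZero 2 2 (jInv W - 1)
  · left
    obtain ⟨X, N, y, h1, h2, h3, h4, h5⟩ := D_2_10_4a hW (cl2 hW)
    have h6 := (cong4 (by norm_num) h3 h2).1 hc
    have h7 : N / 2 % 2 ^ 4 % 2 = N / 2 % 2 := Nat.mod_mod_of_dvd _ (dvd_pow_self 2 (by omega))
    simp only at h4
    have h10 : Nat.beq (Nat.mod (N / 2 % 2 ^ 4) 2) 0 = true := by
      rw [Nat.beq_eq]
      change N / 2 % 2 ^ 4 % 2 = 0
      rw [h7]; exact h6
    rw [h10, Bool.not_true, Bool.false_or] at h4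
    exact not_cong_of_ndvd h1 h5 (by norm_num [expo]) h4
  · right
    obtain ⟨X, N, y, h1, h2, h3, h4, h5⟩ := D_2_10_4b hW (cl2 hW)
    have h6 : ¬ N / 2 % 2 = 0 := fun h => hc ((cong4 (by norm_num) h3 h2).2 h)
    have h7 : N / 2 % 2 ^ 5 % 2 = N / 2 % 2 := Nat.mod_mod_of_dvd _ (dvd_pow_self 2 (by omega))
    simp only at h4
    have h10 : Nat.beq (Nat.mod (N / 2 % 2 ^ 5) 2) 0 = false := by
      rw [Bool.eq_false_iff, Ne, Nat.beq_eq]
      change ¬ N / 2 % 2 ^ 5 % 2 = 0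
      rw [h7]; exact h6
    rw [h10, Bool.false_or] at h4
    exact not_cong_of_ndvd h1 h5 (by norm_num [expo]) h4

theorem ge3 {W : WeierstrassCurve ℤ} (hW : Applies W 2) {k : ℕ} (hk : k ∈ ({4, 6, 8, 10, 14} : Finset ℕ)) {r : ℕ}
    (hr : 3 ≤ r) (hr' : r ≤ k - 1) : ∃ l, 1 ≤ l ∧ l ≤ k - 1 ∧ ¬ Congr W 2 k r 1 l := by
  have hj := cl2 hW
  have h0 := all2 hW
  simp only [Finset.mem_insert, Finset.mem_singleton] at hk
  rcases hk with rfl | rfl | rfl | rfl | rfl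
  · have : r = 3 := by omega
    subst this
    exact ⟨2, by norm_num, by norm_num, not_congr_of h0.1 (by norm_num [expo])⟩
  · have : r = 3 ∨ r = 4 ∨ r = 5 := by omega
    rcases this with rfl | rfl | rfl
    · exact ⟨4, by norm_num, by norm_num, out_not (D_2_6_3 hW hj) (by norm_num [expo])⟩
    · exact ⟨4, by norm_num, by norm_num, out_not (D_2_6_4 hW hj) (by norm_num [expo])⟩
    · exact ⟨4, by norm_num, by norm_num, not_congr_of h0.2.1 (by norm_num [expo])⟩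
  · have : r = 3 ∨ r = 4 ∨ r = 5 ∨ r = 6 ∨ r = 7 := by omega
    rcases this with rfl | rfl | rfl | rfl | rfl
    · exact ⟨6, by norm_num, by norm_num, out_not (D_2_8_3 hW hj) (by norm_num [expo])⟩
    · exact ⟨6, by norm_num, by norm_num, out_not (D_2_8_4 hW hj) (by norm_num [expo])⟩
    · exact ⟨6, by norm_num, by norm_num, out_not (D_2_8_5 hW hj) (by norm_num [expo])⟩
    · exact ⟨6, by norm_num, by norm_num, out_not (D_2_8_6 hW hj) (by norm_num [expo])⟩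
    · exact ⟨6, by norm_num, by norm_num, not_congr_of h0.2.2.1 (by norm_num [expo])⟩
  · have : r = 3 ∨ r = 4 ∨ r = 5 ∨ r = 6 ∨ r = 7 ∨ r = 8 ∨ r = 9 := by omega
    rcases this with rfl | rfl | rfl | rfl | rfl | rfl | rfl
    · exact ⟨8, by norm_num, by norm_num, out_not (D_2_10_3 hW hj) (by norm_num [expo])⟩
    · rcases d2_10_4 hW with h | h
      · exact ⟨8, by norm_num, by norm_num, h⟩
      · exact ⟨9, by norm_num, by norm_num, h⟩
    · exact ⟨8, by norm_num, by norm_num, out_not (D_2_10_5 hW hj) (by norm_num [expo])⟩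
    · exact ⟨8, by norm_num, by norm_num, out_not (D_2_10_6 hW hj) (by norm_num [expo])⟩
    · exact ⟨8, by norm_num, by norm_num, out_not (D_2_10_7 hW hj) (by norm_num [expo])⟩
    · exact ⟨8, by norm_num, by norm_num, out_not (D_2_10_8 hW hj) (by norm_num [expo])⟩
    · exact ⟨8, by norm_num, by norm_num, not_congr_of h0.2.2.2.1 (by norm_num [expo])⟩
  · have : r = 3 ∨ r = 4 ∨ r = 5 ∨ r = 6 ∨ r = 7 ∨ r = 8 ∨ r = 9 ∨ r = 10 ∨ r = 11 ∨ r = 12 ∨ r = 13 := by omega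
    rcases this with rfl | rfl | rfl | rfl | rfl | rfl | rfl | rfl | rfl | rfl | rfl
    · exact ⟨12, by norm_num, by norm_num, out_not (D_2_14_3 hW hj) (by norm_num [expo])⟩
    · exact ⟨12, by norm_num, by norm_num, out_not (D_2_14_4 hW hj) (by norm_num [expo])⟩
    · exact ⟨12, by norm_num, by norm_num, out_not (D_2_14_5 hW hj) (by norm_num [expo])⟩
    · exact ⟨11, by norm_num, by norm_num, out_not (D_2_14_6 hW hj) (by norm_num [expo])⟩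
    · exact ⟨12, by norm_num, by norm_num, out_not (D_2_14_7 hW hj) (by norm_num [expo])⟩
    · exact ⟨12, by norm_num, by norm_num, out_not (D_2_14_8 hW hj) (by norm_num [expo])⟩
    · exact ⟨12, by norm_num, by norm_num, out_not (D_2_14_9 hW hj) (by norm_num [expo])⟩
    · exact ⟨12, by norm_num, by norm_num, out_not (D_2_14_10 hW hj) (by norm_num [expo])⟩
    · exact ⟨12, by norm_num, by norm_num, out_not (D_2_14_11 hW hj) (by norm_num [expo])⟩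
    · exact ⟨12, by norm_num, by norm_num, out_not (D_2_14_12 hW hj) (by norm_num [expo])⟩
    · exact ⟨12, by norm_num, by norm_num, not_congr_of h0.2.2.2.2 (by norm_num [expo])⟩

end Pool.Agent.KS6_3.Asd
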