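import Pool.Agent.KS6_3.Asd.Tab

/-! Tables of coefficients, checked in the kernel. -/

set_option autoImplicit false
set_option maxRecDepth 100000

namespace Pool.Agent.KS6_3.Asd

/-- coefficients at the powers of `5` of `E_6 / (j - 1)^i`, `i = 1, 2, …`, modulo `5 ^ 15` -/
def tab_5_6_1 : List (List ℕ) := [
  [1, 21263646756, 30136065816, 5484472201, 18934551686, 5643397646],
  [0, 29099963009, 13036525879, 10553243169, 23727444509, 2570536249],
  [0, 3828426, 13247252646, 24435908781, 24957154816, 10434055701],
  [0, 30517574649, 19908280309, 6511032574, 30323884464, 21707593754],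
  [0, 1, 18777218256, 23633201066, 28066303701, 26693645061],
  [0, 0, 22351380324, 17250367119, 19206024434, 11702144924],
  [0, 0, 10395561206, 5026525286, 2762954021, 19145317956],
  [0, 0, 29301649644, 16761507614, 24418261379, 9876120819],
  [0, 0, 8528461401, 3759540381, 1475656066, 8851434951],
  [0, 0, 1250373259, 23624423004, 2430495919, 29484031009],
  [0, 0, 25190880836, 10661764556, 10768730041, 3446104676],
  [0, 0, 10676920134, 24663003489, 25763832954, 21094907144],
  [0, 0, 19144526441, 1893061611, 15412358646, 13241382956],
  [0, 0, 13904486364, 21088030719, 3027959484, 27152415724],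
  [0, 0, 7178785051, 20407406771, 12464829156, 12841566441]]

/-- coefficients at the powers of `5` of `E_6 / (j - 2)^i`, `i = 1, 2, …`, modulo `5 ^ 15` -/
def tab_5_6_2 : List (List ℕ) := [
  [1, 19849856591, 28797585216, 1033967291, 13376937741, 10341346941],
  [0, 29107609437, 27247550602, 7626661052, 16981045077, 5625834977],
  [0, 3818004, 23346933439, 22853202814, 14149846739, 22640018539],
  [0, 30517574653, 21180415813, 11895043738, 24032024588, 1231829563],
  [0, 1, 29071984726, 3629950551, 22936449251, 5138586076],
  [0, 0, 29991583882, 18038831997, 9113827947, 19720078472],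
  [0, 0, 435585304, 131725409, 28736450309, 8865655609],
  [0, 0, 28881936978, 3843991613, 16275403288, 30083800388],
  [0, 0, 1148698951, 21665459071, 10745851546, 23656577871],
  [0, 0, 481331227, 3617744367, 5689782317, 2710014967],
  [0, 0, 20820703609, 11241887969, 6735316844, 5421779269],
  [0, 0, 15379781523, 25546432593, 25798555218, 2387896693],
  [0, 0, 15623340636, 3738293801, 7322488801, 8822997876],
  [0, 0, 1279753637, 10355682092, 27164336342, 12289933117],
  [0, 0, 7665397649, 23743773609, 26144266234, 20698083534]]

/-- coefficients at the powers of `5` of `E_6 / (j - 4)^i`, `i = 1, 2, …`, modulo `5 ^ 15` -/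
def tab_5_6_4 : List (List ℕ) := [
  [1, 17045163471, 19849976551, 17153772831, 10590362136, 25908653716],
  [0, 29122839821, 21149733381, 30303447336, 2969409416, 20194251271],
  [0, 3797196, 1113070506, 28954531961, 2119685916, 27796244646],
  [0, 30517574661, 16609072426, 21191890631, 1454749186, 29614941016],
  [0, 1, 21115779016, 26313489546, 19376329301, 11215515206],
  [0, 0, 8244886321, 24090798256, 18988106586, 2465227416],
  [0, 0, 1097608076, 5598675811, 12578137791, 25864648521],
  [0, 0, 10565171176, 3695739036, 27513558391, 15247833996],
  [0, 0, 2329204446, 24265858506, 25709966211, 15820975791],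
  [0, 0, 10499435561, 18740329896, 29715628426, 4193190706],
  [0, 0, 2713340591, 8879771501, 15105022806, 5523033361],
  [0, 0, 25804865121, 9281111156, 2402702611, 21377003566],
  [0, 0, 21768668071, 6464110481, 1834092936, 19041941141],
  [0, 0, 23836730041, 19178126351, 17932603281, 1959813086],
  [0, 0, 15365230431, 6083866391, 18336996146, 4717284401]]

theorem chk_5_6 : chk 164 3126 30517578125 84 633825300114114 55 12 47 117 5 30517577621 5 [(1, tab_5_6_1), (2, tab_5_6_2), (4, tab_5_6_4)] = true := by
  decide +kernel

theorem ok_5_6 : Ok 164 3126 30517578125 84 633825300114114 := by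
  constructor <;> decide +kernel

theorem okk_5_6 : Ok2 164 3126 30517578125 84 55 12 47 117 := by
  constructor <;> decide +kernel

end Pool.Agent.KS6_3.Asd
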