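import Pool.Agent.KS6_3.Asd.Padic
import Pool.Agent.KS6_3.Asd.TabA
import Pool.Agent.KS6_3.Asd.TabB
import Pool.Agent.KS6_3.Asd.TabC
import Pool.Agent.KS6_3.Asd.TabD
import Pool.Agent.KS6_3.Asd.TabE

/-!
The left sides of the congruences for the individual parameters.
-/

set_option autoImplicit false
set_option maxRecDepth 100000

namespace Pool.Agent.KS6_3.Asd

open Finset

lemma hc_of {M c0 : ℕ} {c : ℤ} (h : (c0 : ℤ) % (M : ℤ) = c % (M : ℤ)) : ((c0 : ℕ) : ZMod M) = (c : ZMod M) := by
  have h2 := (ZMod.intCast_eq_intCast_iff _ _ M).2 h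
  exact_mod_cast h2

/-- the valuation is exactly `v` -/
def cE (p v y : ℕ) : Bool := and (Nat.beq (Nat.mod y (Nat.pow p v)) 0) (not (Nat.beq (Nat.mod y (Nat.pow p (Nat.succ v))) 0))

/-- the valuation is at least `e` -/
def cZ (p e y : ℕ) : Bool := Nat.beq (Nat.mod y (Nat.pow p e)) 0

lemma isTab_2_4_1 : IsTab 2 6 3 (ck 4) 1 3 tab_2_4_1 :=
  isTab_of_chk (M := 64) (by norm_num) ok_2_4 okk_2_4 _
    (hc_of (by decide +kernel)) chk_2_4 (by simp) (by decide +kernel)

lemma isTab_2_6_1 : IsTab 2 15 5 (ck 6) 1 5 tab_2_6_1 :=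
  isTab_of_chk (M := 32768) (by norm_num) ok_2_6 okk_2_6 _
    (hc_of (by decide +kernel)) chk_2_6 (by simp) (by decide +kernel)

lemma isTab_2_8_1 : IsTab 2 28 7 (ck 8) 1 7 tab_2_8_1 :=
  isTab_of_chk (M := 268435456) (by norm_num) ok_2_8 okk_2_8 _
    (hc_of (by decide +kernel)) chk_2_8 (by simp) (by decide +kernel)

lemma isTab_2_10_1 : IsTab 2 45 9 (ck 10) 1 9 tab_2_10_1 :=
  isTab_of_chk (M := 35184372088832) (by norm_num) ok_2_10 okk_2_10 _
    (hc_of (by decide +kernel)) chk_2_10 (by simp) (by decide +kernel)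

lemma isTab_2_14_1 : IsTab 2 91 13 (ck 14) 1 13 tab_2_14_1 :=
  isTab_of_chk (M := 2475880078570760549798248448) (by norm_num) ok_2_14 okk_2_14 _
    (hc_of (by decide +kernel)) chk_2_14 (by simp) (by decide +kernel)

lemma isTab_3_4_1 : IsTab 3 6 3 (ck 4) 1 3 tab_3_4_1 :=
  isTab_of_chk (M := 729) (by norm_num) ok_3_4 okk_3_4 _
    (hc_of (by decide +kernel)) chk_3_4 (by simp) (by decide +kernel)

lemma isTab_3_4_2 : IsTab 3 6 3 (ck 4) 2 3 tab_3_4_2 :=
  isTab_of_chk (M := 729) (by norm_num) ok_3_4 okk_3_4 _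
    (hc_of (by decide +kernel)) chk_3_4 (by simp) (by decide +kernel)

lemma isTab_3_6_1 : IsTab 3 20 5 (ck 6) 1 6 tab_3_6_1 :=
  isTab_of_chk (M := 3486784401) (by norm_num) ok_3_6 okk_3_6 _
    (hc_of (by decide +kernel)) chk_3_6 (by simp) (by decide +kernel)

lemma isTab_3_6_2 : IsTab 3 20 5 (ck 6) 2 6 tab_3_6_2 :=
  isTab_of_chk (M := 3486784401) (by norm_num) ok_3_6 okk_3_6 _
    (hc_of (by decide +kernel)) chk_3_6 (by simp) (by decide +kernel)

lemma isTab_3_8_1 : IsTab 3 20 7 (ck 8) 1 6 tab_3_8_1 :=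
  isTab_of_chk (M := 3486784401) (by norm_num) ok_3_8 okk_3_8 _
    (hc_of (by decide +kernel)) chk_3_8 (by simp) (by decide +kernel)

lemma isTab_3_8_2 : IsTab 3 20 7 (ck 8) 2 6 tab_3_8_2 :=
  isTab_of_chk (M := 3486784401) (by norm_num) ok_3_8 okk_3_8 _
    (hc_of (by decide +kernel)) chk_3_8 (by simp) (by decide +kernel)

lemma isTab_3_10_1 : IsTab 3 27 9 (ck 10) 1 8 tab_3_10_1 :=
  isTab_of_chk (M := 7625597484987) (by norm_num) ok_3_10 okk_3_10 _
    (hc_of (by decide +kernel)) chk_3_10 (by simp) (by decide +kernel)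

lemma isTab_3_10_2 : IsTab 3 27 9 (ck 10) 2 8 tab_3_10_2 :=
  isTab_of_chk (M := 7625597484987) (by norm_num) ok_3_10 okk_3_10 _
    (hc_of (by decide +kernel)) chk_3_10 (by simp) (by decide +kernel)

lemma isTab_5_6_1 : IsTab 5 15 5 (ck 6) 1 5 tab_5_6_1 :=
  isTab_of_chk (M := 30517578125) (by norm_num) ok_5_6 okk_5_6 _
    (hc_of (by decide +kernel)) chk_5_6 (by simp) (by decide +kernel)

lemma isTab_5_6_2 : IsTab 5 15 5 (ck 6) 2 5 tab_5_6_2 :=
  isTab_of_chk (M := 30517578125) (by norm_num) ok_5_6 okk_5_6 _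
    (hc_of (by decide +kernel)) chk_5_6 (by simp) (by decide +kernel)

lemma isTab_5_6_4 : IsTab 5 15 5 (ck 6) 4 5 tab_5_6_4 :=
  isTab_of_chk (M := 30517578125) (by norm_num) ok_5_6 okk_5_6 _
    (hc_of (by decide +kernel)) chk_5_6 (by simp) (by decide +kernel)

lemma isTab_5_8_1 : IsTab 5 15 7 (ck 8) 1 6 tab_5_8_1 :=
  isTab_of_chk (M := 30517578125) (by norm_num) ok_5_8 okk_5_8 _
    (hc_of (by decide +kernel)) chk_5_8 (by simp) (by decide +kernel)

lemma isTab_5_8_2 : IsTab 5 15 7 (ck 8) 2 6 tab_5_8_2 :=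
  isTab_of_chk (M := 30517578125) (by norm_num) ok_5_8 okk_5_8 _
    (hc_of (by decide +kernel)) chk_5_8 (by simp) (by decide +kernel)

lemma isTab_5_8_4 : IsTab 5 15 7 (ck 8) 4 6 tab_5_8_4 :=
  isTab_of_chk (M := 30517578125) (by norm_num) ok_5_8 okk_5_8 _
    (hc_of (by decide +kernel)) chk_5_8 (by simp) (by decide +kernel)

lemma A_2_4 [Fact (Nat.Prime 2)] {W : WeierstrassCurve ℤ} (hW : Applies W 2) (hj : CongZero 2 1 (jInv W - (1 : ℕ))) :
    Out W 2 4 3 2 1 1 0 (fun _ y => cE 2 0 y) :=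
  main (p := 2) (k := 4) (r := 2) (l := 2) (m := 1) (a := 1) (e := 6) (e' := 1) (h := 0) (lm := 3)
    (cs := [1, 1, 0])
    hW (by decide) (by norm_num) chkAp_2_1 hj (by norm_num) isTab_2_4_1 (by norm_num) (by norm_num)
    (by norm_num) (by norm_num) (by decide) (by decide) (by decide) (by decide) (by decide) (by decide +kernel)
    (by decide +kernel)

lemma B_2_4 [Fact (Nat.Prime 2)] {W : WeierstrassCurve ℤ} (hW : Applies W 2) (hj : CongZero 2 1 (jInv W - (1 : ℕ))) :
    Out W 2 4 1 3 6 1 2 (fun u y => bif Nat.beq (Nat.mod u 2) 0 then cZ 2 6 y else cE 2 4 y) :=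
  main (p := 2) (k := 4) (r := 0) (l := 3) (m := 1) (a := 1) (e := 6) (e' := 6) (h := 2) (lm := 3)
    (cs := [1, 1, 62, 56])
    hW (by decide) (by norm_num) chkAp_2_1 hj (by norm_num) isTab_2_4_1 (by norm_num) (by norm_num)
    (by norm_num) (by norm_num) (by decide) (by decide) (by decide) (by decide) (by decide) (by decide +kernel)
    (by decide +kernel)

lemma A_2_6 [Fact (Nat.Prime 2)] {W : WeierstrassCurve ℤ} (hW : Applies W 2) (hj : CongZero 2 1 (jInv W - (1 : ℕ))) :
    Out W 2 6 5 4 4 1 0 (fun _ y => cE 2 3 y) :=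
  main (p := 2) (k := 6) (r := 4) (l := 4) (m := 2) (a := 1) (e := 15) (e' := 4) (h := 0) (lm := 5)
    (cs := [1, 1, 6, 8, 0])
    hW (by decide) (by norm_num) chkAp_2_1 hj (by norm_num) isTab_2_6_1 (by norm_num) (by norm_num)
    (by norm_num) (by norm_num) (by decide) (by decide) (by decide) (by decide) (by decide) (by decide +kernel)
    (by decide +kernel)

lemma B_2_6 [Fact (Nat.Prime 2)] {W : WeierstrassCurve ℤ} (hW : Applies W 2) (hj : CongZero 2 1 (jInv W - (1 : ℕ))) :
    Out W 2 6 1 5 15 1 4 (fun u y => bif Nat.beq (Nat.mod u 2) 0 then cZ 2 15 y else cE 2 11 y) :=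
  main (p := 2) (k := 6) (r := 0) (l := 5) (m := 2) (a := 1) (e := 15) (e' := 15) (h := 4) (lm := 5)
    (cs := [1, 1, 6, 32744, 32704, 31744])
    hW (by decide) (by norm_num) chkAp_2_1 hj (by norm_num) isTab_2_6_1 (by norm_num) (by norm_num)
    (by norm_num) (by norm_num) (by decide) (by decide) (by decide) (by decide) (by decide) (by decide +kernel)
    (by decide +kernel)

lemma A_2_8 [Fact (Nat.Prime 2)] {W : WeierstrassCurve ℤ} (hW : Applies W 2) (hj : CongZero 2 1 (jInv W - (1 : ℕ))) :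
    Out W 2 8 7 6 12 1 0 (fun _ y => cE 2 11 y) :=
  main (p := 2) (k := 8) (r := 6) (l := 6) (m := 3) (a := 1) (e := 28) (e' := 12) (h := 0) (lm := 7)
    (cs := [1, 4089, 70, 3816, 2240, 1024, 0])
    hW (by decide) (by norm_num) chkAp_2_1 hj (by norm_num) isTab_2_8_1 (by norm_num) (by norm_num)
    (by norm_num) (by norm_num) (by decide) (by decide) (by decide) (by decide) (by decide) (by decide +kernel)
    (by decide +kernel)

lemma B_2_8 [Fact (Nat.Prime 2)] {W : WeierstrassCurve ℤ} (hW : Applies W 2) (hj : CongZero 2 1 (jInv W - (1 : ℕ))) :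
    Out W 2 8 1 7 28 1 6 (fun u y => bif Nat.beq (Nat.mod u 2) 0 then cZ 2 28 y else cE 2 22 y) :=
  main (p := 2) (k := 8) (r := 0) (l := 7) (m := 3) (a := 1) (e := 28) (e' := 28) (h := 6) (lm := 7)
    (cs := [1, 268435449, 70, 268435176, 2240, 268399616, 229376, 266338304])
    hW (by decide) (by norm_num) chkAp_2_1 hj (by norm_num) isTab_2_8_1 (by norm_num) (by norm_num)
    (by norm_num) (by norm_num) (by decide) (by decide) (by decide) (by decide) (by decide) (by decide +kernel)
    (by decide +kernel)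

lemma A_2_10 [Fact (Nat.Prime 2)] {W : WeierstrassCurve ℤ} (hW : Applies W 2) (hj : CongZero 2 1 (jInv W - (1 : ℕ))) :
    Out W 2 10 9 8 22 1 0 (fun _ y => cE 2 21 y) :=
  main (p := 2) (k := 10) (r := 8) (l := 8) (m := 4) (a := 1) (e := 45) (e' := 22) (h := 0) (lm := 9)
    (cs := [1, 17, 102, 2856, 38080, 3585024, 884736, 2097152, 0])
    hW (by decide) (by norm_num) chkAp_2_1 hj (by norm_num) isTab_2_10_1 (by norm_num) (by norm_num)
    (by norm_num) (by norm_num) (by decide) (by decide) (by decide) (by decide) (by decide) (by decide +kernel)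
    (by decide +kernel)

lemma B_2_10 [Fact (Nat.Prime 2)] {W : WeierstrassCurve ℤ} (hW : Applies W 2) (hj : CongZero 2 1 (jInv W - (1 : ℕ))) :
    Out W 2 10 1 9 45 1 8 (fun u y => bif Nat.beq (Nat.mod u 2) 0 then cZ 2 45 y else cE 2 37 y) :=
  main (p := 2) (k := 10) (r := 0) (l := 9) (m := 4) (a := 1) (e := 45) (e' := 45) (h := 8) (lm := 9)
    (cs := [1, 17, 102, 2856, 38080, 35184371479552, 35184360390656, 35184265134080, 35179808686080, 35115652612096])
    hW (by decide) (by norm_num) chkAp_2_1 hj (by norm_num) isTab_2_10_1 (by norm_num) (by norm_num)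
    (by norm_num) (by norm_num) (by decide) (by decide) (by decide) (by decide) (by decide) (by decide +kernel)
    (by decide +kernel)

lemma A_2_14 [Fact (Nat.Prime 2)] {W : WeierstrassCurve ℤ} (hW : Applies W 2) (hj : CongZero 2 1 (jInv W - (1 : ℕ))) :
    Out W 2 14 13 12 57 1 0 (fun _ y => cE 2 56 y) :=
  main (p := 2) (k := 14) (r := 12) (l := 12) (m := 6) (a := 1) (e := 91) (e' := 57) (h := 0) (lm := 13)
    (cs := [1, 1, 144115188075855782, 144115188075847592, 242880, 144115188009792512, 144115186807439360, 81178656768, 17318113443840, 143854397661642752, 36415825111941120, 36028797018963968, 0])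
    hW (by decide) (by norm_num) chkAp_2_1 hj (by norm_num) isTab_2_14_1 (by norm_num) (by norm_num)
    (by norm_num) (by norm_num) (by decide) (by decide) (by decide) (by decide) (by decide) (by decide +kernel)
    (by decide +kernel)

lemma B_2_14 [Fact (Nat.Prime 2)] {W : WeierstrassCurve ℤ} (hW : Applies W 2) (hj : CongZero 2 1 (jInv W - (1 : ℕ))) :
    Out W 2 14 1 13 91 1 12 (fun u y => bif Nat.beq (Nat.mod u 2) 0 then cZ 2 91 y else cE 2 79 y) :=
  main (p := 2) (k := 14) (r := 0) (l := 13) (m := 6) (a := 1) (e := 91) (e' := 91) (h := 12) (lm := 13)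
    (cs := [1, 1, 2475880078570760549798248358, 2475880078570760549798240168, 242880, 2475880078570760549732185088, 2475880078570760548529831936, 81178656768, 17318113443840, 2475880078570499759384035328, 36415825111941120, 1621295865853378560, 2475880004783784254960041984, 2475577847115856892504571904])
    hW (by decide) (by norm_num) chkAp_2_1 hj (by norm_num) isTab_2_14_1 (by norm_num) (by norm_num)
    (by norm_num) (by norm_num) (by decide) (by decide) (by decide) (by decide) (by decide) (by decide +kernel)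
    (by decide +kernel)

lemma C_2_14 [Fact (Nat.Prime 2)] {W : WeierstrassCurve ℤ} (hW : Applies W 2) (hj : CongZero 2 1 (jInv W - (1 : ℕ))) :
    Out W 2 14 11 13 81 1 9 (fun _ y => or (cE 2 75 y) (or (cE 2 78 y) (cE 2 80 y))) :=
  main (p := 2) (k := 14) (r := 10) (l := 13) (m := 6) (a := 1) (e := 91) (e' := 81) (h := 9) (lm := 13)
    (cs := [1, 1, 2417851639229258349412262, 2417851639229258349404072, 242880, 2417851639229258283348992, 2417851639229257080995840, 81178656768, 17318113443840, 2417851638968467935199232, 36415825111941120, 1621295865853378560, 2417777852252963511205888, 2115620184325601055735808])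
    hW (by decide) (by norm_num) chkAp_2_1 hj (by norm_num) isTab_2_14_1 (by norm_num) (by norm_num)
    (by norm_num) (by norm_num) (by decide) (by decide) (by decide) (by decide) (by decide) (by decide +kernel)
    (by decide +kernel)

lemma A_3_6_1 [Fact (Nat.Prime 3)] {W : WeierstrassCurve ℤ} (hW : Applies W 3) (hj : CongZero 3 1 (jInv W - (1 : ℕ))) :
    Out W 3 6 5 4 6 1 0 (fun _ y => cE 3 5 y) :=
  main (p := 3) (k := 6) (r := 4) (l := 4) (m := 2) (a := 1) (e := 20) (e' := 6) (h := 0) (lm := 6)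
    (cs := [1, 728, 714, 135, 0])
    hW (by decide) (by norm_num) chkAp_3_1 hj (by norm_num) isTab_3_6_1 (by norm_num) (by norm_num)
    (by norm_num) (by norm_num) (by decide) (by decide) (by decide) (by decide) (by decide) (by decide +kernel)
    (by decide +kernel)

lemma A_3_6_2 [Fact (Nat.Prime 3)] {W : WeierstrassCurve ℤ} (hW : Applies W 3) (hj : CongZero 3 1 (jInv W - (2 : ℕ))) :
    Out W 3 6 5 4 6 2 0 (fun _ y => cE 3 5 y) :=
  main (p := 3) (k := 6) (r := 4) (l := 4) (m := 2) (a := 2) (e := 20) (e' := 6) (h := 0) (lm := 6)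
    (cs := [1, 11, 66, 135, 0])
    hW (by decide) (by norm_num) chkAp_3_2 hj (by norm_num) isTab_3_6_2 (by norm_num) (by norm_num)
    (by norm_num) (by norm_num) (by decide) (by decide) (by decide) (by decide) (by decide) (by decide +kernel)
    (by decide +kernel)

lemma A_3_8_1 [Fact (Nat.Prime 3)] {W : WeierstrassCurve ℤ} (hW : Applies W 3) (hj : CongZero 3 1 (jInv W - (1 : ℕ))) :
    Out W 3 8 7 6 14 1 0 (fun _ y => cE 3 13 y) :=
  main (p := 3) (k := 8) (r := 6) (l := 6) (m := 3) (a := 1) (e := 20) (e' := 14) (h := 0) (lm := 6)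
    (cs := [1, 4782956, 624, 2808, 4707153, 2066715, 0])
    hW (by decide) (by norm_num) chkAp_3_1 hj (by norm_num) isTab_3_8_1 (by norm_num) (by norm_num)
    (by norm_num) (by norm_num) (by decide) (by decide) (by decide) (by decide) (by decide) (by decide +kernel)
    (by decide +kernel)

lemma A_3_8_2 [Fact (Nat.Prime 3)] {W : WeierstrassCurve ℤ} (hW : Applies W 3) (hj : CongZero 3 1 (jInv W - (2 : ℕ))) :
    Out W 3 8 7 6 14 2 0 (fun _ y => cE 3 13 y) :=
  main (p := 3) (k := 8) (r := 6) (l := 6) (m := 3) (a := 2) (e := 20) (e' := 14) (h := 0) (lm := 6)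
    (cs := [1, 4782956, 4782774, 4763664, 521235, 3838185, 0])
    hW (by decide) (by norm_num) chkAp_3_2 hj (by norm_num) isTab_3_8_2 (by norm_num) (by norm_num)
    (by norm_num) (by norm_num) (by decide) (by decide) (by decide) (by decide) (by decide) (by decide +kernel)
    (by decide +kernel)

lemma A_3_10_1 [Fact (Nat.Prime 3)] {W : WeierstrassCurve ℤ} (hW : Applies W 3) (hj : CongZero 3 1 (jInv W - (1 : ℕ))) :
    Out W 3 10 9 8 27 1 0 (fun _ y => cE 3 26 y) :=
  main (p := 3) (k := 10) (r := 8) (l := 8) (m := 4) (a := 1) (e := 27) (e' := 27) (h := 0) (lm := 8)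
    (cs := [1, 74, 7770, 454545, 39272688, 7622416397259, 7384033635642, 3410075144178, 0])
    hW (by decide) (by norm_num) chkAp_3_1 hj (by norm_num) isTab_3_10_1 (by norm_num) (by norm_num)
    (by norm_num) (by norm_num) (by decide) (by decide) (by decide) (by decide) (by decide) (by decide +kernel)
    (by decide +kernel)

lemma A_3_10_2 [Fact (Nat.Prime 3)] {W : WeierstrassCurve ℤ} (hW : Applies W 3) (hj : CongZero 3 1 (jInv W - (2 : ℕ))) :
    Out W 3 10 9 8 27 2 0 (fun _ y => cE 3 26 y) :=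
  main (p := 3) (k := 10) (r := 8) (l := 8) (m := 4) (a := 2) (e := 27) (e' := 27) (h := 0) (lm := 8)
    (cs := [1, 7625597484914, 6132, 7625596767543, 48427470, 7621674859917, 381279156804, 1495830508029, 0])
    hW (by decide) (by norm_num) chkAp_3_2 hj (by norm_num) isTab_3_10_2 (by norm_num) (by norm_num)
    (by norm_num) (by norm_num) (by decide) (by decide) (by decide) (by decide) (by decide) (by decide +kernel)
    (by decide +kernel)

lemma B_3_4_1 [Fact (Nat.Prime 3)] {W : WeierstrassCurve ℤ} (hW : Applies W 3) (hj : CongZero 3 1 (jInv W - (1 : ℕ))) :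
    Out W 3 4 1 3 6 1 1 (fun u y => bif or (Nat.beq (Nat.mod (1 + 3 * u) 9) 1) (Nat.beq (Nat.mod (1 + 3 * u) 9) 8) then cZ 3 6 y else cE 3 5 y) :=
  main (p := 3) (k := 4) (r := 0) (l := 3) (m := 1) (a := 1) (e := 6) (e' := 6) (h := 1) (lm := 3)
    (cs := [1, 2, 723, 702])
    hW (by decide) (by norm_num) chkAp_3_1 hj (by norm_num) isTab_3_4_1 (by norm_num) (by norm_num)
    (by norm_num) (by norm_num) (by decide) (by decide) (by decide) (by decide) (by decide) (by decide +kernel)
    (by decide +kernel)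

lemma B_3_6_1 [Fact (Nat.Prime 3)] {W : WeierstrassCurve ℤ} (hW : Applies W 3) (hj : CongZero 3 1 (jInv W - (1 : ℕ))) :
    Out W 3 6 1 6 20 1 1 (fun u y => bif or (Nat.beq (Nat.mod (1 + 3 * u) 9) 1) (Nat.beq (Nat.mod (1 + 3 * u) 9) 8) then cZ 3 20 y else cE 3 19 y) :=
  main (p := 3) (k := 6) (r := 0) (l := 6) (m := 2) (a := 1) (e := 20) (e' := 20) (h := 1) (lm := 6)
    (cs := [1, 3486784400, 3486784386, 135, 729, 3486725352])
    hW (by decide) (by norm_num) chkAp_3_1 hj (by norm_num) isTab_3_6_1 (by norm_num) (by norm_num)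
    (by norm_num) (by norm_num) (by decide) (by decide) (by decide) (by decide) (by decide) (by decide +kernel)
    (by decide +kernel)

lemma B_3_4_2 [Fact (Nat.Prime 3)] {W : WeierstrassCurve ℤ} (hW : Applies W 3) (hj : CongZero 3 1 (jInv W - (2 : ℕ))) :
    Out W 3 4 1 3 6 2 1 (fun u y => bif or (Nat.beq (Nat.mod (2 + 3 * u) 9) 1) (Nat.beq (Nat.mod (2 + 3 * u) 9) 8) then cZ 3 6 y else cE 3 5 y) :=
  main (p := 3) (k := 4) (r := 0) (l := 3) (m := 1) (a := 2) (e := 6) (e' := 6) (h := 1) (lm := 3)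
    (cs := [1, 728, 3, 702])
    hW (by decide) (by norm_num) chkAp_3_2 hj (by norm_num) isTab_3_4_2 (by norm_num) (by norm_num)
    (by norm_num) (by norm_num) (by decide) (by decide) (by decide) (by decide) (by decide) (by decide +kernel)
    (by decide +kernel)

lemma B_3_6_2 [Fact (Nat.Prime 3)] {W : WeierstrassCurve ℤ} (hW : Applies W 3) (hj : CongZero 3 1 (jInv W - (2 : ℕ))) :
    Out W 3 6 1 6 20 2 1 (fun u y => bif or (Nat.beq (Nat.mod (2 + 3 * u) 9) 1) (Nat.beq (Nat.mod (2 + 3 * u) 9) 8) then cZ 3 20 y else cE 3 19 y) :=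
  main (p := 3) (k := 6) (r := 0) (l := 6) (m := 2) (a := 2) (e := 20) (e' := 20) (h := 1) (lm := 6)
    (cs := [1, 11, 66, 3486783807, 3486776382, 3486725352])
    hW (by decide) (by norm_num) chkAp_3_2 hj (by norm_num) isTab_3_6_2 (by norm_num) (by norm_num)
    (by norm_num) (by norm_num) (by decide) (by decide) (by decide) (by decide) (by decide) (by decide +kernel)
    (by decide +kernel)

lemma A_5_8_1 [Fact (Nat.Prime 5)] {W : WeierstrassCurve ℤ} (hW : Applies W 5) (hj : CongZero 5 1 (jInv W - (1 : ℕ))) :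
    Out W 5 8 7 6 15 1 0 (fun _ y => cE 5 14 y) :=
  main (p := 5) (k := 8) (r := 6) (l := 6) (m := 3) (a := 2) (e := 15) (e' := 15) (h := 0) (lm := 6)
    (cs := [1, 30517577986, 7645, 30513946750, 453921875, 15585937500, 0])
    hW (by decide) (by norm_num) chkAp_5_1 hj (by norm_num) isTab_5_8_1 (by norm_num) (by norm_num)
    (by norm_num) (by norm_num) (by decide) (by decide) (by decide) (by decide) (by decide) (by decide +kernel)
    (by decide +kernel)

lemma B_5_6_1 [Fact (Nat.Prime 5)] {W : WeierstrassCurve ℤ} (hW : Applies W 5) (hj : CongZero 5 1 (jInv W - (1 : ℕ))) :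
    Out W 5 6 1 5 15 1 1 (fun u y => bif or (Nat.beq (Nat.mod (1 + 5 * u) 25) 7) (or (Nat.beq (Nat.mod (1 + 5 * u) 25) 14) (Nat.beq (Nat.mod (1 + 5 * u) 25) 21)) then cZ 5 15 y else cE 5 14 y) :=
  main (p := 5) (k := 6) (r := 0) (l := 5) (m := 2) (a := 2) (e := 15) (e' := 15) (h := 1) (lm := 5)
    (cs := [1, 19, 570, 30517563875, 30517281250, 30507812500])
    hW (by decide) (by norm_num) chkAp_5_1 hj (by norm_num) isTab_5_6_1 (by norm_num) (by norm_num)
    (by norm_num) (by norm_num) (by decide) (by decide) (by decide) (by decide) (by decide) (by decide +kernel)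
    (by decide +kernel)

lemma A_5_8_2 [Fact (Nat.Prime 5)] {W : WeierstrassCurve ℤ} (hW : Applies W 5) (hj : CongZero 5 1 (jInv W - (2 : ℕ))) :
    Out W 5 8 7 6 15 2 0 (fun _ y => cE 5 14 y) :=
  main (p := 5) (k := 8) (r := 6) (l := 6) (m := 3) (a := 3) (e := 15) (e' := 15) (h := 0) (lm := 6)
    (cs := [1, 71, 8520, 1544250, 30324546875, 13876953125, 0])
    hW (by decide) (by norm_num) chkAp_5_2 hj (by norm_num) isTab_5_8_2 (by norm_num) (by norm_num)
    (by norm_num) (by norm_num) (by decide) (by decide) (by decide) (by decide) (by decide) (by decide +kernel)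
    (by decide +kernel)

lemma B_5_6_2 [Fact (Nat.Prime 5)] {W : WeierstrassCurve ℤ} (hW : Applies W 5) (hj : CongZero 5 1 (jInv W - (2 : ℕ))) :
    Out W 5 6 1 5 15 2 1 (fun u y => bif or (Nat.beq (Nat.mod (2 + 5 * u) 25) 7) (or (Nat.beq (Nat.mod (2 + 5 * u) 25) 14) (Nat.beq (Nat.mod (2 + 5 * u) 25) 21)) then cZ 5 15 y else cE 5 14 y) :=
  main (p := 5) (k := 6) (r := 0) (l := 5) (m := 2) (a := 3) (e := 15) (e' := 15) (h := 1) (lm := 5)
    (cs := [1, 29, 145, 30517574500, 30517125000, 30507812500])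
    hW (by decide) (by norm_num) chkAp_5_2 hj (by norm_num) isTab_5_6_2 (by norm_num) (by norm_num)
    (by norm_num) (by norm_num) (by decide) (by decide) (by decide) (by decide) (by decide) (by decide +kernel)
    (by decide +kernel)

lemma A_5_8_4 [Fact (Nat.Prime 5)] {W : WeierstrassCurve ℤ} (hW : Applies W 5) (hj : CongZero 5 1 (jInv W - (4 : ℕ))) :
    Out W 5 8 7 6 15 4 0 (fun _ y => cE 5 14 y) :=
  main (p := 5) (k := 8) (r := 6) (l := 6) (m := 3) (a := 1) (e := 15) (e' := 15) (h := 0) (lm := 6)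
    (cs := [1, 30517578124, 280, 19250, 30515171875, 29970703125, 0])
    hW (by decide) (by norm_num) chkAp_5_4 hj (by norm_num) isTab_5_8_4 (by norm_num) (by norm_num)
    (by norm_num) (by norm_num) (by decide) (by decide) (by decide) (by decide) (by decide) (by decide +kernel)
    (by decide +kernel)

lemma B_5_6_4 [Fact (Nat.Prime 5)] {W : WeierstrassCurve ℤ} (hW : Applies W 5) (hj : CongZero 5 1 (jInv W - (4 : ℕ))) :
    Out W 5 6 1 5 15 4 1 (fun u y => bif or (Nat.beq (Nat.mod (4 + 5 * u) 25) 7) (or (Nat.beq (Nat.mod (4 + 5 * u) 25) 14) (Nat.beq (Nat.mod (4 + 5 * u) 25) 21)) then cZ 5 15 y else cE 5 14 y) :=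
  main (p := 5) (k := 6) (r := 0) (l := 5) (m := 2) (a := 1) (e := 15) (e' := 15) (h := 1) (lm := 5)
    (cs := [1, 30517578114, 30517577630, 12375, 171875, 30507812500])
    hW (by decide) (by norm_num) chkAp_5_4 hj (by norm_num) isTab_5_6_4 (by norm_num) (by norm_num)
    (by norm_num) (by norm_num) (by decide) (by decide) (by decide) (by decide) (by decide) (by decide +kernel)
    (by decide +kernel)

end Pool.Agent.KS6_3.Asd
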