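import Pool.Agent.KS6_3.Asd.Inst

/-!
More parameters.
-/

set_option autoImplicit false
set_option maxRecDepth 100000

namespace Pool.Agent.KS6_3.Asd

open Finset

lemma D_2_6_3 [Fact (Nat.Prime 2)] {W : WeierstrassCurve ℤ} (hW : Applies W 2) (hj : CongZero 2 1 (jInv W - (1 : ℕ))) :
    Out W 2 6 3 4 8 1 2 (fun _ y => not (cZ 2 8 y)) :=
  main (p := 2) (k := 6) (r := 2) (l := 4) (m := 2) (a := 1) (e := 15) (e' := 8) (h := 2) (lm := 5)
    (cs := [1, 1, 6, 232, 192])
    hW (by decide) (by norm_num) chkAp_2_1 hj (by norm_num) isTab_2_6_1 (by norm_num) (by norm_num)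
    (by norm_num) (by norm_num) (by decide) (by decide) (by decide) (by decide) (by decide) (by decide +kernel)
    (by decide +kernel)

lemma D_2_6_4 [Fact (Nat.Prime 2)] {W : WeierstrassCurve ℤ} (hW : Applies W 2) (hj : CongZero 2 1 (jInv W - (1 : ℕ))) :
    Out W 2 6 4 4 7 1 1 (fun _ y => not (cZ 2 7 y)) :=
  main (p := 2) (k := 6) (r := 3) (l := 4) (m := 2) (a := 1) (e := 15) (e' := 7) (h := 1) (lm := 5)
    (cs := [1, 1, 6, 104, 64])
    hW (by decide) (by norm_num) chkAp_2_1 hj (by norm_num) isTab_2_6_1 (by norm_num) (by norm_num)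
    (by norm_num) (by norm_num) (by decide) (by decide) (by decide) (by decide) (by decide) (by decide +kernel)
    (by decide +kernel)

lemma D_2_8_3 [Fact (Nat.Prime 2)] {W : WeierstrassCurve ℤ} (hW : Applies W 2) (hj : CongZero 2 1 (jInv W - (1 : ℕ))) :
    Out W 2 8 3 6 19 1 4 (fun _ y => not (cZ 2 19 y)) :=
  main (p := 2) (k := 8) (r := 2) (l := 6) (m := 3) (a := 1) (e := 28) (e' := 19) (h := 4) (lm := 7)
    (cs := [1, 524281, 70, 524008, 2240, 488448, 229376])
    hW (by decide) (by norm_num) chkAp_2_1 hj (by norm_num) isTab_2_8_1 (by norm_num) (by norm_num)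
    (by norm_num) (by norm_num) (by decide) (by decide) (by decide) (by decide) (by decide) (by decide +kernel)
    (by decide +kernel)

lemma D_2_8_4 [Fact (Nat.Prime 2)] {W : WeierstrassCurve ℤ} (hW : Applies W 2) (hj : CongZero 2 1 (jInv W - (1 : ℕ))) :
    Out W 2 8 4 6 18 1 3 (fun _ y => not (cZ 2 18 y)) :=
  main (p := 2) (k := 8) (r := 3) (l := 6) (m := 3) (a := 1) (e := 28) (e' := 18) (h := 3) (lm := 7)
    (cs := [1, 262137, 70, 261864, 2240, 226304, 229376])
    hW (by decide) (by norm_num) chkAp_2_1 hj (by norm_num) isTab_2_8_1 (by norm_num) (by norm_num)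
    (by norm_num) (by norm_num) (by decide) (by decide) (by decide) (by decide) (by decide) (by decide +kernel)
    (by decide +kernel)

lemma D_2_8_5 [Fact (Nat.Prime 2)] {W : WeierstrassCurve ℤ} (hW : Applies W 2) (hj : CongZero 2 1 (jInv W - (1 : ℕ))) :
    Out W 2 8 5 6 17 1 4 (fun _ y => not (cZ 2 17 y)) :=
  main (p := 2) (k := 8) (r := 4) (l := 6) (m := 3) (a := 1) (e := 28) (e' := 17) (h := 4) (lm := 7)
    (cs := [1, 131065, 70, 130792, 2240, 95232, 98304])
    hW (by decide) (by norm_num) chkAp_2_1 hj (by norm_num) isTab_2_8_1 (by norm_num) (by norm_num)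
    (by norm_num) (by norm_num) (by decide) (by decide) (by decide) (by decide) (by decide) (by decide +kernel)
    (by decide +kernel)

lemma D_2_8_6 [Fact (Nat.Prime 2)] {W : WeierstrassCurve ℤ} (hW : Applies W 2) (hj : CongZero 2 1 (jInv W - (1 : ℕ))) :
    Out W 2 8 6 6 16 1 3 (fun _ y => not (cZ 2 16 y)) :=
  main (p := 2) (k := 8) (r := 5) (l := 6) (m := 3) (a := 1) (e := 28) (e' := 16) (h := 3) (lm := 7)
    (cs := [1, 65529, 70, 65256, 2240, 29696, 32768])
    hW (by decide) (by norm_num) chkAp_2_1 hj (by norm_num) isTab_2_8_1 (by norm_num) (by norm_num)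
    (by norm_num) (by norm_num) (by decide) (by decide) (by decide) (by decide) (by decide) (by decide +kernel)
    (by decide +kernel)

lemma D_2_10_3 [Fact (Nat.Prime 2)] {W : WeierstrassCurve ℤ} (hW : Applies W 2) (hj : CongZero 2 1 (jInv W - (1 : ℕ))) :
    Out W 2 10 3 8 34 1 5 (fun _ y => not (cZ 2 34 y)) :=
  main (p := 2) (k := 10) (r := 2) (l := 8) (m := 4) (a := 1) (e := 45) (e' := 34) (h := 5) (lm := 9)
    (cs := [1, 17, 102, 2856, 38080, 17179259904, 17168171008, 17072914432, 12616466432])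
    hW (by decide) (by norm_num) chkAp_2_1 hj (by norm_num) isTab_2_10_1 (by norm_num) (by norm_num)
    (by norm_num) (by norm_num) (by decide) (by decide) (by decide) (by decide) (by decide) (by decide +kernel)
    (by decide +kernel)

lemma D_2_10_5 [Fact (Nat.Prime 2)] {W : WeierstrassCurve ℤ} (hW : Applies W 2) (hj : CongZero 2 1 (jInv W - (1 : ℕ))) :
    Out W 2 10 5 8 32 1 6 (fun _ y => not (cZ 2 32 y)) :=
  main (p := 2) (k := 10) (r := 4) (l := 8) (m := 4) (a := 1) (e := 45) (e' := 32) (h := 6) (lm := 9)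
    (cs := [1, 17, 102, 2856, 38080, 4294358016, 4283269120, 4188012544, 4026531840])
    hW (by decide) (by norm_num) chkAp_2_1 hj (by norm_num) isTab_2_10_1 (by norm_num) (by norm_num)
    (by norm_num) (by norm_num) (by decide) (by decide) (by decide) (by decide) (by decide) (by decide +kernel)
    (by decide +kernel)

lemma D_2_10_6 [Fact (Nat.Prime 2)] {W : WeierstrassCurve ℤ} (hW : Applies W 2) (hj : CongZero 2 1 (jInv W - (1 : ℕ))) :
    Out W 2 10 6 8 31 1 4 (fun _ y => not (cZ 2 31 y)) :=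
  main (p := 2) (k := 10) (r := 5) (l := 8) (m := 4) (a := 1) (e := 45) (e' := 31) (h := 4) (lm := 9)
    (cs := [1, 17, 102, 2856, 38080, 2146874368, 2135785472, 2040528896, 1879048192])
    hW (by decide) (by norm_num) chkAp_2_1 hj (by norm_num) isTab_2_10_1 (by norm_num) (by norm_num)
    (by norm_num) (by norm_num) (by decide) (by decide) (by decide) (by decide) (by decide) (by decide +kernel)
    (by decide +kernel)

lemma D_2_10_7 [Fact (Nat.Prime 2)] {W : WeierstrassCurve ℤ} (hW : Applies W 2) (hj : CongZero 2 1 (jInv W - (1 : ℕ))) :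
    Out W 2 10 7 8 30 1 5 (fun _ y => not (cZ 2 30 y)) :=
  main (p := 2) (k := 10) (r := 6) (l := 8) (m := 4) (a := 1) (e := 45) (e' := 30) (h := 5) (lm := 9)
    (cs := [1, 17, 102, 2856, 38080, 1073132544, 1062043648, 966787072, 805306368])
    hW (by decide) (by norm_num) chkAp_2_1 hj (by norm_num) isTab_2_10_1 (by norm_num) (by norm_num)
    (by norm_num) (by norm_num) (by decide) (by decide) (by decide) (by decide) (by decide) (by decide +kernel)
    (by decide +kernel)

lemma D_2_10_8 [Fact (Nat.Prime 2)] {W : WeierstrassCurve ℤ} (hW : Applies W 2) (hj : CongZero 2 1 (jInv W - (1 : ℕ))) :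
    Out W 2 10 8 8 29 1 4 (fun _ y => not (cZ 2 29 y)) :=
  main (p := 2) (k := 10) (r := 7) (l := 8) (m := 4) (a := 1) (e := 45) (e' := 29) (h := 4) (lm := 9)
    (cs := [1, 17, 102, 2856, 38080, 536261632, 525172736, 429916160, 268435456])
    hW (by decide) (by norm_num) chkAp_2_1 hj (by norm_num) isTab_2_10_1 (by norm_num) (by norm_num)
    (by norm_num) (by norm_num) (by decide) (by decide) (by decide) (by decide) (by decide) (by decide +kernel)
    (by decide +kernel)

lemma D_2_10_4a [Fact (Nat.Prime 2)] {W : WeierstrassCurve ℤ} (hW : Applies W 2) (hj : CongZero 2 1 (jInv W - (1 : ℕ))) :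
    Out W 2 10 4 8 33 1 4 (fun u y => or (not (Nat.beq (Nat.mod u 2) 0)) (not (cZ 2 33 y))) :=
  main (p := 2) (k := 10) (r := 3) (l := 8) (m := 4) (a := 1) (e := 45) (e' := 33) (h := 4) (lm := 9)
    (cs := [1, 17, 102, 2856, 38080, 8589325312, 8578236416, 8482979840, 4026531840])
    hW (by decide) (by norm_num) chkAp_2_1 hj (by norm_num) isTab_2_10_1 (by norm_num) (by norm_num)
    (by norm_num) (by norm_num) (by decide) (by decide) (by decide) (by decide) (by decide) (by decide +kernel)
    (by decide +kernel)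

lemma D_2_10_4b [Fact (Nat.Prime 2)] {W : WeierstrassCurve ℤ} (hW : Applies W 2) (hj : CongZero 2 1 (jInv W - (1 : ℕ))) :
    Out W 2 10 4 9 42 1 5 (fun u y => or (Nat.beq (Nat.mod u 2) 0) (not (cZ 2 42 y))) :=
  main (p := 2) (k := 10) (r := 3) (l := 9) (m := 4) (a := 1) (e := 45) (e' := 42) (h := 5) (lm := 9)
    (cs := [1, 17, 102, 2856, 38080, 4398045901824, 4398034812928, 4397939556352, 4393483108352, 4329327034368])
    hW (by decide) (by norm_num) chkAp_2_1 hj (by norm_num) isTab_2_10_1 (by norm_num) (by norm_num)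
    (by norm_num) (by norm_num) (by decide) (by decide) (by decide) (by decide) (by decide) (by decide +kernel)
    (by decide +kernel)

lemma E_2_10 [Fact (Nat.Prime 2)] {W : WeierstrassCurve ℤ} (hW : Applies W 2) (hj : CongZero 2 1 (jInv W - (1 : ℕ))) :
    Out W 2 10 2 8 35 1 5 (fun u y => bif Nat.beq (Nat.mod u 2) 0 then cZ 2 35 y else cE 2 32 y) :=
  main (p := 2) (k := 10) (r := 1) (l := 8) (m := 4) (a := 1) (e := 45) (e' := 35) (h := 5) (lm := 9)
    (cs := [1, 17, 102, 2856, 38080, 34359129088, 34348040192, 34252783616, 29796335616])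
    hW (by decide) (by norm_num) chkAp_2_1 hj (by norm_num) isTab_2_10_1 (by norm_num) (by norm_num)
    (by norm_num) (by norm_num) (by decide) (by decide) (by decide) (by decide) (by decide) (by decide +kernel)
    (by decide +kernel)

lemma E_3_6_1 [Fact (Nat.Prime 3)] {W : WeierstrassCurve ℤ} (hW : Applies W 3) (hj : CongZero 3 1 (jInv W - (1 : ℕ))) :
    Out W 3 6 2 4 9 1 1 (fun u y => bif or (Nat.beq (Nat.mod (1 + 3 * u) 9) 1) (Nat.beq (Nat.mod (1 + 3 * u) 9) 8) then cZ 3 9 y else cE 3 8 y) :=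
  main (p := 3) (k := 6) (r := 1) (l := 4) (m := 2) (a := 1) (e := 20) (e' := 9) (h := 1) (lm := 6)
    (cs := [1, 19682, 19668, 135, 729])
    hW (by decide) (by norm_num) chkAp_3_1 hj (by norm_num) isTab_3_6_1 (by norm_num) (by norm_num)
    (by norm_num) (by norm_num) (by decide) (by decide) (by decide) (by decide) (by decide) (by decide +kernel)
    (by decide +kernel)

lemma E_3_6_2 [Fact (Nat.Prime 3)] {W : WeierstrassCurve ℤ} (hW : Applies W 3) (hj : CongZero 3 1 (jInv W - (2 : ℕ))) :
    Out W 3 6 2 4 9 2 1 (fun u y => bif or (Nat.beq (Nat.mod (2 + 3 * u) 9) 1) (Nat.beq (Nat.mod (2 + 3 * u) 9) 8) then cZ 3 9 y else cE 3 8 y) :=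
  main (p := 3) (k := 6) (r := 1) (l := 4) (m := 2) (a := 2) (e := 20) (e' := 9) (h := 1) (lm := 6)
    (cs := [1, 11, 66, 19089, 11664])
    hW (by decide) (by norm_num) chkAp_3_2 hj (by norm_num) isTab_3_6_2 (by norm_num) (by norm_num)
    (by norm_num) (by norm_num) (by decide) (by decide) (by decide) (by decide) (by decide) (by decide +kernel)
    (by decide +kernel)

lemma E_3_8_1 [Fact (Nat.Prime 3)] {W : WeierstrassCurve ℤ} (hW : Applies W 3) (hj : CongZero 3 1 (jInv W - (1 : ℕ))) :
    Out W 3 8 2 6 20 1 1 (fun u y => bif or (Nat.beq (Nat.mod (1 + 3 * u) 9) 1) (Nat.beq (Nat.mod (1 + 3 * u) 9) 8) then cZ 3 20 y else cE 3 19 y) :=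
  main (p := 3) (k := 8) (r := 1) (l := 6) (m := 3) (a := 1) (e := 20) (e' := 20) (h := 1) (lm := 6)
    (cs := [1, 3486784388, 624, 2808, 3486708585, 3474502209, 186535791])
    hW (by decide) (by norm_num) chkAp_3_1 hj (by norm_num) isTab_3_8_1 (by norm_num) (by norm_num)
    (by norm_num) (by norm_num) (by decide) (by decide) (by decide) (by decide) (by decide) (by decide +kernel)
    (by decide +kernel)

lemma E_3_8_2 [Fact (Nat.Prime 3)] {W : WeierstrassCurve ℤ} (hW : Applies W 3) (hj : CongZero 3 1 (jInv W - (2 : ℕ))) :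
    Out W 3 8 2 6 20 2 1 (fun u y => bif or (Nat.beq (Nat.mod (2 + 3 * u) 9) 1) (Nat.beq (Nat.mod (2 + 3 * u) 9) 8) then cZ 3 20 y else cE 3 19 y) :=
  main (p := 3) (k := 8) (r := 1) (l := 6) (m := 3) (a := 2) (e := 20) (e' := 20) (h := 1) (lm := 6)
    (cs := [1, 3486784388, 3486784206, 3486765096, 521235, 3838185, 186535791])
    hW (by decide) (by norm_num) chkAp_3_2 hj (by norm_num) isTab_3_8_2 (by norm_num) (by norm_num)
    (by norm_num) (by norm_num) (by decide) (by decide) (by decide) (by decide) (by decide) (by decide +kernel)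
    (by decide +kernel)

end Pool.Agent.KS6_3.Asd
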