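import Mathlib

/-!
Truncated power series over `ZMod M`, packed into one natural number (`n` slots of `w` bits), with a reduction modulo
`M` of all slots at once (Barrett reduction with shifts and masks), which the kernel evaluates quickly.  The
lemmas on digits follow an earlier library file on Kronecker substitution.
-/

set_option autoImplicit false

namespace Pool.Agent.KS6_3.Asd

open Finset

/-- the `k`-th slot -/
def dg (B x k : ℕ) : ℕ := x / B ^ k % B

lemma dg_lt {B : ℕ} (hB : 0 < B) (x k : ℕ) : dg B x k < B := Nat.mod_lt _ hB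

lemma sum_lt {B : ℕ} (hB : 0 < B) (c : ℕ → ℕ) (hc : ∀ k, c k < B) (n : ℕ) :
    ∑ k ∈ range n, c k * B ^ k < B ^ n := by
  induction n with
  | zero => simp
  | succ n ih =>
    rw [sum_range_succ, pow_succ]
    have h1 : c n * B ^ n ≤ (B - 1) * B ^ n := Nat.mul_le_mul_right _ (by have := hc n; omega)
    have h2 : (B - 1) * B ^ n + B ^ n = B ^ n * B := by
      have : B - 1 + 1 = B := Nat.sub_add_cancel hB
      calc (B - 1) * B ^ n + B ^ n = (B - 1 + 1) * B ^ n := by ring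
        _ = B ^ n * B := by rw [this, mul_comm]
    omega

lemma dg_sum {B : ℕ} (hB : 0 < B) (c : ℕ → ℕ) (hc : ∀ k, c k < B) (n j : ℕ) :
    dg B (∑ k ∈ range n, c k * B ^ k) j = if j < n then c j else 0 := by
  unfold dg
  by_cases hj : j < n
  · rw [if_pos hj]
    obtain ⟨m, rfl⟩ : ∃ m, n = j + 1 + m := ⟨n - (j + 1), by omega⟩
    rw [sum_range_add, sum_range_succ]
    have h1 : ∑ x ∈ range m, c (j + 1 + x) * B ^ (j + 1 + x) =
        B ^ j * (B * ∑ x ∈ range m, c (j + 1 + x) * B ^ x) := by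
      rw [mul_sum, mul_sum]
      refine sum_congr rfl fun x _ => ?_
      ring
    rw [h1]
    have h2 := sum_lt hB c hc j
    have hBj : 0 < B ^ j := pow_pos hB j
    have h3 : (∑ x ∈ range j, c x * B ^ x + c j * B ^ j + B ^ j * (B * ∑ x ∈ range m, c (j + 1 + x) * B ^ x)) / B ^ j
        = c j + B * ∑ x ∈ range m, c (j + 1 + x) * B ^ x := by
      have : ∑ x ∈ range j, c x * B ^ x + c j * B ^ j + B ^ j * (B * ∑ x ∈ range m, c (j + 1 + x) * B ^ x)
          = ∑ x ∈ range j, c x * B ^ x + B ^ j * (c j + B * ∑ x ∈ range m, c (j + 1 + x) * B ^ x) := by ring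
      rw [this, Nat.add_mul_div_left _ _ hBj, Nat.div_eq_of_lt h2, zero_add]
    rw [h3, Nat.add_mul_mod_self_left, Nat.mod_eq_of_lt (hc j)]
  · rw [if_neg hj]
    have h2 : ∑ k ∈ range n, c k * B ^ k < B ^ j :=
      lt_of_lt_of_le (sum_lt hB c hc n) (Nat.pow_le_pow_right hB (by omega))
    rw [Nat.div_eq_of_lt h2, Nat.zero_mod]

lemma eq_sum_dg {B : ℕ} (hB : 0 < B) (x n : ℕ) (hx : x < B ^ n) : x = ∑ k ∈ range n, dg B x k * B ^ k := by
  induction n generalizing x with
  | zero => simp at hx; simp [hx]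
  | succ n ih =>
    rw [sum_range_succ']
    have h1 : ∀ k, dg B x (k + 1) = dg B (x / B) k := by
      intro k
      unfold dg
      rw [Nat.div_div_eq_div_mul, pow_succ, mul_comm (B ^ k)]
    have h2 : x / B < B ^ n := by
      rw [Nat.div_lt_iff_lt_mul hB]
      rw [pow_succ] at hx
      exact hx
    have h3 := ih (x / B) h2
    have h4 : ∑ k ∈ range n, dg B x (k + 1) * B ^ (k + 1) = B * (x / B) := by
      conv_rhs => rw [h3, mul_sum]
      refine sum_congr rfl fun k _ => ?_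
      rw [h1 k]
      ring
    rw [h4]
    have h5 : dg B x 0 = x % B := by unfold dg; simp
    rw [h5, pow_zero, mul_one]
    exact (Nat.div_add_mod x B).symm

lemma dg_mod {B : ℕ} (hB : 0 < B) (x n j : ℕ) : dg B (x % B ^ n) j = if j < n then dg B x j else 0 := by
  unfold dg
  by_cases hj : j < n
  · rw [if_pos hj]
    obtain ⟨m, rfl⟩ : ∃ m, n = j + 1 + m := ⟨n - (j + 1), by omega⟩
    have h1 : x % B ^ (j + 1 + m) / B ^ j = x / B ^ j % B ^ (1 + m) := by
      have : B ^ (j + 1 + m) = B ^ j * B ^ (1 + m) := by rw [← pow_add]; congr 1; ring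
      rw [this, Nat.mod_mul_right_div_self]
    rw [h1, pow_add, pow_one, Nat.mod_mul_right_mod]
  · rw [if_neg hj]
    have h2 : x % B ^ n < B ^ j :=
      lt_of_lt_of_le (Nat.mod_lt _ (pow_pos hB n)) (Nat.pow_le_pow_right hB (by omega))
    rw [Nat.div_eq_of_lt h2, Nat.zero_mod]

/-- the slot, in a form that is fast to evaluate -/
def dgs (w x k : ℕ) : ℕ := (x >>> (w * k)) % 2 ^ w

lemma dgs_eq (w x k : ℕ) : dgs w x k = dg (2 ^ w) x k := by
  rw [dgs, dg, Nat.shiftRight_eq_div_pow, pow_mul]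

/-- the low `t` bits of each of the `n` slots -/
def msk (w n t : ℕ) : ℕ := (2 ^ (w * n) - 1) / (2 ^ w - 1) * (2 ^ t - 1)

lemma msk_eq {w : ℕ} (hw : 0 < w) (n t : ℕ) : msk w n t = ∑ k ∈ range n, (2 ^ t - 1) * (2 ^ w) ^ k := by
  have h2 : 2 ≤ 2 ^ w := by
    calc 2 = 2 ^ 1 := by norm_num
      _ ≤ 2 ^ w := Nat.pow_le_pow_right (by norm_num) hw
  rw [msk, pow_mul, ← Nat.geomSum_eq h2, ← mul_sum, mul_comm]

/-- slotwise division by `2 ^ s` -/
def shr (w n s x : ℕ) : ℕ := (x >>> s) &&& msk w n (w - s)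

lemma two_pow_pos' (w : ℕ) : 0 < 2 ^ w := by positivity

lemma dg_msk {w : ℕ} (hw : 0 < w) {n t : ℕ} (ht : t ≤ w) (k : ℕ) :
    dg (2 ^ w) (msk w n t) k = if k < n then 2 ^ t - 1 else 0 := by
  rw [msk_eq hw]
  refine dg_sum (two_pow_pos' w) (fun _ => 2 ^ t - 1) (fun _ => ?_) n k
  have h1 : 2 ^ t ≤ 2 ^ w := Nat.pow_le_pow_right (by norm_num) ht
  have h2 := two_pow_pos' t
  omega

lemma dg_shr {w n s x : ℕ} (hw : 0 < w) (hs : s ≤ w) (k : ℕ) :
    dg (2 ^ w) (shr w n s x) k = if k < n then dg (2 ^ w) x k / 2 ^ s else 0 := by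
  have e1 : dg (2 ^ w) (shr w n s x) k = ((x >>> s) >>> (w * k)) &&& dg (2 ^ w) (msk w n (w - s)) k := by
    rw [← dgs_eq, ← dgs_eq, dgs, dgs, shr, Nat.shiftRight_and_distrib, ← Nat.and_two_pow_sub_one_eq_mod,
      ← Nat.and_two_pow_sub_one_eq_mod, Nat.and_assoc]
  rw [e1, dg_msk hw (Nat.sub_le _ _)]
  split_ifs with hk
  · rw [Nat.and_two_pow_sub_one_eq_mod, ← Nat.shiftRight_add, Nat.add_comm, Nat.shiftRight_add,
      Nat.shiftRight_eq_div_pow, ← dgs_eq, dgs]
    obtain ⟨t, rfl⟩ : ∃ t, w = s + t := ⟨w - s, by omega⟩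
    have h3 : s + t - s = t := by omega
    rw [h3]
    conv_rhs => rw [pow_add 2 s t, Nat.mod_mul_right_div_self]
  · simp

lemma shr_lt {w n s x : ℕ} (hw : 0 < w) : shr w n s x < (2 ^ w) ^ n := by
  have h1 : shr w n s x ≤ msk w n (w - s) := Nat.and_le_right
  refine lt_of_le_of_lt h1 ?_
  rw [msk_eq hw]
  refine sum_lt (two_pow_pos' w) (fun _ => 2 ^ (w - s) - 1) (fun _ => ?_) n
  have h1 : 2 ^ (w - s) ≤ 2 ^ w := Nat.pow_le_pow_right (by norm_num) (Nat.sub_le _ _)
  have h2 := two_pow_pos' (w - s)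
  omega

/-- slotwise reduction modulo `M` (to the range `[0, 2M)`); `μ` is the integral part of `2 ^ s / M` -/
def red (w n M s μ x : ℕ) : ℕ := x - M * shr w n s (x * μ)

/-- admissible parameters: slots of `w` bits, `n` slots, modulus `M` -/
structure Ok (w n M s μ : ℕ) : Prop where
  hM : 0 < M
  hw : 0 < w
  hn : 0 < n
  hs : s ≤ w
  h1 : 4 * n * M * M < 2 ^ s
  h2 : 2 ^ s * μ ≤ 2 ^ w
  h3 : μ * M ≤ 2 ^ s
  h4 : 2 ^ s < (μ + 1) * M

lemma red_eq {w n M s μ : ℕ} (ok : Ok w n M s μ) (a : ℕ → ℕ) (ha : ∀ k, a k < 2 ^ s) :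
    red w n M s μ (∑ k ∈ range n, a k * (2 ^ w) ^ k) =
      ∑ k ∈ range n, (a k - M * (a k * μ / 2 ^ s)) * (2 ^ w) ^ k := by
  have hB := two_pow_pos' w
  have hs := two_pow_pos' s
  have haμ : ∀ k, a k * μ < 2 ^ w := by
    intro k
    rcases Nat.eq_zero_or_pos μ with h | h
    · rw [h, mul_zero]; exact hB
    · exact lt_of_lt_of_le (Nat.mul_lt_mul_of_pos_right (ha k) h) ok.h2
  have e1 : (∑ k ∈ range n, a k * (2 ^ w) ^ k) * μ = ∑ k ∈ range n, (a k * μ) * (2 ^ w) ^ k := by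
    rw [sum_mul]
    exact sum_congr rfl fun k _ => by ring
  have e2 : shr w n s ((∑ k ∈ range n, a k * (2 ^ w) ^ k) * μ) =
      ∑ k ∈ range n, (a k * μ / 2 ^ s) * (2 ^ w) ^ k := by
    rw [eq_sum_dg hB _ n (shr_lt ok.hw)]
    refine sum_congr rfl fun k hk => ?_
    rw [dg_shr ok.hw ok.hs, if_pos (mem_range.1 hk), e1, dg_sum hB _ haμ, if_pos (mem_range.1 hk)]
  have hle : ∀ k, M * (a k * μ / 2 ^ s) ≤ a k := by
    intro k
    have h5 : 2 ^ s * (a k * μ / 2 ^ s) ≤ a k * μ := Nat.mul_div_le _ _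
    have h6 : 2 ^ s * (M * (a k * μ / 2 ^ s)) ≤ 2 ^ s * a k := by
      calc 2 ^ s * (M * (a k * μ / 2 ^ s)) = M * (2 ^ s * (a k * μ / 2 ^ s)) := by ring
        _ ≤ M * (a k * μ) := Nat.mul_le_mul_left _ h5
        _ = (μ * M) * a k := by ring
        _ ≤ 2 ^ s * a k := Nat.mul_le_mul_right _ ok.h3
    exact Nat.le_of_mul_le_mul_left h6 hs
  rw [red, e2]
  refine Nat.sub_eq_of_eq_add ?_
  rw [mul_sum, ← sum_add_distrib]
  refine sum_congr rfl fun k _ => ?_
  rw [← mul_assoc, ← add_mul, Nat.sub_add_cancel (hle k)]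

lemma red_dig {w n M s μ : ℕ} (ok : Ok w n M s μ) (a : ℕ) (ha : a < 2 ^ s) :
    a - M * (a * μ / 2 ^ s) < 2 * M ∧ ((a - M * (a * μ / 2 ^ s) : ℕ) : ZMod M) = (a : ZMod M) := by
  have hs := two_pow_pos' s
  set q := a * μ / 2 ^ s with hq
  have hle : M * q ≤ a := by
    have h5 : 2 ^ s * q ≤ a * μ := Nat.mul_div_le _ _
    have h6 : 2 ^ s * (M * q) ≤ 2 ^ s * a := by
      calc 2 ^ s * (M * q) = M * (2 ^ s * q) := by ring
        _ ≤ M * (a * μ) := Nat.mul_le_mul_left _ h5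
        _ = (μ * M) * a := by ring
        _ ≤ 2 ^ s * a := Nat.mul_le_mul_right _ ok.h3
    exact Nat.le_of_mul_le_mul_left h6 hs
  constructor
  · have h5 : a * μ < 2 ^ s * (q + 1) := Nat.lt_mul_div_succ _ hs
    have h6 : 2 ^ s * a < 2 ^ s * (M * (q + 2)) := by
      have e1 : 2 ^ s * a ≤ (μ + 1) * M * a := Nat.mul_le_mul_right _ ok.h4.le
      have e2 : (μ + 1) * M * a = M * (a * μ) + M * a := by ring
      have e3 : M * (a * μ) < M * (2 ^ s * (q + 1)) := Nat.mul_lt_mul_of_pos_left h5 ok.hM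
      have e4 : M * a ≤ M * 2 ^ s := Nat.mul_le_mul_left _ ha.le
      calc 2 ^ s * a ≤ M * (a * μ) + M * a := by rw [← e2]; exact e1
        _ < M * (2 ^ s * (q + 1)) + M * 2 ^ s := by omega
        _ = 2 ^ s * (M * (q + 2)) := by ring
    have h7 : a < M * (q + 2) := Nat.lt_of_mul_lt_mul_left h6
    have h8 : M * (q + 2) = M * q + 2 * M := by ring
    omega
  · rw [Nat.cast_sub hle, Nat.cast_mul, ZMod.natCast_self, zero_mul, sub_zero]

/-! ### Packed power series -/

/-- `x` represents the power series `f` up to `q ^ n` -/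
structure Rep (w n M : ℕ) (x : ℕ) (f : PowerSeries (ZMod M)) : Prop where
  lt : ∀ k, dg (2 ^ w) x k < 2 * M
  bd : x < (2 ^ w) ^ n
  co : ∀ k < n, ((dg (2 ^ w) x k : ℕ) : ZMod M) = PowerSeries.coeff k f

lemma rep_sum {w n M s μ : ℕ} (ok : Ok w n M s μ) (a : ℕ → ℕ) (ha : ∀ k, a k < 2 ^ s) {f : PowerSeries (ZMod M)}
    (hf : ∀ k < n, ((a k : ℕ) : ZMod M) = PowerSeries.coeff k f) :
    Rep w n M (red w n M s μ (∑ k ∈ range n, a k * (2 ^ w) ^ k)) f := by
  have hB := two_pow_pos' w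
  have hlt : ∀ k, a k - M * (a k * μ / 2 ^ s) < 2 ^ w := fun k =>
    lt_of_le_of_lt (Nat.sub_le _ _) (lt_of_lt_of_le (ha k) (Nat.pow_le_pow_right (by norm_num) ok.hs))
  rw [red_eq ok a ha]
  refine ⟨fun k => ?_, sum_lt hB (fun k => a k - M * (a k * μ / 2 ^ s)) hlt n, fun k hk => ?_⟩
  · rw [dg_sum hB (fun k => a k - M * (a k * μ / 2 ^ s)) hlt]
    split_ifs
    · exact (red_dig ok (a k) (ha k)).1
    · have := ok.hM
      omega
  · rw [dg_sum hB (fun k => a k - M * (a k * μ / 2 ^ s)) hlt, if_pos hk, (red_dig ok (a k) (ha k)).2, hf k hk]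

/-- `u f + v g` -/
def lin (w n M s μ u v x y : ℕ) : ℕ := red w n M s μ (u * x + v * y)

lemma rep_lin {w n M s μ : ℕ} (ok : Ok w n M s μ) {x y : ℕ} {f g : PowerSeries (ZMod M)}
    (hx : Rep w n M x f) (hy : Rep w n M y g) (u v : ℕ) (hu : u ≤ M) (hv : v ≤ M) :
    Rep w n M (lin w n M s μ u v x y) (PowerSeries.C (u : ZMod M) * f + PowerSeries.C (v : ZMod M) * g) := by
  have hB := two_pow_pos' w
  have hc : ∀ k, u * dg (2 ^ w) x k + v * dg (2 ^ w) y k < 2 ^ s := by
    intro k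
    have h1 : u * dg (2 ^ w) x k ≤ M * (2 * M) := Nat.mul_le_mul hu (hx.lt k).le
    have h2 : v * dg (2 ^ w) y k ≤ M * (2 * M) := Nat.mul_le_mul hv (hy.lt k).le
    have h3 : 4 * n * M * M = n * (M * (2 * M) + M * (2 * M)) := by ring
    have h4 : 1 * (M * (2 * M) + M * (2 * M)) ≤ n * (M * (2 * M) + M * (2 * M)) := Nat.mul_le_mul_right _ ok.hn
    have h5 := ok.h1
    omega
  have e : u * x + v * y = ∑ k ∈ range n, (u * dg (2 ^ w) x k + v * dg (2 ^ w) y k) * (2 ^ w) ^ k := by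
    conv_lhs => rw [eq_sum_dg hB x _ hx.bd, eq_sum_dg hB y _ hy.bd]
    rw [mul_sum, mul_sum, ← sum_add_distrib]
    refine sum_congr rfl fun k _ => ?_
    ring
  rw [lin, e]
  refine rep_sum ok _ hc fun k hk => ?_
  push_cast
  rw [map_add, PowerSeries.coeff_C_mul, PowerSeries.coeff_C_mul, hx.co k hk, hy.co k hk]

lemma packed_mul (B : ℕ) (a b : ℕ → ℕ) (N : ℕ) (ha : ∀ k, N ≤ k → a k = 0) (hb : ∀ k, N ≤ k → b k = 0) :
    (∑ k ∈ range N, a k * B ^ k) * (∑ k ∈ range N, b k * B ^ k) =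
      ∑ k ∈ range (N + N), (∑ p ∈ antidiagonal k, a p.1 * b p.2) * B ^ k := by
  have h1 : ∀ k, (∑ p ∈ antidiagonal k, a p.1 * b p.2) * B ^ k =
      ∑ p ∈ antidiagonal k, (a p.1 * B ^ p.1) * (b p.2 * B ^ p.2) := by
    intro k
    rw [sum_mul]
    refine sum_congr rfl fun p hp => ?_
    rw [← HasAntidiagonal.mem_antidiagonal.1 hp, pow_add]
    ring
  simp_rw [h1]
  rw [Finset.sum_mul_sum, ← sum_product']
  rw [sum_sigma' (range (N + N)) (fun k => antidiagonal k)]
  symm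
  refine sum_bij_ne_zero (fun p _ _ => p.2) ?_ ?_ ?_ ?_
  · rintro ⟨k, p⟩ hp hne
    simp only [mem_sigma, mem_range, HasAntidiagonal.mem_antidiagonal] at hp
    rw [mem_product, mem_range, mem_range]
    constructor
    · by_contra h
      exact hne (by rw [ha _ (by omega)]; simp)
    · by_contra h
      exact hne (by rw [hb _ (by omega)]; simp)
  · rintro ⟨k, p⟩ hp _ ⟨k', p'⟩ hp' _ h
    simp only [mem_sigma, mem_range, HasAntidiagonal.mem_antidiagonal] at hp hp'
    simp only at h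
    subst h
    obtain ⟨_, rfl⟩ := hp
    obtain ⟨_, rfl⟩ := hp'
    rfl
  · rintro ⟨i, j⟩ hp hne
    rw [mem_product, mem_range, mem_range] at hp
    simp only at hp hne
    refine ⟨⟨i + j, (i, j)⟩, ?_, ?_, rfl⟩
    · simp only [mem_sigma, mem_range, HasAntidiagonal.mem_antidiagonal, and_true]
      omega
    · exact hne
  · rintro ⟨k, p⟩ hp hne
    rfl

/-- product of packed series -/
def mul (w n M s μ x y : ℕ) : ℕ := red w n M s μ ((x * y) &&& (2 ^ (w * n) - 1))

lemma rep_mul {w n M s μ : ℕ} (ok : Ok w n M s μ) {x y : ℕ} {f g : PowerSeries (ZMod M)}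
    (hx : Rep w n M x f) (hy : Rep w n M y g) : Rep w n M (mul w n M s μ x y) (f * g) := by
  have hB := two_pow_pos' w
  set a : ℕ → ℕ := fun k => if k < n then dg (2 ^ w) x k else 0 with ha
  set b : ℕ → ℕ := fun k => if k < n then dg (2 ^ w) y k else 0 with hb
  have haM : ∀ k, a k ≤ 2 * M := by
    intro k
    simp only [ha]
    split_ifs
    · exact (hx.lt k).le
    · exact Nat.zero_le _
  have hbM : ∀ k, b k ≤ 2 * M := by
    intro k
    simp only [hb]
    split_ifs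
    · exact (hy.lt k).le
    · exact Nat.zero_le _
  have ha0 : ∀ k, n ≤ k → a k = 0 := fun k hk => by simp only [ha]; rw [if_neg (by omega)]
  have hb0 : ∀ k, n ≤ k → b k = 0 := fun k hk => by simp only [hb]; rw [if_neg (by omega)]
  have hc : ∀ k, ∑ p ∈ antidiagonal k, a p.1 * b p.2 < 2 ^ s := by
    intro k
    have h1 : ∑ p ∈ antidiagonal k, a p.1 * b p.2 ≤
        ∑ p ∈ (antidiagonal k).filter (fun p => p.1 < n), (2 * M) * (2 * M) := by
      rw [sum_filter]
      refine sum_le_sum fun p _ => ?_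
      split_ifs with h
      · exact Nat.mul_le_mul (haM _) (hbM _)
      · rw [ha0 _ (by omega)]; simp
    have h2 : ((antidiagonal k).filter (fun p => p.1 < n)).card ≤ n := by
      calc ((antidiagonal k).filter (fun p => p.1 < n)).card ≤ (range n).card := by
            refine card_le_card_of_injOn (fun p => p.1) ?_ ?_
            · intro p hp
              simp only [coe_filter, Set.mem_ofPred_eq] at hp
              simp only [coe_range, Set.mem_Iio]
              exact hp.2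
            · intro p hp q hq h
              simp only [coe_filter, Set.mem_ofPred_eq, HasAntidiagonal.mem_antidiagonal] at hp hq
              simp only at h
              ext
              · exact h
              · omega
        _ = n := card_range _
    rw [sum_const, smul_eq_mul] at h1
    calc _ ≤ _ := h1
      _ ≤ n * ((2 * M) * (2 * M)) := Nat.mul_le_mul_right _ h2
      _ = 4 * n * M * M := by ring
      _ < 2 ^ s := ok.h1
  have hc' : ∀ k, ∑ p ∈ antidiagonal k, a p.1 * b p.2 < 2 ^ w := fun k =>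
    lt_of_lt_of_le (hc k) (Nat.pow_le_pow_right (by norm_num) ok.hs)
  have e : x * y = ∑ k ∈ range (n + n), (∑ p ∈ antidiagonal k, a p.1 * b p.2) * (2 ^ w) ^ k := by
    rw [← packed_mul (2 ^ w) a b _ ha0 hb0]
    conv_lhs => rw [eq_sum_dg hB x _ hx.bd, eq_sum_dg hB y _ hy.bd]
    congr 1
    · refine sum_congr rfl fun k hk => ?_
      simp only [ha]
      rw [if_pos (mem_range.1 hk)]
    · refine sum_congr rfl fun k hk => ?_
      simp only [hb]
      rw [if_pos (mem_range.1 hk)]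
  have e2 : (x * y) &&& (2 ^ (w * n) - 1) =
      ∑ k ∈ range n, (∑ p ∈ antidiagonal k, a p.1 * b p.2) * (2 ^ w) ^ k := by
    rw [Nat.and_two_pow_sub_one_eq_mod, pow_mul, eq_sum_dg hB (x * y % (2 ^ w) ^ n) n
      (Nat.mod_lt _ (pow_pos hB _))]
    refine sum_congr rfl fun k hk => ?_
    rw [mem_range] at hk
    rw [dg_mod hB, if_pos hk, e, dg_sum hB _ hc', if_pos (by omega)]
  rw [mul, e2]
  refine rep_sum ok _ hc fun k hk => ?_
  rw [PowerSeries.coeff_mul]
  push_cast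
  refine sum_congr rfl fun p hp => ?_
  rw [HasAntidiagonal.mem_antidiagonal] at hp
  simp only [ha, hb]
  rw [if_pos (by omega), if_pos (by omega), hx.co _ (by omega), hy.co _ (by omega)]

lemma rep_one {w n M : ℕ} (hw : 0 < w) (hn : 0 < n) (hM : 0 < M) : Rep w n M 1 1 := by
  have hB : 1 < 2 ^ w := Nat.one_lt_two_pow (by omega)
  have h0 : dg (2 ^ w) 1 0 = 1 := by
    rw [dg, pow_zero, Nat.div_one, Nat.mod_eq_of_lt hB]
  have h1 : ∀ k, k ≠ 0 → dg (2 ^ w) 1 k = 0 := by
    intro k hk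
    rw [dg, Nat.div_eq_of_lt (Nat.one_lt_pow hk hB), Nat.zero_mod]
  refine ⟨fun k => ?_, Nat.one_lt_pow (by omega) hB, fun k hk => ?_⟩
  · rcases eq_or_ne k 0 with rfl | hk
    · rw [h0]; omega
    · rw [h1 k hk]; omega
  · rw [PowerSeries.coeff_one]
    split_ifs with h
    · subst h; rw [h0]; simp
    · rw [h1 k h]; simp

lemma rep_congr {w n M : ℕ} {x : ℕ} {f g : PowerSeries (ZMod M)} (h : Rep w n M x f)
    (hfg : ∀ k < n, PowerSeries.coeff k f = PowerSeries.coeff k g) : Rep w n M x g :=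
  ⟨h.lt, h.bd, fun k hk => by rw [h.co k hk, hfg k hk]⟩

/-! ### Inverse of a series with constant coefficient one -/

/-- Newton iteration, packed -/
def newt (w n M s μ x : ℕ) : ℕ → ℕ
  | 0 => 1
  | j + 1 => mul w n M s μ (newt w n M s μ x j)
      (lin w n M s μ 2 (M - 1) 1 (mul w n M s μ x (newt w n M s μ x j)))

/-- Newton iteration -/
noncomputable def newtS {R : Type*} [CommRing R] (D : PowerSeries R) : ℕ → PowerSeries R
  | 0 => 1
  | j + 1 => newtS D j * (2 - D * newtS D j)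

lemma newtS_spec {R : Type*} [CommRing R] (D : PowerSeries R) (hD : PowerSeries.constantCoeff D = 1) (j : ℕ) :
    (PowerSeries.X : PowerSeries R) ^ (2 ^ j) ∣ 1 - D * newtS D j := by
  induction j with
  | zero =>
    rw [pow_zero, pow_one, PowerSeries.X_dvd_iff, newtS, mul_one, map_sub, hD, map_one, sub_self]
  | succ j ih =>
    have e : 1 - D * newtS D (j + 1) = (1 - D * newtS D j) ^ 2 := by rw [newtS]; ring
    rw [e, pow_succ, pow_mul]
    exact pow_dvd_pow_of_dvd ih 2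

lemma rep_newt {w n M s μ : ℕ} (ok : Ok w n M s μ) (hM2 : 2 ≤ M) {x : ℕ} {D : PowerSeries (ZMod M)}
    (hx : Rep w n M x D) (j : ℕ) : Rep w n M (newt w n M s μ x j) (newtS D j) := by
  induction j with
  | zero => exact rep_one ok.hw ok.hn ok.hM
  | succ j ih =>
    rw [newt, newtS]
    refine rep_mul ok ih ?_
    have h1 := rep_lin ok (rep_one (w := w) ok.hw ok.hn ok.hM) (rep_mul ok hx ih) 2 (M - 1) hM2 (Nat.sub_le _ _)
    have e : PowerSeries.C ((2 : ℕ) : ZMod M) * 1 + PowerSeries.C ((M - 1 : ℕ) : ZMod M) * (D * newtS D j) =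
        2 - D * newtS D j := by
      rw [Nat.cast_sub ok.hM, ZMod.natCast_self, Nat.cast_one, zero_sub, map_neg, map_one, Nat.cast_ofNat,
        map_ofNat]
      ring
    rwa [e] at h1

lemma rep_inv {w n M s μ : ℕ} (ok : Ok w n M s μ) (hM2 : 2 ≤ M) {x : ℕ} {D D' : PowerSeries (ZMod M)}
    (hx : Rep w n M x D) (hD : D * D' = 1) (hD0 : PowerSeries.constantCoeff D = 1) {j : ℕ} (hj : n ≤ 2 ^ j) :
    Rep w n M (newt w n M s μ x j) D' := by
  refine rep_congr (rep_newt ok hM2 hx j) fun k hk => ?_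
  have h1 := newtS_spec D hD0 j
  have h2 : D' - newtS D j = D' * (1 - D * newtS D j) := by
    have : D' * (1 - D * newtS D j) = D' - (D * D') * newtS D j := by ring
    rw [this, hD, one_mul]
  have h3 : (PowerSeries.X : PowerSeries (ZMod M)) ^ (2 ^ j) ∣ D' - newtS D j := by
    rw [h2]
    exact Dvd.dvd.mul_left h1 _
  have h4 := (PowerSeries.X_pow_dvd_iff.1 h3) k (by omega)
  rw [map_sub, sub_eq_zero] at h4
  exact h4.symm

end Pool.Agent.KS6_3.Asd
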