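import Pool.Agent.KS6_3.Asd.Tab

/-!
From tables to the values of `∑ c_m a_(p^(l-m)) (E_k / (j - x)^r)` at all `x` in a residue class.
-/

set_option autoImplicit false

namespace Pool.Agent.KS6_3.Asd

open Finset

/-- table of the coefficients of `E * G^i`, `i ≥ 1`, at the powers of `p`, modulo `p ^ e` -/
def IsTab (p e sk : ℕ) (c : ℤ) (j₁ : ℕ) (lm : ℕ) (tab : List (List ℕ)) : Prop :=
  ∀ i < tab.length, ∀ a ≤ lm,
    PowerSeries.coeff (p ^ a) (E (ZMod (p ^ e)) sk c * G (ZMod (p ^ e)) (j₁ : ZMod (p ^ e)) ^ (i + 1)) =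
      (((tab.getD i []).getD a 0 : ℕ) : ZMod (p ^ e))

/-- all rows have the length `L` -/
def lenChk (L : ℕ) : List (List ℕ) → Bool
  | [] => true
  | r :: rs => Nat.beq r.length L && lenChk L rs

lemma lenChk_spec {L : ℕ} {tab : List (List ℕ)} (h : lenChk L tab = true) :
    ∀ i < tab.length, (tab.getD i []).length = L := by
  induction tab with
  | nil => intro i hi; simp at hi
  | cons r rs ih =>
    rw [lenChk, Bool.and_eq_true, Nat.beq_eq] at h
    intro i hi
    rcases i with _ | i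
    · simpa using h.1
    · simpa using ih h.2 i (by simpa using hi)

theorem isTab_of_chk {p e w n M s μ : ℕ} (hM : M = p ^ e) (ok : Ok w n M s μ) {t J v₁ v₂ : ℕ}
    (ok2 : Ok2 w n M s t J v₁ v₂) {sk ck lm : ℕ} (c : ℤ)
    (hc : ((ck : ℕ) : ZMod M) = (c : ZMod M)) {cls : List (ℕ × List (List ℕ))}
    (h : chk w n M s μ t J v₁ v₂ sk ck p cls = true) {j₁ : ℕ} {tab : List (List ℕ)} (hm : (j₁, tab) ∈ cls)
    (hl : lenChk (lm + 1) tab = true) : IsTab p e sk c j₁ lm tab := by
  subst hM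
  intro i hi a ha
  exact chk_spec ok ok2 c hc h (j₁, tab) hm i hi a (by rw [lenChk_spec hl i hi]; omega)

/-- `∑_{i} K_i u^i` -/
def pv : List ℕ → ℕ → ℕ
  | [], _ => 0
  | K :: Ks, u => K + u * pv Ks u

/-- the same modulo `M` -/
def hor (M : ℕ) (Ks : List ℕ) (u : ℕ) : ℕ :=
  List.rec (motive := fun _ => ℕ) 0 (fun K _ ih => Nat.mod (Nat.add K (Nat.mul u ih)) M) Ks

lemma hor_modEq (M : ℕ) (Ks : List ℕ) (u : ℕ) : hor M Ks u ≡ pv Ks u [MOD M] := by
  induction Ks with
  | nil => exact Nat.ModEq.refl _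
  | cons K Ks ih =>
    change (K + u * hor M Ks u) % M ≡ K + u * pv Ks u [MOD M]
    exact (Nat.mod_modEq _ _).trans ((Nat.ModEq.refl K).add ((Nat.ModEq.refl u).mul ih))

lemma hor_lt {M : ℕ} (hM : 0 < M) (Ks : List ℕ) (u : ℕ) : hor M Ks u < M := by
  cases Ks with
  | nil => exact hM
  | cons K Ks => exact Nat.mod_lt _ hM

lemma pv_eq_sum (Ks : List ℕ) (u : ℕ) : pv Ks u = ∑ i ∈ range Ks.length, Ks.getD i 0 * u ^ i := by
  induction Ks with
  | nil => simp [pv]
  | cons K Ks ih =>
    rw [pv, ih, List.length_cons, sum_range_succ', mul_sum]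
    simp only [List.getD_cons_succ, List.getD_cons_zero, pow_zero, mul_one]
    rw [add_comm]
    congr 1
    refine sum_congr rfl fun i _ => ?_
    ring

/-- all elements are divisible by `D` -/
def allDvd (D : ℕ) (Ks : List ℕ) : Bool :=
  List.rec (motive := fun _ => Bool) true (fun K _ ih => and (Nat.beq (Nat.mod K D) 0) ih) Ks

lemma pv_per {D P : ℕ} {Ks : List ℕ} (h : allDvd D Ks = true) {u v : ℕ} (huv : u ≡ v [MOD P]) :
    pv Ks u ≡ pv Ks v [MOD (D * P)] ∧ D ∣ pv Ks u := by
  induction Ks with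
  | nil => exact ⟨Nat.ModEq.refl _, dvd_zero _⟩
  | cons K Ks ih =>
    change and (Nat.beq (K % D) 0) (allDvd D Ks) = true at h
    rw [Bool.and_eq_true, Nat.beq_eq] at h
    obtain ⟨ih1, ih2⟩ := ih h.2
    have hv := (ih h.2)
    constructor
    · rw [pv, pv]
      refine (Nat.ModEq.refl K).add ?_
      obtain ⟨q, hq⟩ := ih2
      have h1 : u * pv Ks u ≡ v * pv Ks u [MOD (D * P)] := by
        rw [hq]
        have e1 : u * (D * q) = D * (u * q) := by ring
        have e2 : v * (D * q) = D * (v * q) := by ring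
        rw [e1, e2]
        exact Nat.ModEq.mul_left' D (huv.mul_right q)
      exact h1.trans ((Nat.ModEq.refl v).mul ih1)
    · rw [pv]
      exact (Nat.dvd_of_mod_eq_zero h.1).add (ih2.mul_left u)

lemma tail_per {D P K : ℕ} {Ks : List ℕ} (h : allDvd D Ks = true) {u v : ℕ} (huv : u ≡ v [MOD P]) :
    pv (K :: Ks) u ≡ pv (K :: Ks) v [MOD (D * P)] := by
  rw [pv, pv]
  refine (Nat.ModEq.refl K).add ?_
  obtain ⟨h1, q, hq⟩ := pv_per h huv
  have h2 : u * pv Ks u ≡ v * pv Ks u [MOD (D * P)] := by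
    rw [hq]
    have e1 : u * (D * q) = D * (u * q) := by ring
    have e2 : v * (D * q) = D * (v * q) := by ring
    rw [e1, e2]
    exact Nat.ModEq.mul_left' D (huv.mul_right q)
  exact h2.trans ((Nat.ModEq.refl v).mul h1)

/-- `∑_m c_m tab(i, l - m)` -/
def lcomb (row : List ℕ) (l : ℕ) (cs : List ℕ) : ℕ → ℕ :=
  List.rec (motive := fun _ => ℕ → ℕ) (fun _ => 0)
    (fun c _ ih m => Nat.add (Nat.mul c (row.getD (Nat.sub l m) 0)) (ih (Nat.succ m))) cs

lemma lcomb_eq (row : List ℕ) (l : ℕ) (cs : List ℕ) (m : ℕ) :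
    lcomb row l cs m = ∑ i ∈ range cs.length, cs.getD i 0 * row.getD (l - (m + i)) 0 := by
  induction cs generalizing m with
  | nil => rfl
  | cons c cs ih =>
    change c * row.getD (l - m) 0 + lcomb row l cs (m + 1) = _
    rw [ih, List.length_cons, sum_range_succ', add_comm]
    simp only [List.getD_cons_succ, List.getD_cons_zero, add_zero]
    congr 1
    refine sum_congr rfl fun i _ => ?_
    congr 2
    omega

/-- `(r + i).choose r` -/
def bin (r i : ℕ) : ℕ := (r + i).descFactorial r / r.factorial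

lemma bin_eq (r i : ℕ) : bin r i = (r + i).choose r := (Nat.choose_eq_descFactorial_div_factorial _ _).symm

/-- the coefficients of the polynomial in `u` -/
def kl (M p r l : ℕ) (cs : List ℕ) : List (List ℕ) → ℕ → List ℕ
  | [], _ => []
  | row :: rows, i => fr ((bin r i * p ^ i * lcomb row l cs 0) % M) fun y => y :: kl M p r l cs rows (i + 1)

lemma kl_length (M p r l : ℕ) (cs : List ℕ) (tab : List (List ℕ)) (i : ℕ) :
    (kl M p r l cs tab i).length = tab.length := by
  induction tab generalizing i with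
  | nil => rfl
  | cons row rows ih => rw [kl, fr_eq, List.length_cons, List.length_cons, ih]

lemma kl_getD (M p r l : ℕ) (cs : List ℕ) (tab : List (List ℕ)) (i a : ℕ) (ha : a < tab.length) :
    (kl M p r l cs tab i).getD a 0 = (bin r (i + a) * p ^ (i + a) * lcomb (tab.getD a []) l cs 0) % M := by
  induction tab generalizing i a with
  | nil => simp at ha
  | cons row rows ih =>
    rw [kl, fr_eq]
    rcases a with _ | a
    · simp
    · rw [List.getD_cons_succ, List.getD_cons_succ, ih _ _ (by simpa using ha)]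
      have : i + 1 + a = i + (a + 1) := by ring
      rw [this]

/-- the condition holds for all `u < U` -/
def allU (P : ℕ → Bool) (U : ℕ) : Bool := Nat.rec (motive := fun _ => Bool) true (fun u ih => and (P u) ih) U

lemma allU_spec {P : ℕ → Bool} {U : ℕ} (h : allU P U = true) : ∀ u < U, P u = true := by
  induction U with
  | zero => intro u hu; omega
  | succ U ih =>
    change and (P U) (allU P U) = true at h
    rw [Bool.and_eq_true] at h
    intro u hu
    rcases Nat.lt_succ_iff_lt_or_eq.1 hu with h1 | rfl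
    · exact ih h.2 u h1
    · exact h.1

/-- second check: `e'` is the exponent of the modulus, `P = p ^ h` the period in `u` -/
def chk2 (p e' h r l : ℕ) (cs : List ℕ) (tab : List (List ℕ)) (cond : ℕ → ℕ → Bool) : Bool :=
  match kl (p ^ e') p r l cs ((tab.drop r).take e') 0 with
  | [] => false
  | K :: Ks => allDvd (p ^ (e' - h)) Ks && allU (fun u => cond u (hor (p ^ e') (K :: Ks) u)) (p ^ h)

theorem chk2_spec {p e sk : ℕ} {c : ℤ} {j₁ lm : ℕ} {tab : List (List ℕ)} (hp : 0 < p)
    (ht : IsTab p e sk c j₁ lm tab) {e' h r l : ℕ} (he : e' ≤ e) (hh : h ≤ e') (hl : l ≤ lm)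
    (hlen : r + e' ≤ tab.length) {cs : List ℕ} {cond : ℕ → ℕ → Bool}
    (hc : chk2 p e' h r l cs tab cond = true) (u : ℕ) :
    ∃ y : ℕ, cond (u % p ^ h) y = true ∧
      ∑ i ∈ range cs.length, ((cs.getD i 0 : ℕ) : ZMod (p ^ e')) *
        PowerSeries.coeff (p ^ (l - i)) (FR (ZMod (p ^ e')) sk c (r + 1) (((j₁ + p * u : ℕ)) : ZMod (p ^ e'))) =
      (y : ZMod (p ^ e')) := by
  set M := p ^ e' with hM
  set tb := (tab.drop r).take e' with htb
  have htl : tb.length = e' := by
    rw [htb, List.length_take, List.length_drop]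
    omega
  -- the table modulo `p ^ e'`
  have htab : ∀ i < e', ∀ a ≤ lm, PowerSeries.coeff (p ^ a) (E (ZMod M) sk c * G (ZMod M) (j₁ : ZMod M) ^ (r + 1 + i)) =
      (((tb.getD i []).getD a 0 : ℕ) : ZMod M) := by
    intro i hi a ha
    have h1 := ht (r + i) (by omega) a ha
    have hdvd : M ∣ p ^ e := pow_dvd_pow p he
    have h2 := congrArg (ZMod.castHom hdvd (ZMod M)) h1
    rw [← PowerSeries.coeff_map, map_mul, map_pow, map_E, map_G, map_natCast, map_natCast] at h2
    have e1 : tb.getD i [] = tab.getD (r + i) [] := by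
      rw [htb, List.getD_eq_getElem?_getD, List.getD_eq_getElem?_getD, List.getElem?_take_of_lt hi,
        List.getElem?_drop]
    rw [e1, ← h2]
    congr 3
    ring
  have hkl : ∀ K Ks, kl M p r l cs tb 0 = K :: Ks → ∀ u : ℕ,
      ∑ i ∈ range cs.length, ((cs.getD i 0 : ℕ) : ZMod M) *
        PowerSeries.coeff (p ^ (l - i)) (FR (ZMod M) sk c (r + 1) (((j₁ + p * u : ℕ)) : ZMod M)) =
      ((pv (K :: Ks) u : ℕ) : ZMod M) := by
    intro K Ks hK u
    have hpe : ((p : ZMod M) * (u : ZMod M)) ^ e' = 0 := by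
      rw [mul_pow, ← Nat.cast_pow, ← hM, ZMod.natCast_self, zero_mul]
    have e1 := FR_add (R := ZMod M) sk c r (j₁ : ZMod M) ((p : ZMod M) * u) hpe
    have e2 : (((j₁ + p * u : ℕ)) : ZMod M) = (j₁ : ZMod M) + (p : ZMod M) * u := by push_cast; ring
    rw [e2, e1, pv_eq_sum, ← hK, kl_length, htl]
    push_cast
    simp only [map_sum, PowerSeries.coeff_C_mul, mul_sum]
    rw [sum_comm]
    refine sum_congr rfl fun i hi => ?_
    rw [mem_range] at hi
    rw [kl_getD _ _ _ _ _ _ _ _ (by omega), zero_add, ZMod.natCast_mod, lcomb_eq, bin_eq]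
    push_cast
    rw [mul_sum, sum_mul]
    refine sum_congr rfl fun m _ => ?_
    rw [htab i hi (l - m) (by omega), zero_add]
    ring
  rw [chk2] at hc
  rcases hK : kl M p r l cs tb 0 with _ | ⟨K, Ks⟩
  · rw [hK] at hc
    simp at hc
  · rw [hK] at hc
    simp only [Bool.and_eq_true] at hc
    refine ⟨hor M (K :: Ks) (u % p ^ h), allU_spec hc.2 _ (Nat.mod_lt _ (pow_pos hp _)), ?_⟩
    rw [hkl K Ks hK u]
    have h1 : pv (K :: Ks) u ≡ pv (K :: Ks) (u % p ^ h) [MOD (p ^ (e' - h) * p ^ h)] :=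
      tail_per hc.1 (Nat.mod_modEq u (p ^ h)).symm
    have e3 : p ^ (e' - h) * p ^ h = M := by rw [hM, ← pow_add]; congr 1; omega
    rw [e3] at h1
    exact (ZMod.natCast_eq_natCast_iff _ _ _).2 (h1.trans (hor_modEq M (K :: Ks) _).symm)

end Pool.Agent.KS6_3.Asd
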