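import Pool.Agent.KS6_3.Asd.Sig

/-!
The series `E_k / (j - x)^r` over an arbitrary commutative ring, and their expansion in `x`.
-/

set_option autoImplicit false

namespace Pool.Agent.KS6_3.Asd

open Finset

section Ring

variable (R : Type*) [CommRing R]

/-- `∑_{m ≥ 1} σ_s(m) q^m` -/
noncomputable def S (s : ℕ) : PowerSeries R :=
  PowerSeries.mk fun m => ((ArithmeticFunction.sigma s m : ℕ) : R)

/-- `1 + c ∑ σ_s(m) q^m` -/
noncomputable def E (s : ℕ) (c : ℤ) : PowerSeries R := 1 + PowerSeries.C (c : R) * S R s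

/-- `(5 d³ + 7 d⁵) / 12` -/
def wf (d : ℕ) : ℕ := (5 * d ^ 3 + 7 * d ^ 5) / 12

/-- `Δ` -/
noncomputable def De : PowerSeries R :=
  lam R wf + PowerSeries.C (100 : R) * S R 3 ^ 2 - PowerSeries.C (147 : R) * S R 5 ^ 2 +
    PowerSeries.C (8000 : R) * S R 3 ^ 3

/-- `E_4³ - x Δ` -/
noncomputable def Dn (x : R) : PowerSeries R := E R 3 240 ^ 3 - PowerSeries.C x * De R

lemma const_S (s : ℕ) : PowerSeries.constantCoeff (S R s) = 0 := by
  rw [← PowerSeries.coeff_zero_eq_constantCoeff_apply, S, PowerSeries.coeff_mk]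
  simp

lemma const_lam (f : ℕ → ℕ) : PowerSeries.constantCoeff (lam R f) = 0 := by
  rw [← PowerSeries.coeff_zero_eq_constantCoeff_apply, lam, PowerSeries.coeff_mk]
  simp

lemma const_De : PowerSeries.constantCoeff (De R) = 0 := by
  rw [De]
  simp only [map_add, map_sub, map_mul, map_pow, const_S, const_lam]
  simp

lemma const_Dn (x : R) : PowerSeries.constantCoeff (Dn R x) = 1 := by
  rw [Dn, E]
  simp only [map_add, map_sub, map_mul, map_pow, const_S, const_De, map_one]
  simp

/-- `1 / (E_4³ - x Δ)` -/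
noncomputable def Di (x : R) : PowerSeries R := PowerSeries.invOfUnit (Dn R x) 1

lemma Dn_mul_Di (x : R) : Dn R x * Di R x = 1 :=
  PowerSeries.mul_invOfUnit _ _ (by rw [const_Dn, Units.val_one])

/-- `1 / (j - x)` -/
noncomputable def G (x : R) : PowerSeries R := De R * Di R x

/-- `E_k / (j - x)^r` -/
noncomputable def FR (s : ℕ) (c : ℤ) (r : ℕ) (x : R) : PowerSeries R := E R s c * G R x ^ r

end Ring

section Map

variable {R S' : Type*} [CommRing R] [CommRing S'] (φ : R →+* S')

lemma map_S (s : ℕ) : PowerSeries.map φ (S R s) = S S' s := by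
  ext n
  rw [PowerSeries.coeff_map, S, S, PowerSeries.coeff_mk, PowerSeries.coeff_mk, map_natCast]

lemma map_lam (f : ℕ → ℕ) : PowerSeries.map φ (lam R f) = lam S' f := by
  ext n
  rw [PowerSeries.coeff_map, lam, lam, PowerSeries.coeff_mk, PowerSeries.coeff_mk, map_natCast]

lemma map_E (s : ℕ) (c : ℤ) : PowerSeries.map φ (E R s c) = E S' s c := by
  rw [E, E, map_add, map_one, map_mul, PowerSeries.map_C, map_intCast, map_S]

lemma map_De : PowerSeries.map φ (De R) = De S' := by
  rw [De, De]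
  simp only [map_add, map_sub, map_mul, map_pow, PowerSeries.map_C, map_ofNat, map_S, map_lam]

lemma map_Dn (x : R) : PowerSeries.map φ (Dn R x) = Dn S' (φ x) := by
  rw [Dn, Dn]
  simp only [map_sub, map_mul, map_pow, PowerSeries.map_C, map_E, map_De]

lemma map_Di (x : R) : PowerSeries.map φ (Di R x) = Di S' (φ x) := by
  have h1 : Dn S' (φ x) * PowerSeries.map φ (Di R x) = 1 := by
    rw [← map_Dn, ← map_mul, Dn_mul_Di, map_one]
  calc PowerSeries.map φ (Di R x) = (Dn S' (φ x) * Di S' (φ x)) * PowerSeries.map φ (Di R x) := by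
        rw [Dn_mul_Di, one_mul]
    _ = (Dn S' (φ x) * PowerSeries.map φ (Di R x)) * Di S' (φ x) := by ring
    _ = Di S' (φ x) := by rw [h1, one_mul]

lemma map_G (x : R) : PowerSeries.map φ (G R x) = G S' (φ x) := by
  rw [G, G, map_mul, map_De, map_Di]

lemma map_FR (s : ℕ) (c : ℤ) (r : ℕ) (x : R) : PowerSeries.map φ (FR R s c r x) = FR S' s c r (φ x) := by
  rw [FR, FR, map_mul, map_pow, map_E, map_G]

end Map

/-! ### Expansion in the parameter -/

lemma geom_step {A : Type*} [CommRing A] (Y : A) (r T : ℕ) :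
    (1 - Y) * ∑ i ∈ range T, ((r + 1 + i).choose (r + 1) : A) * Y ^ i =
      ∑ i ∈ range T, ((r + i).choose r : A) * Y ^ i - ((r + T).choose (r + 1) : A) * Y ^ T := by
  induction T with
  | zero => simp
  | succ T ih =>
    rw [sum_range_succ, sum_range_succ, mul_add, ih]
    have h1 : (r + 1 + T).choose (r + 1) = (r + T).choose r + (r + T).choose (r + 1) := by
      have : r + 1 + T = (r + T) + 1 := by ring
      rw [this, Nat.choose_succ_succ]
    have h2 : (r + (T + 1)).choose (r + 1) = (r + T).choose r + (r + T).choose (r + 1) := by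
      have : r + (T + 1) = (r + T) + 1 := by ring
      rw [this, Nat.choose_succ_succ]
    rw [h1, h2, pow_succ]
    push_cast
    ring

lemma geom_pow {A : Type*} [CommRing A] {Y : A} {T : ℕ} (hY : Y ^ T = 0) (r : ℕ) :
    (∑ i ∈ range T, Y ^ i) ^ (r + 1) = ∑ i ∈ range T, ((r + i).choose r : A) * Y ^ i := by
  have h0 : (1 - Y) * ∑ i ∈ range T, Y ^ i = 1 := by
    rw [mul_neg_geom_sum, hY, sub_zero]
  induction r with
  | zero => simp
  | succ r ih =>
    have h1 := geom_step Y r T
    rw [hY, mul_zero, sub_zero, ← ih] at h1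
    calc (∑ i ∈ range T, Y ^ i) ^ (r + 1 + 1) = (∑ i ∈ range T, Y ^ i) ^ (r + 1) * ∑ i ∈ range T, Y ^ i := pow_succ _ _
      _ = ((1 - Y) * ∑ i ∈ range T, Y ^ i) * ∑ i ∈ range T, ((r + 1 + i).choose (r + 1) : A) * Y ^ i := by
        rw [← h1]; ring
      _ = _ := by rw [h0, one_mul]

lemma FR_add {R : Type*} [CommRing R] (s : ℕ) (c : ℤ) (r : ℕ) (x t : R) {T : ℕ} (ht : t ^ T = 0) :
    FR R s c (r + 1) (x + t) =
      ∑ i ∈ range T, PowerSeries.C (((r + i).choose r : R) * t ^ i) * (E R s c * G R x ^ (r + 1 + i)) := by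
  set Y : PowerSeries R := PowerSeries.C t * G R x with hY
  have hYT : Y ^ T = 0 := by rw [hY, mul_pow, ← map_pow, ht, map_zero, zero_mul]
  have h0 : (1 - Y) * ∑ i ∈ range T, Y ^ i = 1 := by
    rw [mul_neg_geom_sum, hYT, sub_zero]
  have h1 : Dn R (x + t) = Dn R x * (1 - Y) := by
    have h2 : Dn R x * Y = PowerSeries.C t * De R := by
      rw [hY, G]
      calc Dn R x * (PowerSeries.C t * (De R * Di R x)) = (Dn R x * Di R x) * (PowerSeries.C t * De R) := by ring
        _ = _ := by rw [Dn_mul_Di, one_mul]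
    rw [mul_sub, mul_one, h2, Dn, Dn, map_add]
    ring
  have h3 : Di R (x + t) = Di R x * ∑ i ∈ range T, Y ^ i := by
    calc Di R (x + t) = (Dn R x * Di R x) * ((1 - Y) * ∑ i ∈ range T, Y ^ i) * Di R (x + t) := by
          rw [Dn_mul_Di, h0, one_mul, one_mul]
      _ = (Dn R x * (1 - Y) * Di R (x + t)) * (Di R x * ∑ i ∈ range T, Y ^ i) := by ring
      _ = _ := by rw [← h1, Dn_mul_Di, one_mul]
  have h4 : G R (x + t) = G R x * ∑ i ∈ range T, Y ^ i := by
    rw [G, h3, G, mul_assoc]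
  rw [FR, h4, mul_pow, geom_pow hYT, mul_sum, mul_sum]
  refine sum_congr rfl fun i _ => ?_
  rw [hY, mul_pow, map_mul, map_pow, map_natCast, pow_add]
  ring

end Pool.Agent.KS6_3.Asd
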