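import Pool.Agent.KS6_3.Asd.Defs
import Pool.Agent.KS6_3.Asd.Ser

/-!
The `q`-expansions over `ℚ` and their reductions.
-/

set_option autoImplicit false

namespace Pool.Agent.KS6_3.Asd

open Finset

/-- the constant `-2k / B_k` -/
def ck : ℕ → ℤ
  | 4 => 240
  | 6 => -504
  | 8 => 480
  | 10 => -264
  | 14 => -24
  | _ => 0

lemma b3 : bernoulli' 3 = 0 := bernoulli'_eq_zero_of_odd (by decide) (by norm_num)
lemma b5 : bernoulli' 5 = 0 := bernoulli'_eq_zero_of_odd (by decide) (by norm_num)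
lemma b7 : bernoulli' 7 = 0 := bernoulli'_eq_zero_of_odd (by decide) (by norm_num)
lemma b9 : bernoulli' 9 = 0 := bernoulli'_eq_zero_of_odd (by decide) (by norm_num)
lemma b11 : bernoulli' 11 = 0 := bernoulli'_eq_zero_of_odd (by decide) (by norm_num)
lemma b13 : bernoulli' 13 = 0 := bernoulli'_eq_zero_of_odd (by decide) (by norm_num)

lemma b6 : bernoulli' 6 = 1 / 42 := by
  rw [bernoulli'_def]
  simp only [sum_range_succ, sum_range_zero, bernoulli'_zero, bernoulli'_one, bernoulli'_two, b3,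
    bernoulli'_four, b5]
  norm_num [Nat.choose]

lemma b8 : bernoulli' 8 = -1 / 30 := by
  rw [bernoulli'_def]
  simp only [sum_range_succ, sum_range_zero, bernoulli'_zero, bernoulli'_one, bernoulli'_two, b3,
    bernoulli'_four, b5, b6, b7]
  norm_num [Nat.choose]

lemma b10 : bernoulli' 10 = 5 / 66 := by
  rw [bernoulli'_def]
  simp only [sum_range_succ, sum_range_zero, bernoulli'_zero, bernoulli'_one, bernoulli'_two, b3,
    bernoulli'_four, b5, b6, b7, b8, b9]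
  norm_num [Nat.choose]

lemma b12 : bernoulli' 12 = -691 / 2730 := by
  rw [bernoulli'_def]
  simp only [sum_range_succ, sum_range_zero, bernoulli'_zero, bernoulli'_one, bernoulli'_two, b3,
    bernoulli'_four, b5, b6, b7, b8, b9, b10, b11]
  norm_num [Nat.choose]

lemma b14 : bernoulli' 14 = 7 / 6 := by
  rw [bernoulli'_def]
  simp only [sum_range_succ, sum_range_zero, bernoulli'_zero, bernoulli'_one, bernoulli'_two, b3,
    bernoulli'_four, b5, b6, b7, b8, b9, b10, b11, b12, b13]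
  norm_num [Nat.choose]

lemma eis_eq {k : ℕ} (hk : k ∈ ({4, 6, 8, 10, 14} : Finset ℕ)) : eis k = E ℚ (k - 1) (ck k) := by
  have h : ∀ (m : ℕ) (b : ℚ) (c : ℤ), bernoulli m = b → 2 * (m : ℚ) / b = -(c : ℚ) → eis m = E ℚ (m - 1) c := by
    intro m b c h1 h2
    rw [eis, E, h1, h2, S, map_neg]
    ring
  simp only [Finset.mem_insert, Finset.mem_singleton] at hk
  rcases hk with rfl | rfl | rfl | rfl | rfl
  · refine h 4 (-1 / 30) _ (by rw [bernoulli_eq_bernoulli'_of_ne_one (by norm_num), bernoulli'_four]) ?_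
    norm_num [ck]
  · refine h 6 (1 / 42) _ (by rw [bernoulli_eq_bernoulli'_of_ne_one (by norm_num), b6]) ?_
    norm_num [ck]
  · refine h 8 (-1 / 30) _ (by rw [bernoulli_eq_bernoulli'_of_ne_one (by norm_num), b8]) ?_
    norm_num [ck]
  · refine h 10 (5 / 66) _ (by rw [bernoulli_eq_bernoulli'_of_ne_one (by norm_num), b10]) ?_
    norm_num [ck]
  · refine h 14 (7 / 6) _ (by rw [bernoulli_eq_bernoulli'_of_ne_one (by norm_num), b14]) ?_
    norm_num [ck]

lemma twelve_dvd (d : ℕ) : 12 ∣ 5 * d ^ 3 + 7 * d ^ 5 := by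
  have h : ∀ x : ZMod 12, 5 * x ^ 3 + 7 * x ^ 5 = 0 := by decide
  have h2 := h (d : ZMod 12)
  have h3 : ((5 * d ^ 3 + 7 * d ^ 5 : ℕ) : ZMod 12) = 0 := by push_cast; exact h2
  exact (ZMod.natCast_eq_zero_iff _ _).1 h3

lemma lam_w : PowerSeries.C (12 : ℚ) * lam ℚ wf = PowerSeries.C (5 : ℚ) * S ℚ 3 + PowerSeries.C (7 : ℚ) * S ℚ 5 := by
  ext n
  rw [map_add, PowerSeries.coeff_C_mul, PowerSeries.coeff_C_mul, PowerSeries.coeff_C_mul]
  rw [lam, S, S, PowerSeries.coeff_mk, PowerSeries.coeff_mk, PowerSeries.coeff_mk,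
    ArithmeticFunction.sigma_apply, ArithmeticFunction.sigma_apply]
  have h : 12 * ∑ d ∈ n.divisors, wf d = 5 * ∑ d ∈ n.divisors, d ^ 3 + 7 * ∑ d ∈ n.divisors, d ^ 5 := by
    rw [Finset.mul_sum, Finset.mul_sum, Finset.mul_sum, ← Finset.sum_add_distrib]
    refine Finset.sum_congr rfl fun d _ => ?_
    exact Nat.mul_div_cancel' (twelve_dvd d)
  exact_mod_cast h

lemma discr_eq : discr = De ℚ := by
  have h := lam_w
  have e4 : eis 4 = E ℚ 3 240 := eis_eq (k := 4) (by decide)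
  have e6 : eis 6 = E ℚ 5 (-504) := eis_eq (k := 6) (by decide)
  have hC : ∀ n : ℕ, PowerSeries.C ((n : ℕ) : ℚ) = ((n : ℕ) : PowerSeries ℚ) := fun n => map_natCast _ n
  have c12 : PowerSeries.C (12 : ℚ) = (12 : PowerSeries ℚ) := by exact_mod_cast hC 12
  have c5 : PowerSeries.C (5 : ℚ) = (5 : PowerSeries ℚ) := by exact_mod_cast hC 5
  have c7 : PowerSeries.C (7 : ℚ) = (7 : PowerSeries ℚ) := by exact_mod_cast hC 7
  have c100 : PowerSeries.C (100 : ℚ) = (100 : PowerSeries ℚ) := by exact_mod_cast hC 100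
  have c147 : PowerSeries.C (147 : ℚ) = (147 : PowerSeries ℚ) := by exact_mod_cast hC 147
  have c8000 : PowerSeries.C (8000 : ℚ) = (8000 : PowerSeries ℚ) := by exact_mod_cast hC 8000
  have c240 : PowerSeries.C (((240 : ℤ)) : ℚ) = (240 : PowerSeries ℚ) := by exact_mod_cast hC 240
  have c504 : PowerSeries.C (((-504 : ℤ)) : ℚ) = (-504 : PowerSeries ℚ) := by
    have h5 : PowerSeries.C (504 : ℚ) = (504 : PowerSeries ℚ) := by exact_mod_cast hC 504
    have h6 : (((-504 : ℤ)) : ℚ) = -(504 : ℚ) := by norm_num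
    rw [h6, map_neg, h5]
  have c1728 : (1728 : PowerSeries ℚ) * PowerSeries.C (1 / 1728) = 1 := by
    have : (1728 : PowerSeries ℚ) = PowerSeries.C (1728 : ℚ) := by exact_mod_cast (hC 1728).symm
    rw [this, ← map_mul]
    norm_num
  rw [c12, c5, c7] at h
  have e : (1728 : PowerSeries ℚ) * discr = (1728 : PowerSeries ℚ) * De ℚ := by
    rw [discr, ← mul_assoc, c1728, one_mul, e4, e6, E, E, c240, c504, De, c100, c147, c8000]
    linear_combination (-144 : PowerSeries ℚ) * h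
  have h0 : (1728 : PowerSeries ℚ) ≠ 0 := by
    intro h1
    rw [h1, zero_mul] at c1728
    exact zero_ne_one c1728
  exact mul_left_cancel₀ h0 e

lemma F_eq {k : ℕ} (hk : k ∈ ({4, 6, 8, 10, 14} : Finset ℕ)) (r : ℕ) (x : ℚ) (hD : De ℚ ≠ 0) :
    F k r x = HahnSeries.ofPowerSeries ℤ ℚ (FR ℚ (k - 1) (ck k) r x) := by
  have hinj := HahnSeries.ofPowerSeries_injective (Γ := ℤ) (R := ℚ)
  set io : PowerSeries ℚ →+* LaurentSeries ℚ := HahnSeries.ofPowerSeries ℤ ℚ with hio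
  have hD' : io (De ℚ) ≠ 0 := by
    intro h
    exact hD (hinj (by rw [h, map_zero]))
  have hDn : io (Dn ℚ x) * io (Di ℚ x) = 1 := by rw [← map_mul, Dn_mul_Di, map_one]
  have hDn0 : io (Dn ℚ x) ≠ 0 := by
    intro h
    rw [h, zero_mul] at hDn
    exact zero_ne_one hDn
  have hC : (HahnSeries.C x : LaurentSeries ℚ) = io (PowerSeries.C x) := by
    rw [hio, HahnSeries.ofPowerSeries_C]
  have e4 : eis 4 = E ℚ 3 240 := eis_eq (k := 4) (by decide)
  have h1 : jq - HahnSeries.C x = io (Dn ℚ x) / io (De ℚ) := by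
    rw [jq, discr_eq, e4, hC, Dn, map_sub, map_mul, map_pow, ← hio]
    field_simp
  have h2 : io (Di ℚ x) = (io (Dn ℚ x))⁻¹ := (inv_eq_of_mul_eq_one_right hDn).symm
  rw [F, h1, eis_eq hk, FR, G, map_mul, map_pow, map_mul, h2, ← hio, div_eq_mul_inv, ← inv_pow, inv_div,
    div_eq_mul_inv]

lemma De_ne : De ℚ ≠ 0 := by
  intro h
  have h1 : PowerSeries.coeff 1 (De ℚ) = 1 := by
    have c1 : ∀ f g : PowerSeries ℚ, PowerSeries.coeff 1 (f * g) =
        PowerSeries.coeff 0 f * PowerSeries.coeff 1 g + PowerSeries.coeff 1 f * PowerSeries.coeff 0 g := by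
      intro f g
      rw [PowerSeries.coeff_mul, Nat.antidiagonal_succ]
      simp
    have h3 : ∀ s, PowerSeries.coeff 0 (S ℚ s) = 0 := fun s => by
      rw [PowerSeries.coeff_zero_eq_constantCoeff_apply, const_S]
    have h4 : PowerSeries.coeff 1 (lam ℚ wf) = 1 := by
      rw [lam, PowerSeries.coeff_mk]
      simp [wf]
    rw [De, map_add, map_sub, map_add, PowerSeries.coeff_C_mul, PowerSeries.coeff_C_mul, PowerSeries.coeff_C_mul,
      pow_two, pow_two, pow_succ, pow_two, c1, c1, c1, c1, h3, h3, h4]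
    have h5 : PowerSeries.coeff 0 (S ℚ 3 * S ℚ 3) = 0 := by
      rw [PowerSeries.coeff_zero_eq_constantCoeff_apply, map_mul, const_S, zero_mul]
    rw [h5]
    ring
  rw [h] at h1
  simp at h1

lemma a_nat {k : ℕ} (hk : k ∈ ({4, 6, 8, 10, 14} : Finset ℕ)) (r : ℕ) (x : ℚ) (m : ℕ) :
    a k r x (m : ℚ) = PowerSeries.coeff m (FR ℚ (k - 1) (ck k) r x) := by
  rw [a, if_pos (Rat.den_natCast m), Rat.num_natCast, F_eq hk r x De_ne,
    HahnSeries.ofPowerSeries_apply_coeff]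

lemma a_frac (k r : ℕ) (x : ℚ) {p : ℕ} (hp : 1 < p) {l i : ℕ} (h : l < i) :
    a k r x (((1 : ℕ) : ℚ) * (p : ℚ) ^ ((l : ℤ) - (i : ℤ))) = 0 := by
  rw [a, if_neg]
  have e : ((1 : ℕ) : ℚ) * (p : ℚ) ^ ((l : ℤ) - (i : ℤ)) = ((p ^ (i - l) : ℕ) : ℚ)⁻¹ := by
    have h1 : ((l : ℤ) - (i : ℤ)) = -((i - l : ℕ) : ℤ) := by omega
    rw [h1, zpow_neg, zpow_natCast, Nat.cast_one, one_mul, Nat.cast_pow]
  rw [e, Rat.inv_natCast_den]
  have h2 : 1 < p ^ (i - l) := Nat.one_lt_pow (by omega) hp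
  split_ifs with h3
  · omega
  · omega

lemma a_pow {k : ℕ} (hk : k ∈ ({4, 6, 8, 10, 14} : Finset ℕ)) (r : ℕ) (x : ℚ) {p : ℕ} {l i : ℕ}
    (h : i ≤ l) : a k r x (((1 : ℕ) : ℚ) * (p : ℚ) ^ ((l : ℤ) - (i : ℤ))) =
      PowerSeries.coeff (p ^ (l - i)) (FR ℚ (k - 1) (ck k) r x) := by
  rw [← a_nat hk]
  congr 1
  have h1 : ((l : ℤ) - (i : ℤ)) = ((l - i : ℕ) : ℤ) := by omega
  rw [h1, zpow_natCast]
  push_cast
  ring

end Pool.Agent.KS6_3.Asd
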