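import Mathlib

/-!
The coefficients of `∏ (X - α^(k-2-i) β^i)` in terms of `(α + β)²` and `α β`.
-/

set_option autoImplicit false

namespace Pool.Agent.KS6_3.Asd

open Finset

/-- the polynomial with the given coefficients, lowest first -/
noncomputable def toP : List ℤ → Polynomial ℤ
  | [] => 0
  | a :: L => Polynomial.C a + Polynomial.X * toP L

/-- sum of lists -/
def addL : List ℤ → List ℤ → List ℤ
  | [], M => M
  | L, [] => L
  | a :: L, b :: M => (a + b) :: addL L M

lemma toP_addL (L M : List ℤ) : toP (addL L M) = toP L + toP M := by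
  induction L generalizing M with
  | nil => simp [addL, toP]
  | cons a L ih =>
    cases M with
    | nil => simp [addL, toP]
    | cons b M =>
      rw [addL, toP, toP, toP, ih, map_add]
      ring

lemma toP_map (c : ℤ) (L : List ℤ) : toP (L.map (c * ·)) = Polynomial.C c * toP L := by
  induction L with
  | nil => simp [toP]
  | cons a L ih =>
    rw [List.map_cons, toP, toP, ih, map_mul]
    ring

/-- multiplication by `X² + b X + c` -/
def mulQ (b c : ℤ) (L : List ℤ) : List ℤ := addL (L.map (c * ·)) (0 :: addL (L.map (b * ·)) (0 :: L))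

lemma toP_mulQ (b c : ℤ) (L : List ℤ) :
    toP (mulQ b c L) = (Polynomial.X ^ 2 + Polynomial.C b * Polynomial.X + Polynomial.C c) * toP L := by
  rw [mulQ, toP_addL, toP_map, toP, toP_addL, toP_map, toP, map_zero]
  ring

lemma length_addL (L M : List ℤ) : (addL L M).length = max L.length M.length := by
  induction L generalizing M with
  | nil => simp [addL]
  | cons a L ih =>
    cases M with
    | nil => simp [addL]
    | cons b M =>
      rw [addL, List.length_cons, ih, List.length_cons, List.length_cons]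
      omega

lemma length_mulQ (b c : ℤ) (L : List ℤ) : (mulQ b c L).length = L.length + 2 := by
  rw [mulQ, length_addL, List.length_map, List.length_cons, length_addL, List.length_map, List.length_cons]
  omega

lemma coeff_toP (L : List ℤ) (j : ℕ) : (toP L).coeff j = L.getD j 0 := by
  induction L generalizing j with
  | nil => simp [toP]
  | cons a L ih =>
    rw [toP]
    cases j with
    | zero => simp
    | succ j =>
      rw [Polynomial.coeff_add, Polynomial.coeff_C_succ, Polynomial.coeff_X_mul, ih, zero_add, List.getD_cons_succ]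

lemma toP_eq_sum (L : List ℤ) : toP L = ∑ j ∈ range L.length, Polynomial.C (L.getD j 0) * Polynomial.X ^ j := by
  induction L with
  | nil => simp [toP]
  | cons a L ih =>
    rw [toP, List.length_cons, sum_range_succ', ih, mul_sum]
    simp only [List.getD_cons_succ, List.getD_cons_zero, pow_zero, mul_one]
    rw [add_comm]
    congr 1
    refine sum_congr rfl fun j _ => ?_
    ring

/-- `α^(2n) + β^(2n)` for `(α + β)² = T`, `α β = p` -/
def es (T p : ℤ) : ℕ → ℤ
  | 0 => 2
  | 1 => T - 2 * p
  | n + 2 => (T - 2 * p) * es T p (n + 1) - p ^ 2 * es T p n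

/-- the partial products -/
def symgo (m : ℕ) (T p : ℤ) : ℕ → List ℤ
  | 0 => [-(p ^ m), 1]
  | i + 1 => mulQ (-(p ^ i * es T p (m - i))) (p ^ (2 * m)) (symgo m T p i)

/-- the coefficients, lowest first -/
def symc (m : ℕ) (T p : ℤ) : List ℤ := symgo m T p m

lemma length_symgo (m : ℕ) (T p : ℤ) (i : ℕ) : (symgo m T p i).length = 2 * i + 2 := by
  induction i with
  | zero => rfl
  | succ i ih => rw [symgo, length_mulQ, ih]; ring

lemma es_eq {α β : ℂ} {t p : ℤ} (h1 : α + β = (t : ℂ)) (h2 : α * β = (p : ℂ)) (n : ℕ) :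
    α ^ (2 * n) + β ^ (2 * n) = ((es (t ^ 2) p n : ℤ) : ℂ) := by
  have h3 : α ^ 2 + β ^ 2 = (t : ℂ) ^ 2 - 2 * p := by rw [← h1, ← h2]; ring
  have h4 : α ^ 2 * β ^ 2 = (p : ℂ) ^ 2 := by rw [← h2]; ring
  induction n using Nat.twoStepInduction with
  | zero => simp [es]; norm_num
  | one =>
    rw [mul_one, h3, es]
    push_cast
    ring
  | more n ih1 ih2 =>
    rw [es]
    push_cast
    rw [← ih1, ← ih2, ← h3, ← h4]
    ring

lemma mapC (z : ℤ) : Polynomial.map (Int.castRingHom ℂ) (Polynomial.C z) = Polynomial.C (z : ℂ) := by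
  rw [Polynomial.map_C]
  rfl

lemma prod_eq {α β : ℂ} {t p : ℤ} (h1 : α + β = (t : ℂ)) (h2 : α * β = (p : ℂ)) (m : ℕ) :
    ∏ i ∈ range (2 * m + 1), (Polynomial.X - Polynomial.C (α ^ (2 * m - i) * β ^ i)) =
      Polynomial.map (Int.castRingHom ℂ) (toP (symc m (t ^ 2) p)) := by
  have hgo : ∀ i ≤ m, Polynomial.map (Int.castRingHom ℂ) (toP (symgo m (t ^ 2) p i)) =
      (∏ j ∈ range i, (Polynomial.X - Polynomial.C (α ^ (2 * m - j) * β ^ j)) *
        (Polynomial.X - Polynomial.C (α ^ j * β ^ (2 * m - j)))) *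
      (Polynomial.X - Polynomial.C (α ^ m * β ^ m)) := by
    intro i hi
    induction i with
    | zero =>
      rw [symgo, toP, toP, toP, prod_range_zero, one_mul, ← mul_pow, h2]
      simp
      ring
    | succ i ih =>
      rw [symgo, toP_mulQ, Polynomial.map_mul, ih (by omega), prod_range_succ]
      have e1 : (Polynomial.X - Polynomial.C (α ^ (2 * m - i) * β ^ i)) *
          (Polynomial.X - Polynomial.C (α ^ i * β ^ (2 * m - i))) =
          Polynomial.map (Int.castRingHom ℂ) (Polynomial.X ^ 2 +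
            Polynomial.C (-(p ^ i * es (t ^ 2) p (m - i))) * Polynomial.X + Polynomial.C (p ^ (2 * m))) := by
        have e2 : α ^ (2 * m - i) * β ^ i + α ^ i * β ^ (2 * m - i) = ((p ^ i * es (t ^ 2) p (m - i) : ℤ) : ℂ) := by
          obtain ⟨d, hd⟩ : ∃ d, m = i + d := ⟨m - i, by omega⟩
          have e3 : m - i = d := by omega
          have e4 : 2 * m - i = i + 2 * d := by omega
          rw [e3, e4]
          push_cast
          rw [← es_eq h1 h2 d, ← h2]
          ring
        have e5 : α ^ (2 * m - i) * β ^ i * (α ^ i * β ^ (2 * m - i)) = ((p ^ (2 * m) : ℤ) : ℂ) := by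
          have e6 : 2 * m = i + (2 * m - i) := by omega
          push_cast
          rw [← h2]
          calc α ^ (2 * m - i) * β ^ i * (α ^ i * β ^ (2 * m - i)) = (α * β) ^ (i + (2 * m - i)) := by
                rw [pow_add, mul_pow, mul_pow]; ring
            _ = (α * β) ^ (2 * m) := by rw [← e6]
        simp only [Polynomial.map_add, Polynomial.map_mul, Polynomial.map_pow, Polynomial.map_X, mapC]
        rw [← e5, Int.cast_neg, ← e2]
        simp only [map_neg, map_add, map_mul]
        ring
      rw [← e1]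
      ring
  rw [symc, hgo m le_rfl]
  have e7 : 2 * m + 1 = m + 1 + m := by ring
  rw [e7, prod_range_add, prod_range_succ]
  have e8 : ∏ x ∈ range m, (Polynomial.X - Polynomial.C (α ^ (2 * m - (m + 1 + x)) * β ^ (m + 1 + x))) =
      ∏ j ∈ range m, (Polynomial.X - Polynomial.C (α ^ j * β ^ (2 * m - j))) := by
    rw [← prod_range_reflect]
    refine prod_congr rfl fun j hj => ?_
    rw [mem_range] at hj
    have e9 : 2 * m - (m + 1 + (m - 1 - j)) = j := by omega
    have e10 : m + 1 + (m - 1 - j) = 2 * m - j := by omega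
    rw [e9, e10]
  rw [e8, prod_mul_distrib]
  have e11 : 2 * m - m = m := by omega
  rw [e11]
  ring

/-- the coefficients in the question are those of the list -/
theorem coef_eq {α β : ℂ} {t p : ℤ} (h1 : α + β = (t : ℂ)) (h2 : α * β = (p : ℂ)) (m k : ℕ) (hk : k = 2 * m + 2)
    (c : ℕ → ℤ) (hc : ∏ i ∈ range (k - 1), (Polynomial.X - Polynomial.C (α ^ (k - 2 - i) * β ^ i)) =
      ∑ i ∈ range k, Polynomial.C (c i : ℂ) * Polynomial.X ^ (k - 1 - i)) :
    ∀ i < k, c i = (symc m (t ^ 2) p).getD (k - 1 - i) 0 := by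
  subst hk
  intro i hi
  have e1 : 2 * m + 2 - 1 = 2 * m + 1 := by omega
  have e2 : ∀ i, 2 * m + 2 - 2 - i = 2 * m - i := fun i => by omega
  simp only [e1, e2] at hc
  rw [prod_eq h1 h2 m] at hc
  have h3 := congrArg (fun P => Polynomial.coeff P (2 * m + 1 - i)) hc
  simp only [Polynomial.coeff_map, coeff_toP, Polynomial.finsetSum_coeff, Polynomial.coeff_C_mul,
    Polynomial.coeff_X_pow] at h3
  rw [Finset.sum_eq_single_of_mem i (mem_range.2 hi)] at h3
  · rw [if_pos rfl, mul_one, eq_intCast] at h3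
    rw [e1]
    exact_mod_cast h3.symm
  · intro j hj hne
    rw [mem_range] at hj
    rw [if_neg (by omega), mul_zero]

theorem coef_exists {α β : ℂ} {t p : ℤ} (h1 : α + β = (t : ℂ)) (h2 : α * β = (p : ℂ)) (m k : ℕ)
    (hk : k = 2 * m + 2) : ∏ i ∈ range (k - 1), (Polynomial.X - Polynomial.C (α ^ (k - 2 - i) * β ^ i)) =
      ∑ i ∈ range k, Polynomial.C (((symc m (t ^ 2) p).getD (k - 1 - i) 0 : ℤ) : ℂ) * Polynomial.X ^ (k - 1 - i) := by
  subst hk
  have e1 : 2 * m + 2 - 1 = 2 * m + 1 := by omega
  have e2 : ∀ i, 2 * m + 2 - 2 - i = 2 * m - i := fun i => by omega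
  simp only [e1, e2]
  rw [prod_eq h1 h2 m, toP_eq_sum, Polynomial.map_sum, symc, length_symgo]
  rw [← sum_range_reflect]
  refine sum_congr rfl fun j _ => ?_
  simp only [Polynomial.map_mul, Polynomial.map_pow, Polynomial.map_X, mapC]
  have e3 : 2 * m + 2 - 1 - j = 2 * m + 1 - j := by omega
  rw [e3]

theorem exists_roots (s t : ℂ) : ∃ α β : ℂ, α + β = s ∧ α * β = t := by
  obtain ⟨z, hz⟩ := IsAlgClosed.exists_pow_nat_eq (s ^ 2 - 4 * t) (n := 2) (by norm_num)
  refine ⟨(s + z) / 2, (s - z) / 2, by ring, ?_⟩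
  have : (s + z) / 2 * ((s - z) / 2) = (s ^ 2 - z ^ 2) / 4 := by ring
  rw [this, hz]
  ring

end Pool.Agent.KS6_3.Asd
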