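import Pool.Agent.KS6_3.Asd.Count
import Pool.Agent.KS6_3.Asd.QExp
import Pool.Agent.KS6_3.Asd.Poly
import Pool.Agent.KS6_3.Asd.Sym

/-!
From the tables to the left side of the congruence for all curves.
-/

set_option autoImplicit false

namespace Pool.Agent.KS6_3.Asd

open Finset

section

variable {p : ℕ} [hpp : Fact p.Prime]

lemma congZero_iff {q : ℚ} {y : ℤ_[p]} (h : (y : ℚ_[p]) = (q : ℚ_[p])) (e : ℕ) :
    CongZero p (e : ℤ) q ↔ PadicInt.toZModPow e y = 0 := by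
  have h1 : PadicInt.toZModPow e y = 0 ↔ ‖y‖ ≤ (p : ℝ) ^ (-(e : ℤ)) := by
    rw [PadicInt.norm_le_pow_iff_mem_span_pow, ← PadicInt.ker_toZModPow, RingHom.mem_ker]
  have h2 : ‖y‖ = (padicNorm p q : ℝ) := by rw [PadicInt.norm_def, h, Padic.eq_padicNorm]
  have hp1 : (1 : ℝ) < p := by exact_mod_cast hpp.out.one_lt
  rw [h1, h2, CongZero]
  rcases eq_or_ne q 0 with hq | hq
  · simp only [hq, padicNorm.zero, Rat.cast_zero, true_or, true_iff]
    positivity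
  · rw [padicNorm.eq_zpow_of_nonzero hq]
    push_cast
    rw [zpow_le_zpow_iff_right₀ hp1]
    constructor
    · rintro (h3 | h3)
      · exact absurd h3 hq
      · omega
    · intro h3
      right
      omega

lemma exists_zp {x : ℚ} (hx : 0 ≤ padicValRat p x) : ∃ x' : ℤ_[p], (x' : ℚ_[p]) = (x : ℚ_[p]) := by
  have h1 : ‖(x : ℚ_[p])‖ ≤ 1 := by
    rw [Padic.eq_padicNorm]
    rcases eq_or_ne x 0 with h0 | h0
    · rw [h0, padicNorm.zero]; simp
    · rw [padicNorm.eq_zpow_of_nonzero h0]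
      have hp1 : (1 : ℝ) < p := by exact_mod_cast hpp.out.one_lt
      push_cast
      rw [← zpow_zero (p : ℝ), zpow_le_zpow_iff_right₀ hp1]
      omega
  exact ⟨⟨x, h1⟩, rfl⟩

lemma coeff_cast {x : ℚ} {x' : ℤ_[p]} (h : (x' : ℚ_[p]) = (x : ℚ_[p])) (s : ℕ) (c : ℤ) (r m : ℕ) :
    ((PowerSeries.coeff m (FR ℤ_[p] s c r x') : ℤ_[p]) : ℚ_[p]) =
      ((PowerSeries.coeff m (FR ℚ s c r x) : ℚ) : ℚ_[p]) := by
  have h1 := map_FR (PadicInt.Coe.ringHom (p := p)) s c r x'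
  have h2 := map_FR (Rat.castHom ℚ_[p]) s c r x
  have h3 : (PadicInt.Coe.ringHom (p := p)) x' = (Rat.castHom ℚ_[p]) x := h
  rw [h3, ← h2] at h1
  have h4 := congrArg (PowerSeries.coeff m) h1
  rw [PowerSeries.coeff_map, PowerSeries.coeff_map] at h4
  exact h4

lemma coeff_red (x' : ℤ_[p]) (s : ℕ) (c : ℤ) (r m e : ℕ) :
    PadicInt.toZModPow e (PowerSeries.coeff m (FR ℤ_[p] s c r x')) =
      PowerSeries.coeff m (FR (ZMod (p ^ e)) s c r (PadicInt.toZModPow e x')) := by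
  rw [← map_FR, PowerSeries.coeff_map]

/-- the residues of the list of integers are those of the list of natural numbers -/
def chkC (M : ℕ) (cs : List ℕ) (cz : ℕ → ℤ) : ℕ → Bool
  | 0 => true
  | i + 1 => decide (((cs.getD i 0 : ℕ) : ℤ) % (M : ℤ) = cz i % (M : ℤ)) && chkC M cs cz i

lemma chkC_spec {M : ℕ} {cs : List ℕ} {cz : ℕ → ℤ} {n : ℕ} (h : chkC M cs cz n = true) :
    ∀ i < n, ((cs.getD i 0 : ℕ) : ZMod M) = ((cz i : ℤ) : ZMod M) := by
  induction n with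
  | zero => intro i hi; omega
  | succ n ih =>
    rw [chkC, Bool.and_eq_true, decide_eq_true_eq] at h
    intro i hi
    rcases Nat.lt_succ_iff_lt_or_eq.1 hi with h1 | rfl
    · exact ih h.2 i h1
    · have h2 := (ZMod.intCast_eq_intCast_iff _ _ M).2 h.1
      exact_mod_cast h2

/-- `X` is the left side, `N` the residue of the `j`-invariant and `y` the residue of `X` modulo `p ^ e'` -/
def Out (W : WeierstrassCurve ℤ) (p k r l e' j₁ h : ℕ) (cond : ℕ → ℕ → Bool) : Prop :=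
  ∃ (X : ℚ) (N y : ℕ), (∀ y', IsLhs W p k r 1 l y' ↔ y' = X) ∧
    (∀ m : ℕ, m ≤ e' → ∀ z : ℤ, (CongZero p m (jInv W - z) ↔ ((p ^ m : ℕ) : ℤ) ∣ (N : ℤ) - z)) ∧ N % p = j₁ ∧
    cond (N / p % p ^ h) y = true ∧ (∀ m : ℕ, m ≤ e' → (CongZero p m X ↔ p ^ m ∣ y))

theorem main {W : WeierstrassCurve ℤ} (hW : Applies W p) {k r l m a e e' h j₁ lm : ℕ}
    (hk : k ∈ ({4, 6, 8, 10, 14} : Finset ℕ)) (hkm : k = 2 * m + 2) (hchk : chkAp p j₁ a = true)
    (hj₁ : CongZero p 1 (jInv W - j₁)) (hj₁p : j₁ < p) {tab : List (List ℕ)}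
    (ht : IsTab p e (k - 1) (ck k) j₁ lm tab) (he : e' ≤ e) (he1 : 1 ≤ e') (hh : h ≤ e') (hl : l ≤ lm)
    (hlen : r + e' ≤ tab.length) {cs : List ℕ} (hcs : cs.length ≤ k) (hcl : cs.length ≤ l + 1)
    (hcl' : k ≤ l + 1 → cs.length = k) (hcl'' : l + 1 ≤ k → cs.length = l + 1)
    (hcc : chkC (p ^ e') cs (fun i => (symc m ((a : ℤ) ^ 2) p).getD (k - 1 - i) 0) cs.length = true)
    {cond : ℕ → ℕ → Bool} (hc2 : chk2 p e' h r l cs tab cond = true) :
    Out W p k (r + 1) l e' j₁ h cond := by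
  have hp0 : 0 < p := hpp.out.pos
  obtain ⟨x', hx'⟩ := exists_zp (p := p) (x := jInv W) (le_of_eq hW.val.symm)
  -- the residue of the `j`-invariant
  have : NeZero (p ^ e') := ⟨(pow_pos hp0 _).ne'⟩
  set N : ℕ := (PadicInt.toZModPow e' x').val with hN
  have hNx : ((N : ℕ) : ZMod (p ^ e')) = PadicInt.toZModPow e' x' := by rw [hN, ZMod.natCast_zmod_val]
  have hres : ∀ m ≤ e', ∀ z : ℤ, CongZero p m (jInv W - z) ↔ ((p ^ m : ℕ) : ℤ) ∣ (N : ℤ) - z := by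
    intro m hm z
    have h1 : ((x' - (z : ℤ_[p]) : ℤ_[p]) : ℚ_[p]) = ((jInv W - z : ℚ) : ℚ_[p]) := by
      push_cast
      rw [hx']
    rw [congZero_iff h1, map_sub, map_intCast, ← PadicInt.zmod_cast_comp_toZModPow m e' hm, RingHom.comp_apply, ← hNx,
      map_natCast, ← ZMod.intCast_zmod_eq_zero_iff_dvd]
    push_cast
    rfl
  have hj₁' : CongZero p ((1 : ℕ) : ℤ) (jInv W - ((j₁ : ℤ) : ℚ)) := by
    rw [Int.cast_natCast]; exact_mod_cast hj₁
  have hNj : N % p = j₁ := by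
    have h1 := (hres 1 he1 (j₁ : ℤ)).1 hj₁'
    rw [pow_one] at h1
    have h2 : (N : ℤ) % p = (j₁ : ℤ) % p := (Int.emod_emod_of_dvd _ dvd_rfl).symm.trans
      ((Int.emod_emod_of_dvd _ dvd_rfl).trans (Int.emod_eq_emod_iff_emod_sub_eq_zero.2 (Int.emod_eq_zero_of_dvd h1)))
    have h3 : N % p = j₁ % p := by exact_mod_cast h2
    rw [h3, Nat.mod_eq_of_lt hj₁p]
  -- the trace of Frobenius
  have hΔ0 : (W.Δ : ℚ) ≠ 0 := by
    intro h1
    have : W.Δ = 0 := by exact_mod_cast h1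
    exact hW.good (by rw [this]; exact dvd_zero _)
  have hdvd : (p : ℤ) ∣ W.c₄ ^ 3 - j₁ * W.Δ := by
    have h1 : (W.c₄ : ℚ) ^ 3 - j₁ * W.Δ = (jInv W - j₁) * W.Δ := by
      rw [jInv]
      field_simp
    have h2 : (((x' - (j₁ : ℤ_[p])) * (W.Δ : ℤ_[p]) : ℤ_[p]) : ℚ_[p]) = ((W.c₄ ^ 3 - j₁ * W.Δ : ℤ) : ℚ_[p]) := by
      have h3 : (((W.c₄ ^ 3 - j₁ * W.Δ : ℤ) : ℚ) : ℚ_[p]) = (((jInv W - j₁) * W.Δ : ℚ) : ℚ_[p]) := by
        rw [← h1]; push_cast; rfl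
      rw [Rat.cast_intCast] at h3
      rw [h3]
      push_cast
      rw [hx']
    have h4 : ((W.c₄ ^ 3 - j₁ * W.Δ : ℤ) : ℤ_[p]) = (x' - (j₁ : ℤ_[p])) * (W.Δ : ℤ_[p]) := by
      apply PadicInt.ext
      rw [h2]
      push_cast
      rfl
    have h5 : PadicInt.toZModPow 1 ((W.c₄ ^ 3 - j₁ * W.Δ : ℤ) : ℤ_[p]) = 0 := by
      rw [h4, map_mul]
      have h6 : ((x' - (j₁ : ℤ_[p]) : ℤ_[p]) : ℚ_[p]) = ((jInv W - j₁ : ℚ) : ℚ_[p]) := by
        push_cast
        rw [hx']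
      have h7 := (congZero_iff h6 1).1 (by exact_mod_cast hj₁)
      rw [h7, zero_mul]
    rw [map_intCast, ZMod.intCast_zmod_eq_zero_iff_dvd, pow_one] at h5
    exact h5
  have hap := ap_sq hchk hW.good hdvd
  -- the coefficients
  set cz : ℕ → ℤ := fun i => (symc m ((a : ℤ) ^ 2) p).getD (k - 1 - i) 0 with hcz
  set X : ℚ := ∑ i ∈ range k, (cz i : ℚ) * Asd.a k (r + 1) (jInv W) (((1 : ℕ) : ℚ) * (p : ℚ) ^ ((l : ℤ) - (i : ℤ)))
    with hX
  have hIs : ∀ y', IsLhs W p k (r + 1) 1 l y' ↔ y' = X := by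
    intro y'
    constructor
    · rintro ⟨α, β, c, h1, h2, h3, rfl⟩
      rw [hX]
      refine sum_congr rfl fun i hi => ?_
      have h2' : α * β = ((p : ℤ) : ℂ) := by rw [h2]; push_cast; rfl
      have h4 := coef_eq h1 h2' m k hkm c h3 i (mem_range.1 hi)
      rw [hap] at h4
      rw [h4]
    · rintro rfl
      obtain ⟨α, β, h1, h2⟩ := exists_roots (ap W p : ℂ) (p : ℂ)
      have h2' : α * β = ((p : ℤ) : ℂ) := by rw [h2]; push_cast; rfl
      have h3 := coef_exists h1 h2' m k hkm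
      rw [hap] at h3
      exact ⟨α, β, cz, h1, h2, h3, rfl⟩
  -- the integral version
  set Y : ℤ_[p] := ∑ i ∈ range cs.length, ((cz i : ℤ) : ℤ_[p]) *
    PowerSeries.coeff (p ^ (l - i)) (FR ℤ_[p] (k - 1) (ck k) (r + 1) x') with hY
  have hXr : X = ∑ i ∈ range cs.length, (cz i : ℚ) *
      PowerSeries.coeff (p ^ (l - i)) (FR ℚ (k - 1) (ck k) (r + 1) (jInv W)) := by
    rw [hX]
    rw [← sum_subset (range_subset_range.2 hcs)]
    · refine sum_congr rfl fun i hi => ?_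
      rw [mem_range] at hi
      rw [a_pow hk (r + 1) (jInv W) (by omega)]
    · intro i hi hi2
      rw [mem_range] at hi hi2
      rw [a_frac k (r + 1) (jInv W) hpp.out.one_lt (by omega), mul_zero]
  have hYX : (Y : ℚ_[p]) = (X : ℚ_[p]) := by
    rw [hY, hXr]
    have e1 : ∀ y : ℤ_[p], (y : ℚ_[p]) = PadicInt.Coe.ringHom y := fun y => rfl
    rw [e1, map_sum, Rat.cast_sum]
    refine sum_congr rfl fun i _ => ?_
    rw [map_mul, map_intCast, ← e1, coeff_cast hx', Rat.cast_mul, Rat.cast_intCast]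
  obtain ⟨y, hy1, hy2⟩ := chk2_spec hp0 ht he hh hl hlen hc2 (N / p)
  have hNd : j₁ + p * (N / p) = N := by rw [← hNj]; exact Nat.mod_add_div N p
  rw [hNd, hNx] at hy2
  have hYr : PadicInt.toZModPow e' Y = (y : ZMod (p ^ e')) := by
    rw [hY, map_sum, ← hy2]
    refine sum_congr rfl fun i hi => ?_
    rw [mem_range] at hi
    rw [map_mul, map_intCast, coeff_red, chkC_spec hcc i hi]
  refine ⟨X, N, y, hIs, hres, hNj, hy1, fun m' hm' => ?_⟩
  rw [congZero_iff hYX, ← PadicInt.zmod_cast_comp_toZModPow m' e' hm', RingHom.comp_apply, hYr, map_natCast,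
    ZMod.natCast_eq_zero_iff]

end

end Pool.Agent.KS6_3.Asd
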