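import Pool.Agent.KS6_3.Asd.Kron

/-!
Packed divisor sums `∑_{m < n} (∑_{d ∣ m} f d) q^m`, by the hyperbola method.
-/

set_option autoImplicit false

namespace Pool.Agent.KS6_3.Asd

open Finset

/-- balanced evaluation of `∑_{i < 2^j} f (a + i) * 2^(v*i)` -/
def ser (f : ℕ → ℕ) (v : ℕ) (j : ℕ) : ℕ → ℕ :=
  Nat.rec (motive := fun _ => ℕ → ℕ) (fun a => f a)
    (fun j ih a => Nat.add (ih a) (Nat.shiftLeft (ih (Nat.add a (Nat.pow 2 j))) (Nat.mul v (Nat.pow 2 j)))) j

lemma ser_zero (f : ℕ → ℕ) (v a : ℕ) : ser f v 0 a = f a := rfl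

lemma ser_succ (f : ℕ → ℕ) (v j a : ℕ) :
    ser f v (j + 1) a = ser f v j a + (ser f v j (a + 2 ^ j)) <<< (v * 2 ^ j) := rfl

lemma ser_eq (f : ℕ → ℕ) (v j a : ℕ) : ser f v j a = ∑ i ∈ range (2 ^ j), f (a + i) * (2 ^ v) ^ i := by
  induction j generalizing a with
  | zero => simp [ser_zero]
  | succ j ih =>
    rw [ser_succ, ih, ih, pow_succ, mul_two, sum_range_add, Nat.shiftLeft_eq, sum_mul]
    congr 1
    refine sum_congr rfl fun i _ => ?_
    rw [add_assoc, mul_assoc, pow_add, mul_comm ((2 ^ v) ^ (2 ^ j)), pow_mul]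

/-- one if `m < n`, otherwise zero -/
def ind (n m : ℕ) : ℕ := Nat.sub 1 (Nat.sub (Nat.succ m) n)

lemma ind_eq (n m : ℕ) : ind n m = if m < n then 1 else 0 := by
  change 1 - (m + 1 - n) = _
  split_ifs with h <;> omega

/-- the pairs `(d, m)` and `(m, d)` with `m ≥ d` -/
def row (f : ℕ → ℕ) (w n d : ℕ) : ℕ :=
  Nat.shiftLeft (Nat.sub (ser (fun m => Nat.mul (ind n (Nat.mul m d)) (Nat.add (f d) (f m))) (Nat.mul w d)
    (Nat.succ (Nat.log2 (Nat.sub (Nat.div (Nat.sub n 1) d) d))) d) (Nat.mul (ind n (Nat.mul d d)) (f d)))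
    (Nat.mul (Nat.mul w d) d)

lemma row_def (f : ℕ → ℕ) (w n d : ℕ) : row f w n d =
    (ser (fun m => ind n (m * d) * (f d + f m)) (w * d) (Nat.log2 ((n - 1) / d - d) + 1) d -
      ind n (d * d) * f d) <<< (w * d * d) := rfl

/-- sum of the rows -/
def rows (f : ℕ → ℕ) (w n s : ℕ) : ℕ :=
  Nat.rec (motive := fun _ => ℕ) 0 (fun s ih => Nat.add ih (row f w n (Nat.succ s))) s

lemma rows_succ (f : ℕ → ℕ) (w n s : ℕ) : rows f w n (s + 1) = rows f w n s + row f w n (s + 1) := rfl

/-- `B^(d m)` if `0 < d m < n` -/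
def U (B n d m : ℕ) : ℕ := if d * m < n ∧ d * m ≠ 0 then B ^ (d * m) else 0

lemma U_comm (B n d m : ℕ) : U B n d m = U B n m d := by unfold U; rw [mul_comm]

lemma row_eq (f : ℕ → ℕ) (w n d : ℕ) (hd : 0 < d) :
    row f w n d = ∑ m ∈ range n, ((if d ≤ m then f d else 0) + (if d < m then f m else 0)) * U (2 ^ w) n d m := by
  set B := 2 ^ w with hB
  set h : ℕ → ℕ := fun m => (if m * d < n then (if m = d then f d else f d + f m) else 0) * B ^ (d * m) with hh
  set J := Nat.log2 ((n - 1) / d - d) + 1 with hJ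
  have e1 : row f w n d = ∑ m ∈ Ico d (d + 2 ^ J), h m := by
    obtain ⟨t, ht⟩ : ∃ t, 2 ^ J = t + 1 := ⟨2 ^ J - 1, by have := two_pow_pos' J; omega⟩
    have hterm : ∀ m, d ≤ m → (if m * d < n then (if m = d then f d else f d + f m) else 0) =
        ind n (m * d) * (if m = d then f d else f d + f m) := by
      intro m _
      rw [ind_eq]
      split_ifs <;> simp
    rw [row_def, ser_eq, Nat.shiftLeft_eq, sum_Ico_eq_sum_range, Nat.add_sub_cancel_left, ← hJ, ht,
      sum_range_succ', sum_range_succ']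
    have e4 : ∑ i ∈ range t, ind n ((d + (i + 1)) * d) * (f d + f (d + (i + 1))) * (2 ^ (w * d)) ^ (i + 1) +
        ind n ((d + 0) * d) * (f d + f (d + 0)) * (2 ^ (w * d)) ^ 0 - ind n (d * d) * f d =
        ∑ i ∈ range t, ind n ((d + (i + 1)) * d) * (f d + f (d + (i + 1))) * (2 ^ (w * d)) ^ (i + 1) +
        ind n (d * d) * f d := by
      rw [add_zero, pow_zero, mul_one, mul_add, ← add_assoc, Nat.add_sub_cancel]
    rw [e4, add_mul, sum_mul]
    congr 1
    · refine sum_congr rfl fun i _ => ?_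
      simp only [hh]
      rw [hterm (d + (i + 1)) (by omega), if_neg (by omega)]
      have e2 : (2 ^ (w * d)) ^ (i + 1) * 2 ^ (w * d * d) = B ^ (d * (d + (i + 1))) := by
        rw [hB, ← pow_mul, ← pow_add, ← pow_mul]
        congr 1
        ring
      rw [mul_assoc, e2]
    · simp only [hh]
      rw [hterm (d + 0) (by omega), if_pos (by omega), add_zero]
      have e2 : 2 ^ (w * d * d) = B ^ (d * d) := by
        rw [hB, ← pow_mul]
        congr 1
        ring
      rw [e2]
  have e3 : ∑ m ∈ Ico d (d + 2 ^ J), h m = ∑ m ∈ (range n).filter (fun m => d ≤ m ∧ m * d < n), h m := by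
    symm
    refine sum_subset ?_ ?_
    · intro m hm
      rw [mem_filter, mem_range] at hm
      rw [mem_Ico]
      refine ⟨hm.2.1, ?_⟩
      have h1 : m ≤ (n - 1) / d := by
        rw [Nat.le_div_iff_mul_le hd]
        omega
      have h2 : (n - 1) / d - d < 2 ^ J := Nat.lt_log2_self
      omega
    · intro m hm hm2
      rw [mem_Ico] at hm
      rw [mem_filter, mem_range] at hm2
      simp only [hh]
      rw [if_neg, zero_mul]
      intro h1
      apply hm2
      refine ⟨?_, hm.1, h1⟩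
      have : m * 1 ≤ m * d := Nat.mul_le_mul_left _ hd
      omega
  rw [e1, e3, sum_filter]
  refine sum_congr rfl fun m _ => ?_
  unfold U
  by_cases h1 : d ≤ m
  · by_cases h2 : m * d < n
    · rw [if_pos ⟨h1, h2⟩, if_pos h1]
      have h3 : d * m < n ∧ d * m ≠ 0 := ⟨by rw [mul_comm]; exact h2, Nat.mul_ne_zero (by omega) (by omega)⟩
      rw [if_pos h3]
      simp only [hh]
      rw [if_pos h2]
      congr 1
      by_cases h4 : m = d
      · rw [if_pos h4, if_neg (by omega), add_zero]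
      · rw [if_neg h4, if_pos (by omega)]
    · rw [if_neg (fun h => h2 h.2)]
      have h3 : ¬ (d * m < n ∧ d * m ≠ 0) := fun h => h2 (by rw [mul_comm]; exact h.1)
      rw [if_neg h3, mul_zero]
  · rw [if_neg (fun h => h1 h.1), if_neg h1, if_neg (by omega)]
    simp

lemma rows_eq (f : ℕ → ℕ) (w n s : ℕ) :
    rows f w n s = ∑ d ∈ range s, row f w n (d + 1) := by
  induction s with
  | zero => simp [rows]
  | succ s ih => rw [rows_succ, ih, sum_range_succ]

lemma div_sum (f : ℕ → ℕ) (n N : ℕ) (hN : N < n) :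
    ∑ d ∈ N.divisors, f d = ∑ d ∈ range n, ∑ m ∈ range n, if d * m = N ∧ N ≠ 0 then f d else 0 := by
  have e1 : ∀ d ∈ range n, (∑ m ∈ range n, if d * m = N ∧ N ≠ 0 then f d else 0) =
      if d ∣ N ∧ N ≠ 0 then f d else 0 := by
    intro d _
    split_ifs with h
    · obtain ⟨⟨m, rfl⟩, h0⟩ := h
      have hd : 0 < d := Nat.pos_of_ne_zero fun h => h0 (by rw [h, zero_mul])
      have hm : m < n := by
        have : 1 * m ≤ d * m := Nat.mul_le_mul_right _ hd
        omega
      rw [sum_eq_single_of_mem m (mem_range.2 hm), if_pos ⟨rfl, h0⟩]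
      intro m' _ hne
      rw [if_neg]
      rintro ⟨h1, _⟩
      exact hne (Nat.eq_of_mul_eq_mul_left hd h1)
    · refine sum_eq_zero fun m _ => ?_
      rw [if_neg]
      rintro ⟨h1, h2⟩
      exact h ⟨⟨m, h1.symm⟩, h2⟩
  rw [sum_congr rfl e1, ← sum_filter]
  refine sum_congr ?_ fun _ _ => rfl
  ext d
  rw [Nat.mem_divisors, mem_filter, mem_range]
  constructor
  · intro h
    exact ⟨lt_of_le_of_lt (Nat.le_of_dvd (Nat.pos_of_ne_zero h.2) h.1) hN, h⟩
  · exact fun h => h.2

lemma sig_eq (f : ℕ → ℕ) (B n : ℕ) :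
    ∑ N ∈ range n, (∑ d ∈ N.divisors, f d) * B ^ N = ∑ d ∈ range n, ∑ m ∈ range n, f d * U B n d m := by
  have e1 : ∀ N ∈ range n, (∑ d ∈ N.divisors, f d) * B ^ N =
      ∑ d ∈ range n, ∑ m ∈ range n, if d * m = N ∧ N ≠ 0 then f d * B ^ N else 0 := by
    intro N hN
    rw [div_sum f n N (mem_range.1 hN), sum_mul]
    refine sum_congr rfl fun d _ => ?_
    rw [sum_mul]
    refine sum_congr rfl fun m _ => ?_
    rw [ite_mul, zero_mul]
  rw [sum_congr rfl e1, sum_comm]
  refine sum_congr rfl fun d _ => ?_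
  rw [sum_comm]
  refine sum_congr rfl fun m _ => ?_
  unfold U
  by_cases h : d * m < n ∧ d * m ≠ 0
  · rw [if_pos h, sum_eq_single_of_mem (d * m) (mem_range.2 h.1), if_pos ⟨rfl, h.2⟩]
    intro N _ hne
    rw [if_neg]
    rintro ⟨h1, _⟩
    exact hne h1.symm
  · rw [if_neg h, mul_zero]
    refine sum_eq_zero fun N hN => ?_
    rw [if_neg]
    rintro ⟨rfl, h2⟩
    exact h ⟨mem_range.1 hN, h2⟩

theorem rows_spec (f : ℕ → ℕ) (w n s : ℕ) (hs : n ≤ (s + 1) * (s + 1)) :
    rows f w n s = ∑ N ∈ range n, (∑ d ∈ N.divisors, f d) * (2 ^ w) ^ N := by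
  rw [sig_eq]
  set B := 2 ^ w with hB
  set R : ℕ → ℕ := fun d =>
    ∑ m ∈ range n, ((if d ≤ m then f d else 0) + (if d < m then f m else 0)) * U B n d m with hR
  have hR0 : R 0 = 0 := by
    simp only [hR]
    refine sum_eq_zero fun m _ => ?_
    have hU : U B n 0 m = 0 := by
      unfold U
      rw [if_neg]
      rintro ⟨_, h2⟩
      exact h2 (zero_mul m)
    rw [hU, mul_zero]
  have hRn : ∀ d, n ≤ d → R d = 0 := by
    intro d hd
    simp only [hR]
    refine sum_eq_zero fun m hm => ?_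
    rw [mem_range] at hm
    rw [if_neg (by omega), if_neg (by omega)]
    simp
  have hRs : ∀ d, s + 1 ≤ d → R d = 0 := by
    intro d hd
    simp only [hR]
    refine sum_eq_zero fun m hm => ?_
    by_cases h1 : d ≤ m
    · have h2 : (s + 1) * (s + 1) ≤ d * m := Nat.mul_le_mul hd (hd.trans h1)
      have hU : U B n d m = 0 := by
        unfold U
        rw [if_neg]
        rintro ⟨h3, _⟩
        exact absurd (h2.trans_lt h3) (not_lt.2 hs)
      rw [hU, mul_zero]
    · rw [if_neg h1, if_neg (by omega)]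
      simp
  have e1 : rows f w n s = ∑ d ∈ range (s + 1), R d := by
    rw [rows_eq, sum_range_succ', hR0, add_zero]
    exact sum_congr rfl fun d _ => row_eq f w n (d + 1) (Nat.succ_pos d)
  have e2 : ∑ d ∈ range (s + 1), R d = ∑ d ∈ range (s + 1 + n), R d := by
    refine sum_subset (range_subset_range.2 (by omega)) fun d _ hd => hRs d ?_
    rw [mem_range] at hd
    omega
  have e3 : ∑ d ∈ range n, R d = ∑ d ∈ range (s + 1 + n), R d := by
    refine sum_subset (range_subset_range.2 (by omega)) fun d _ hd => hRn d ?_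
    rw [mem_range] at hd
    omega
  rw [e1, e2, ← e3]
  -- split the square into two triangles
  have e4 : ∀ d m, f d * U B n d m = (if d ≤ m then f d else 0) * U B n d m + (if m < d then f d else 0) * U B n d m := by
    intro d m
    by_cases h : d ≤ m
    · rw [if_pos h, if_neg (by omega), zero_mul, add_zero]
    · rw [if_neg h, if_pos (by omega), zero_mul, zero_add]
  have e5 : ∑ d ∈ range n, ∑ m ∈ range n, (if m < d then f d else 0) * U B n d m =
      ∑ d ∈ range n, ∑ m ∈ range n, (if d < m then f m else 0) * U B n d m := by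
    rw [sum_comm]
    refine sum_congr rfl fun m _ => sum_congr rfl fun d _ => ?_
    rw [U_comm]
  simp only [hR, add_mul, sum_add_distrib]
  rw [← e5, ← sum_add_distrib]
  refine sum_congr rfl fun d _ => ?_
  rw [← sum_add_distrib]
  exact sum_congr rfl fun m _ => (e4 d m).symm

/-- the series `∑_{m ≥ 1} (∑_{d ∣ m} f d) q^m` -/
noncomputable def lam (R : Type*) [CommRing R] (f : ℕ → ℕ) : PowerSeries R :=
  PowerSeries.mk fun m => ((∑ d ∈ m.divisors, f d : ℕ) : R)

lemma rep_rows {w n M s μ : ℕ} (ok : Ok w n M s μ) (f : ℕ → ℕ) (hf : ∀ d, f d ≤ M) (t : ℕ)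
    (ht : n ≤ (t + 1) * (t + 1)) : Rep w n M (red w n M s μ (rows f w n t)) (lam (ZMod M) f) := by
  have h0 : ∀ k < n, ∑ d ∈ k.divisors, f d < 2 ^ s := by
    intro k hk
    have h1 : ∑ d ∈ k.divisors, f d ≤ ∑ d ∈ k.divisors, M := sum_le_sum fun d _ => hf d
    have h2 : k.divisors.card ≤ k := Nat.card_divisors_le_self k
    rw [sum_const, smul_eq_mul] at h1
    have h3 : k.divisors.card * M ≤ n * M := Nat.mul_le_mul_right _ (by omega)
    have h4 : n * M * 1 ≤ n * M * (4 * M) := Nat.mul_le_mul_left _ (by have := ok.hM; omega)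
    have h5 : n * M * (4 * M) = 4 * n * M * M := by ring
    have := ok.h1
    omega
  have e : rows f w n t = ∑ k ∈ range n, (if k < n then ∑ d ∈ k.divisors, f d else 0) * (2 ^ w) ^ k := by
    rw [rows_spec f w n t ht]
    refine sum_congr rfl fun k hk => ?_
    rw [if_pos (mem_range.1 hk)]
  rw [e]
  refine rep_sum ok _ (fun k => ?_) fun k hk => ?_
  · split_ifs with h
    · exact h0 k h
    · positivity
  · rw [if_pos hk, lam, PowerSeries.coeff_mk]

end Pool.Agent.KS6_3.Asd
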