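import Pool.Agent.KS6_3.Asd.Ser

/-!
Kernel computation of tables of the coefficients of `E_k / (j - j₁)^i` at the powers of a prime.
-/

set_option autoImplicit false

namespace Pool.Agent.KS6_3.Asd

open Finset

/-- evaluation of the argument before the call -/
def fr {α : Type} (x : ℕ) (k : ℕ → α) : α := Nat.rec (motive := fun _ => α) (k 0) (fun n _ => k (Nat.succ n)) x

lemma fr_eq {α : Type} (x : ℕ) (k : ℕ → α) : fr x k = k x := by cases x <;> rfl

/-- Newton iteration with evaluation -/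
def newt' (w n M s μ x j : ℕ) : ℕ :=
  Nat.rec (motive := fun _ => ℕ) 1 (fun _ ih => fr ih fun y =>
    mul w n M s μ y (lin w n M s μ 2 (Nat.sub M 1) 1 (mul w n M s μ x y))) j

lemma newt'_succ (w n M s μ x j : ℕ) : newt' w n M s μ x (j + 1) = fr (newt' w n M s μ x j) fun y =>
    mul w n M s μ y (lin w n M s μ 2 (M - 1) 1 (mul w n M s μ x y)) := rfl

lemma newt'_eq (w n M s μ x j : ℕ) : newt' w n M s μ x j = newt w n M s μ x j := by
  induction j with
  | zero => rfl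
  | succ j ih => rw [newt, ← ih, newt'_succ, fr_eq]

/-- `d^3 + 2^v₁ d^5 + 2^v₂ (d^s % M)` -/
def fcomb (v₁ v₂ s M d : ℕ) : ℕ :=
  Nat.add (Nat.pow d 3) (Nat.add (Nat.shiftLeft (Nat.pow d 5) v₁) (Nat.shiftLeft (Nat.mod (Nat.pow d s) M) v₂))

/-- the bits `o, …, o + t - 1` of each slot -/
def sub (w n o t x : ℕ) : ℕ := (x >>> o) &&& msk w n t

lemma sub_eq {w n o t : ℕ} (hw : 0 < w) (hot : o + t ≤ w) (a : ℕ → ℕ) (ha : ∀ k, a k < 2 ^ w) :
    sub w n o t (∑ k ∈ range n, a k * (2 ^ w) ^ k) = ∑ k ∈ range n, (a k / 2 ^ o % 2 ^ t) * (2 ^ w) ^ k := by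
  have hB := two_pow_pos' w
  set x := ∑ k ∈ range n, a k * (2 ^ w) ^ k with hx
  have hlt : sub w n o t x < (2 ^ w) ^ n := by
    have h1 : sub w n o t x ≤ msk w n t := Nat.and_le_right
    refine lt_of_le_of_lt h1 ?_
    rw [msk_eq hw]
    refine sum_lt (two_pow_pos' w) (fun _ => 2 ^ t - 1) (fun _ => ?_) n
    have h1 : 2 ^ t ≤ 2 ^ w := Nat.pow_le_pow_right (by norm_num) (by omega)
    have h2 := two_pow_pos' t
    omega
  rw [eq_sum_dg hB _ n hlt]
  refine sum_congr rfl fun k hk => ?_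
  rw [mem_range] at hk
  have e1 : dg (2 ^ w) (sub w n o t x) k = ((x >>> o) >>> (w * k)) &&& dg (2 ^ w) (msk w n t) k := by
    rw [← dgs_eq, ← dgs_eq, dgs, dgs, sub, Nat.shiftRight_and_distrib, ← Nat.and_two_pow_sub_one_eq_mod,
      ← Nat.and_two_pow_sub_one_eq_mod, Nat.and_assoc]
  have e2 : dg (2 ^ w) x k = a k := by rw [hx, dg_sum hB _ ha, if_pos hk]
  rw [e1, dg_msk hw (by omega), if_pos hk, Nat.and_two_pow_sub_one_eq_mod, ← Nat.shiftRight_add, Nat.add_comm,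
    Nat.shiftRight_add, ← e2, ← dgs_eq, dgs]
  congr 1
  obtain ⟨c, rfl⟩ : ∃ c, w = o + t + c := ⟨w - (o + t), by omega⟩
  set z := x >>> ((o + t + c) * k) with hz
  rw [Nat.shiftRight_eq_div_pow]
  have e3 : z % 2 ^ (o + t + c) / 2 ^ o = z / 2 ^ o % 2 ^ (t + c) := by
    have : o + t + c = o + (t + c) := by ring
    rw [this, pow_add, Nat.mod_mul_right_div_self]
  rw [e3, pow_add, Nat.mod_mul_right_mod]

/-- packed `1 / (j - j₁)` from packed `E_4³` and `Δ` -/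
def gp (w n M s μ J e43 de j₁ : ℕ) : ℕ :=
  fr (lin w n M s μ (1 % M) (M - j₁ % M) e43 de) fun dn => mul w n M s μ de (newt' w n M s μ dn J)

/-- packed `E_4` -/
def e4p (w n M s μ a3 : ℕ) : ℕ := lin w n M s μ (1 % M) (240 % M) 1 a3

/-- packed `Δ` -/
def dep (w n M s μ a3 a5 aw : ℕ) : ℕ :=
  fr (mul w n M s μ a3 a3) fun b3 =>
    lin w n M s μ (1 % M) (1 % M) (lin w n M s μ (1 % M) (100 % M) aw b3)
      (lin w n M s μ (M - 147 % M) (8000 % M) (mul w n M s μ a5 a5) (mul w n M s μ b3 a3))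

lemma rep_lin' {w n M s μ : ℕ} (ok : Ok w n M s μ) {x y : ℕ} {f g h : PowerSeries (ZMod M)}
    (hx : Rep w n M x f) (hy : Rep w n M y g) (u v : ℕ) (hu : u ≤ M) (hv : v ≤ M)
    (e : PowerSeries.C (u : ZMod M) * f + PowerSeries.C (v : ZMod M) * g = h) :
    Rep w n M (lin w n M s μ u v x y) h := by
  have := rep_lin ok hx hy u v hu hv
  rwa [e] at this

lemma mod_le' {M : ℕ} (hM : 0 < M) (a : ℕ) : a % M ≤ M := (Nat.mod_lt _ hM).le

lemma cast_sub_mod {M : ℕ} (hM : 0 < M) (a : ℕ) : ((M - a % M : ℕ) : ZMod M) = -(a : ZMod M) := by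
  rw [Nat.cast_sub (mod_le' hM a), ZMod.natCast_self, ZMod.natCast_mod, zero_sub]

lemma rep_e4p {w n M s μ : ℕ} (ok : Ok w n M s μ) {a3 : ℕ} (h3 : Rep w n M a3 (S (ZMod M) 3)) :
    Rep w n M (e4p w n M s μ a3) (E (ZMod M) 3 240) := by
  refine rep_lin' ok (rep_one ok.hw ok.hn ok.hM) h3 _ _ (mod_le' ok.hM _) (mod_le' ok.hM _) ?_
  rw [E, ZMod.natCast_mod, ZMod.natCast_mod]
  simp

lemma rep_dep {w n M s μ : ℕ} (ok : Ok w n M s μ) {a3 a5 aw : ℕ} (h3 : Rep w n M a3 (S (ZMod M) 3))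
    (h5 : Rep w n M a5 (S (ZMod M) 5)) (hw : Rep w n M aw (lam (ZMod M) wf)) :
    Rep w n M (dep w n M s μ a3 a5 aw) (De (ZMod M)) := by
  have b3 := rep_mul ok h3 h3
  rw [dep, fr_eq]
  refine rep_lin' ok (rep_lin ok hw b3 _ _ (mod_le' ok.hM _) (mod_le' ok.hM _))
    (rep_lin ok (rep_mul ok h5 h5) (rep_mul ok b3 h3) _ _ (Nat.sub_le _ _) (mod_le' ok.hM _))
    _ _ (mod_le' ok.hM _) (mod_le' ok.hM _) ?_
  rw [De, cast_sub_mod ok.hM]
  simp only [ZMod.natCast_mod, Nat.cast_one, map_one, one_mul, map_neg, Nat.cast_ofNat]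
  ring

lemma rep_gp {w n M s μ : ℕ} (ok : Ok w n M s μ) (hM2 : 2 ≤ M) {J : ℕ} (hJ : n ≤ 2 ^ J) (j₁ : ℕ) {e43 de : ℕ}
    (h4 : Rep w n M e43 (E (ZMod M) 3 240 * E (ZMod M) 3 240 * E (ZMod M) 3 240)) (hd : Rep w n M de (De (ZMod M))) :
    Rep w n M (gp w n M s μ J e43 de j₁) (G (ZMod M) (j₁ : ZMod M)) := by
  have dn := rep_lin' ok h4 hd (1 % M) (M - j₁ % M) (mod_le' ok.hM _) (Nat.sub_le _ _)
    (h := Dn (ZMod M) (j₁ : ZMod M)) (by
      rw [Dn, cast_sub_mod ok.hM]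
      simp only [ZMod.natCast_mod, Nat.cast_one, map_one, one_mul, map_neg]
      ring)
  have inv := rep_inv ok hM2 dn (Dn_mul_Di _ _) (const_Dn _ _) hJ
  have h := rep_mul ok hd inv
  unfold gp
  simp only [fr_eq, newt'_eq]
  exact h

/-- the residues of the coefficients at `p^a, p^(a+1), …` are those of the list -/
def chkRow (w n M p y : ℕ) (row : List ℕ) : ℕ → Bool :=
  List.rec (motive := fun _ => ℕ → Bool) (fun _ => true)
    (fun v _ ih a => and (and (Nat.blt (Nat.pow p a) n) (Nat.beq (Nat.mod (dgs w y (Nat.pow p a)) M) v))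
      (ih (Nat.succ a))) row

/-- check of a table -/
def chkTab (w n M s μ p g : ℕ) (tab : List (List ℕ)) : ℕ → Bool :=
  List.rec (motive := fun _ => ℕ → Bool) (fun _ => true)
    (fun row _ ih x => fr (mul w n M s μ x g) fun y => and (chkRow w n M p y row 0) (ih y)) tab

lemma chkRow_spec {w n M p y : ℕ} {row : List ℕ} {a : ℕ} (h : chkRow w n M p y row a = true) :
    ∀ b < row.length, p ^ (a + b) < n ∧ dg (2 ^ w) y (p ^ (a + b)) % M = row.getD b 0 := by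
  induction row generalizing a with
  | nil => intro b hb; simp at hb
  | cons v row ih =>
    change and (and (Nat.blt (p ^ a) n) (Nat.beq (dgs w y (p ^ a) % M) v)) (chkRow w n M p y row (a + 1)) = true at h
    rw [Bool.and_eq_true, Bool.and_eq_true, Nat.blt_eq, Nat.beq_eq, dgs_eq] at h
    intro b hb
    rcases b with _ | b
    · simpa using h.1
    · have h2 := ih h.2 b (by simpa using hb)
      have e : a + (b + 1) = a + 1 + b := by ring
      rw [e]
      simpa using h2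

lemma chkTab_spec {w n M s μ p g : ℕ} (ok : Ok w n M s μ) {Gs : PowerSeries (ZMod M)} (hg : Rep w n M g Gs)
    {tab : List (List ℕ)} {x : ℕ} {f : PowerSeries (ZMod M)} (hx : Rep w n M x f)
    (h : chkTab w n M s μ p g tab x = true) :
    ∀ i < tab.length, ∀ a < (tab.getD i []).length,
      PowerSeries.coeff (p ^ a) (f * Gs ^ (i + 1)) = (((tab.getD i []).getD a 0 : ℕ) : ZMod M) := by
  induction tab generalizing x f with
  | nil => intro i hi; simp at hi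
  | cons row tab ih =>
    change fr (mul w n M s μ x g) (fun y => and (chkRow w n M p y row 0) (chkTab w n M s μ p g tab y)) = true at h
    rw [fr_eq, Bool.and_eq_true] at h
    have hy := rep_mul ok hx hg
    intro i hi a ha
    rcases i with _ | i
    · rw [List.getD_cons_zero] at ha ⊢
      have h2 := chkRow_spec h.1 a ha
      rw [zero_add] at h2
      rw [zero_add, pow_one, ← h2.2, ZMod.natCast_mod, hy.co _ h2.1]
    · rw [List.getD_cons_succ] at ha ⊢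
      have h2 := ih hy h.2 i (by simpa using hi) a ha
      rw [← h2, mul_assoc, ← pow_succ' Gs]

/-- check for all the classes `j₁` in the list -/
def chkCls (w n M s μ J p e43 de ek : ℕ) (cls : List (ℕ × List (List ℕ))) : Bool :=
  List.rec (motive := fun _ => Bool) true
    (fun c _ ih => and (fr (gp w n M s μ J e43 de c.1) fun g => chkTab w n M s μ p g c.2 ek) ih) cls

/-- the whole check -/
def chk (w n M s μ t J v₁ v₂ sk ck p : ℕ) (cls : List (ℕ × List (List ℕ))) : Bool :=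
  fr (rows (fcomb v₁ v₂ sk M) w n t) fun x => fr (sub w n 0 v₁ x) fun x3 => fr (sub w n v₁ (v₂ - v₁) x) fun x5 =>
  fr (red w n M s μ x3) fun a3 =>
  fr (dep w n M s μ a3 (red w n M s μ x5) (red w n M s μ ((5 * x3 + 7 * x5) / 12))) fun de =>
  fr (e4p w n M s μ a3) fun e4 => fr (mul w n M s μ (mul w n M s μ e4 e4) e4) fun e43 =>
  fr (lin w n M s μ (1 % M) (ck % M) 1 (red w n M s μ (sub w n v₂ (w - v₂) x))) fun ek =>
  chkCls w n M s μ J p e43 de ek cls

/-- the numerical conditions -/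
structure Ok2 (w n M s t J v₁ v₂ : ℕ) : Prop where
  h1 : n ^ 4 < 2 ^ v₁
  h2 : v₁ ≤ v₂
  h3 : v₂ ≤ w
  h4 : n ^ 6 < 2 ^ (v₂ - v₁)
  h5 : n * M < 2 ^ (w - v₂)
  h6 : n * M < 2 ^ s
  h7 : n ^ 6 < 2 ^ s
  h8 : n ≤ (t + 1) * (t + 1)
  h9 : n ≤ 2 ^ J
  h10 : 2 ≤ M

lemma sig_le (n s : ℕ) {k : ℕ} (hk : k < n) : ∑ d ∈ k.divisors, d ^ s ≤ n ^ (s + 1) := by
  calc ∑ d ∈ k.divisors, d ^ s ≤ ∑ d ∈ k.divisors, n ^ s :=
        sum_le_sum fun d hd => Nat.pow_le_pow_left ((Nat.divisor_le hd).trans hk.le) s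
    _ = k.divisors.card * n ^ s := by rw [sum_const, smul_eq_mul]
    _ ≤ n * n ^ s := Nat.mul_le_mul_right _ ((Nat.card_divisors_le_self k).trans hk.le)
    _ = n ^ (s + 1) := by ring

lemma twelve_dvd' (d : ℕ) : 12 ∣ 5 * d ^ 3 + 7 * d ^ 5 := by
  have h : ∀ x : ZMod 12, 5 * x ^ 3 + 7 * x ^ 5 = 0 := by decide
  have h2 := h (d : ZMod 12)
  have h3 : ((5 * d ^ 3 + 7 * d ^ 5 : ℕ) : ZMod 12) = 0 := by push_cast; exact h2
  exact (ZMod.natCast_eq_zero_iff _ _).1 h3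

theorem chk_spec {w n M s μ : ℕ} (ok : Ok w n M s μ) {t J v₁ v₂ : ℕ} (ok2 : Ok2 w n M s t J v₁ v₂)
    {sk ck p : ℕ} (c : ℤ) (hc : ((ck : ℕ) : ZMod M) = (c : ZMod M)) {cls : List (ℕ × List (List ℕ))}
    (h : chk w n M s μ t J v₁ v₂ sk ck p cls = true) :
    ∀ cl ∈ cls, ∀ i < cl.2.length, ∀ a < (cl.2.getD i []).length,
      PowerSeries.coeff (p ^ a) (E (ZMod M) sk c * G (ZMod M) (cl.1 : ZMod M) ^ (i + 1)) =
        (((cl.2.getD i []).getD a 0 : ℕ) : ZMod M) := by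
  have hB := two_pow_pos' w
  -- the three divisor sums
  set A3 : ℕ → ℕ := fun k => if k < n then ∑ d ∈ k.divisors, d ^ 3 else 0 with hA3
  set A5 : ℕ → ℕ := fun k => if k < n then ∑ d ∈ k.divisors, d ^ 5 else 0 with hA5
  set Ak : ℕ → ℕ := fun k => if k < n then ∑ d ∈ k.divisors, (d ^ sk % M) else 0 with hAk
  have l3 : ∀ k, A3 k ≤ n ^ 4 := by
    intro k
    simp only [hA3]
    split_ifs with hk
    · exact sig_le n 3 hk
    · exact Nat.zero_le _
  have l5 : ∀ k, A5 k ≤ n ^ 6 := by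
    intro k
    simp only [hA5]
    split_ifs with hk
    · exact sig_le n 5 hk
    · exact Nat.zero_le _
  have lk : ∀ k, Ak k ≤ n * M := by
    intro k
    simp only [hAk]
    split_ifs with hk
    · calc ∑ d ∈ k.divisors, (d ^ sk % M) ≤ ∑ d ∈ k.divisors, M := sum_le_sum fun d _ => (Nat.mod_lt _ ok.hM).le
        _ = k.divisors.card * M := by rw [sum_const, smul_eq_mul]
        _ ≤ n * M := Nat.mul_le_mul_right _ ((Nat.card_divisors_le_self k).trans hk.le)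
    · exact Nat.zero_le _
  set a : ℕ → ℕ := fun k => A3 k + 2 ^ v₁ * (A5 k + 2 ^ (v₂ - v₁) * Ak k) with ha
  have e1 : rows (fcomb v₁ v₂ sk M) w n t = ∑ k ∈ range n, a k * (2 ^ w) ^ k := by
    rw [rows_spec _ w n t ok2.h8]
    refine sum_congr rfl fun k hk => ?_
    congr 1
    simp only [ha, hA3, hA5, hAk]
    rw [mem_range] at hk
    rw [if_pos hk, if_pos hk, if_pos hk]
    have e3 : ∀ d ∈ k.divisors, fcomb v₁ v₂ sk M d =
        d ^ 3 + 2 ^ v₁ * (d ^ 5 + 2 ^ (v₂ - v₁) * (d ^ sk % M)) := by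
      intro d _
      change d ^ 3 + ((d ^ 5) <<< v₁ + (d ^ sk % M) <<< v₂) = _
      rw [Nat.shiftLeft_eq, Nat.shiftLeft_eq]
      have e2 : 2 ^ v₂ = 2 ^ v₁ * 2 ^ (v₂ - v₁) := by rw [← pow_add]; congr 1; have := ok2.h2; omega
      rw [e2]
      ring
    rw [sum_congr rfl e3, sum_add_distrib, ← mul_sum, sum_add_distrib, ← mul_sum]
  have hp1 := two_pow_pos' v₁
  have hp2 := two_pow_pos' (v₂ - v₁)
  have hlt : ∀ k, a k < 2 ^ w := by
    intro k
    have h1 := (l3 k).trans_lt ok2.h1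
    have h2 := (l5 k).trans_lt ok2.h4
    have h3 := (lk k).trans_lt ok2.h5
    have e2 : 2 ^ w = 2 ^ v₁ * (2 ^ (v₂ - v₁) * 2 ^ (w - v₂)) := by
      rw [← pow_add, ← pow_add]
      congr 1
      have := ok2.h2
      have := ok2.h3
      omega
    rw [e2]
    have h4 : A5 k + 2 ^ (v₂ - v₁) * Ak k < 2 ^ (v₂ - v₁) * 2 ^ (w - v₂) := by
      calc A5 k + 2 ^ (v₂ - v₁) * Ak k < 2 ^ (v₂ - v₁) * (Ak k + 1) := by rw [mul_add, mul_one]; omega
        _ ≤ 2 ^ (v₂ - v₁) * 2 ^ (w - v₂) := Nat.mul_le_mul_left _ h3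
    calc a k < 2 ^ v₁ * (A5 k + 2 ^ (v₂ - v₁) * Ak k + 1) := by
          simp only [ha]
          generalize A5 k + 2 ^ (v₂ - v₁) * Ak k = z
          rw [mul_add (2 ^ v₁) z 1, mul_one]
          omega
      _ ≤ 2 ^ v₁ * (2 ^ (v₂ - v₁) * 2 ^ (w - v₂)) := Nat.mul_le_mul_left _ h4
  have d1 : ∀ k, a k / 2 ^ v₁ = A5 k + 2 ^ (v₂ - v₁) * Ak k := by
    intro k
    simp only [ha]
    rw [Nat.add_mul_div_left _ _ hp1, Nat.div_eq_of_lt ((l3 k).trans_lt ok2.h1), zero_add]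
  have s3 : sub w n 0 v₁ (∑ k ∈ range n, a k * (2 ^ w) ^ k) = ∑ k ∈ range n, A3 k * (2 ^ w) ^ k := by
    rw [sub_eq ok.hw (by have := ok2.h2; have := ok2.h3; omega) a hlt]
    refine sum_congr rfl fun k _ => ?_
    congr 1
    rw [pow_zero, Nat.div_one]
    simp only [ha]
    rw [Nat.add_mul_mod_self_left, Nat.mod_eq_of_lt ((l3 k).trans_lt ok2.h1)]
  have s5 : sub w n v₁ (v₂ - v₁) (∑ k ∈ range n, a k * (2 ^ w) ^ k) = ∑ k ∈ range n, A5 k * (2 ^ w) ^ k := by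
    rw [sub_eq ok.hw (by have := ok2.h2; have := ok2.h3; omega) a hlt]
    refine sum_congr rfl fun k _ => ?_
    congr 1
    rw [d1, Nat.add_mul_mod_self_left, Nat.mod_eq_of_lt ((l5 k).trans_lt ok2.h4)]
  have sk' : sub w n v₂ (w - v₂) (∑ k ∈ range n, a k * (2 ^ w) ^ k) = ∑ k ∈ range n, Ak k * (2 ^ w) ^ k := by
    rw [sub_eq ok.hw (by have := ok2.h2; have := ok2.h3; omega) a hlt]
    refine sum_congr rfl fun k _ => ?_
    congr 1
    have e2 : 2 ^ v₂ = 2 ^ v₁ * 2 ^ (v₂ - v₁) := by rw [← pow_add]; congr 1; have := ok2.h2; omega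
    rw [e2, ← Nat.div_div_eq_div_mul, d1, Nat.add_mul_div_left _ _ hp2,
      Nat.div_eq_of_lt ((l5 k).trans_lt ok2.h4), zero_add, Nat.mod_eq_of_lt ((lk k).trans_lt ok2.h5)]
  set Aw : ℕ → ℕ := fun k => if k < n then ∑ d ∈ k.divisors, wf d else 0 with hAw
  have ew : ∀ k, 12 * Aw k = 5 * A3 k + 7 * A5 k := by
    intro k
    simp only [hAw, hA3, hA5]
    split_ifs with hk
    · rw [mul_sum, mul_sum, mul_sum, ← sum_add_distrib]
      exact sum_congr rfl fun d _ => Nat.mul_div_cancel' (twelve_dvd' d)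
    · rfl
  have sw : (5 * ∑ k ∈ range n, A3 k * (2 ^ w) ^ k + 7 * ∑ k ∈ range n, A5 k * (2 ^ w) ^ k) / 12 =
      ∑ k ∈ range n, Aw k * (2 ^ w) ^ k := by
    refine Nat.div_eq_of_eq_mul_right (by norm_num) ?_
    rw [mul_sum, mul_sum, mul_sum, ← sum_add_distrib]
    refine sum_congr rfl fun k _ => ?_
    rw [← mul_assoc, ← mul_assoc, ← mul_assoc, ← add_mul, ew]
  have r3 : Rep w n M (red w n M s μ (∑ k ∈ range n, A3 k * (2 ^ w) ^ k)) (S (ZMod M) 3) := by
    refine rep_sum ok A3 (fun k => ?_) fun k hk => ?_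
    · refine ((l3 k).trans (Nat.pow_le_pow_right ok.hn (by norm_num))).trans_lt ok2.h7
    · simp only [hA3]
      rw [if_pos hk, S, PowerSeries.coeff_mk, ArithmeticFunction.sigma_apply]
  have r5 : Rep w n M (red w n M s μ (∑ k ∈ range n, A5 k * (2 ^ w) ^ k)) (S (ZMod M) 5) := by
    refine rep_sum ok A5 (fun k => (l5 k).trans_lt ok2.h7) fun k hk => ?_
    simp only [hA5]
    rw [if_pos hk, S, PowerSeries.coeff_mk, ArithmeticFunction.sigma_apply]
  have rk : Rep w n M (red w n M s μ (∑ k ∈ range n, Ak k * (2 ^ w) ^ k)) (S (ZMod M) sk) := by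
    refine rep_sum ok Ak (fun k => (lk k).trans_lt ok2.h6) fun k hk => ?_
    simp only [hAk]
    rw [if_pos hk, S, PowerSeries.coeff_mk, ArithmeticFunction.sigma_apply]
    push_cast
    refine sum_congr rfl fun d _ => ?_
    rw [ZMod.natCast_mod]
    push_cast
    rfl
  have rw' : Rep w n M (red w n M s μ (∑ k ∈ range n, Aw k * (2 ^ w) ^ k)) (lam (ZMod M) wf) := by
    refine rep_sum ok Aw (fun k => ?_) fun k hk => ?_
    · have h1 := ew k
      have h2 := l3 k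
      have h3 := l5 k
      have h4 : n ^ 4 ≤ n ^ 6 := Nat.pow_le_pow_right ok.hn (by norm_num)
      have h5 := ok2.h7
      omega
    · simp only [hAw]
      rw [if_pos hk, lam, PowerSeries.coeff_mk]
  have rde := rep_dep ok r3 r5 rw'
  have re4 := rep_e4p ok r3
  have re43 := rep_mul ok (rep_mul ok re4 re4) re4
  have rek : Rep w n M (lin w n M s μ (1 % M) (ck % M) 1 (red w n M s μ (∑ k ∈ range n, Ak k * (2 ^ w) ^ k)))
      (E (ZMod M) sk c) := by
    refine rep_lin' ok (rep_one ok.hw ok.hn ok.hM) rk _ _ (mod_le' ok.hM _) (mod_le' ok.hM _) ?_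
    rw [E, ZMod.natCast_mod, ZMod.natCast_mod, hc]
    simp
  rw [chk] at h
  simp only [fr_eq] at h
  rw [e1, s3, s5, sk', sw] at h
  clear_value A3 A5 Ak a Aw
  induction cls with
  | nil => intro cl hcl; simp at hcl
  | cons cl₀ cls ih =>
    rename' h => h0
    change and (fr (gp _ _ _ _ _ _ _ _ cl₀.1) fun g => chkTab w n M s μ p g cl₀.2 _) (chkCls w n M s μ J p _ _ _ cls) =
      true at h0
    rw [fr_eq, Bool.and_eq_true] at h0
    intro cl hcl
    rcases List.mem_cons.1 hcl with rfl | hcl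
    · exact chkTab_spec ok (rep_gp ok ok2.h10 ok2.h9 cl.1 re43 rde) rek h0.1
    · exact ih h0.2 cl hcl

end Pool.Agent.KS6_3.Asd
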